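import Pool.Agent.Y851.HZ.MS

/-! The mean of the cube of a trigonometric polynomial. -/

set_option autoImplicit false

namespace Pool.Agent.Y851.HZ
open Finset MeasureTheory
open Pool.Agent.H376R2.MR (er kern_er_cont kern_er_norm kern_er_add)
open Pool.Agent.H376R2.MR renaming w → tw

lemma tw_anti {x y : ℝ} (h : |x| ≤ |y|) : tw y ≤ tw x := by
  unfold Pool.Agent.H376R2.MR.w
  apply max_le_max le_rfl
  linarith

lemma ms_scaled (S : Finset ℕ) (c : ℕ → ℂ) (l : ℕ → ℝ) (a : ℕ → ℝ) (hca : ∀ n ∈ S, ‖c n‖ ≤ a n) (Q : ℝ)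
    (hQ : ∑ n ∈ S, a n * ∑ m ∈ S, a m * tw (l n - l m) ≤ Q) (r ξ₀ : ℝ) (hr : 1 ≤ r) :
    Integrable (fun ξ => kap ((ξ - ξ₀) / r) * ‖TP S c l ξ‖ ^ 2) ∧
    ∫ ξ, kap ((ξ - ξ₀) / r) * ‖TP S c l ξ‖ ^ 2 ≤ r * Q := by
  have hr0 : 0 < r := by linarith
  set c' : ℕ → ℂ := fun n => c n * er (2 * Real.pi * ξ₀) (l n) with hc'
  set l' : ℕ → ℝ := fun n => r * l n with hl'
  have hTP : ∀ η : ℝ, TP S c' l' η = TP S c l (ξ₀ + r * η) := by
    intro η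
    unfold TP
    apply sum_congr rfl
    intro n _
    simp only [hc', hl']
    have : er (2 * Real.pi * (ξ₀ + r * η)) (l n) = er (2 * Real.pi * ξ₀) (l n) * er (2 * Real.pi * η) (r * l n) := by
      unfold Pool.Agent.H376R2.MR.er
      rw [← Complex.exp_add]
      congr 1
      push_cast
      ring
    rw [this]
    ring
  have hfun : (fun ξ => kap ((ξ - ξ₀) / r) * ‖TP S c l ξ‖ ^ 2) =
      fun ξ => (fun η => kap η * ‖TP S c' l' η‖ ^ 2) ((ξ - ξ₀) / r) := by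
    funext ξ
    simp only
    rw [hTP]
    congr 4
    field_simp
    ring
  have hG := TP_pow_int S c' l' 2
  constructor
  · rw [hfun]
    have h1 := hG.comp_div hr0.ne'
    have h2 := h1.comp_sub_right ξ₀
    exact h2
  · rw [hfun]
    have h1 : ∫ ξ, (fun η => kap η * ‖TP S c' l' η‖ ^ 2) ((ξ - ξ₀) / r) =
        ∫ ξ, (fun η => kap η * ‖TP S c' l' η‖ ^ 2) (ξ / r) :=
      integral_sub_right_eq_self (fun ξ => (fun η => kap η * ‖TP S c' l' η‖ ^ 2) (ξ / r)) ξ₀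
    have h2 := Measure.integral_comp_div (fun η => kap η * ‖TP S c' l' η‖ ^ 2) r
    rw [abs_of_pos hr0, smul_eq_mul] at h2
    rw [h1, h2]
    apply mul_le_mul_of_nonneg_left _ hr0.le
    apply ms S c' l' a (fun n hn => by
      simp only [hc']
      rw [norm_mul, kern_er_norm, mul_one]
      exact hca n hn)
    refine le_trans ?_ hQ
    apply sum_le_sum
    intro n hn
    have han : 0 ≤ a n := (norm_nonneg _).trans (hca n hn)
    apply mul_le_mul_of_nonneg_left _ han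
    apply sum_le_sum
    intro m hm
    have ham : 0 ≤ a m := (norm_nonneg _).trans (hca m hm)
    apply mul_le_mul_of_nonneg_left _ ham
    apply tw_anti
    simp only [hl']
    rw [← mul_sub, abs_mul, abs_of_pos hr0]
    nlinarith [abs_nonneg (l n - l m)]

theorem cube_bound (S : Finset ℕ) (a : ℕ → ℝ) (ha : ∀ n ∈ S, 0 ≤ a n) (l : ℕ → ℝ) (P Q D T₁ T₂ t : ℝ)
    (hP : ∑ n ∈ S, a n ≤ P) (hQ : ∑ n ∈ S, a n * ∑ m ∈ S, a m * tw (l n - l m) ≤ Q) (hQ0 : 0 ≤ Q)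
    (hT₁ : 4 ≤ T₁) (ht₁ : 2 * T₁ ≤ |t|) (ht₂ : 2 * |t| ≤ T₂) (hD : 0 ≤ D)
    (hsup : ∀ y : ℝ, T₁ ≤ |y| → |y| ≤ T₂ → ‖∑ n ∈ S, (a n : ℂ) * er y (l n)‖ ≤ D) :
    ∫ ξ, kap ξ * ‖TP S (fun n => (a n : ℂ) * er t (l n)) l ξ‖ ^ 3 ≤
      D * Q + 13 * T₁ / t ^ 2 * (P * Q) + 8 * P ^ 3 / T₂ := by
  have hpi := Real.pi_pos
  have hpi3 := Real.pi_gt_three
  have hpi2 := Real.pi_lt_d2
  have htp : 0 < |t| := by linarith
  have hT2 : 0 < T₂ := by linarith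
  set c : ℕ → ℂ := fun n => (a n : ℂ) * er t (l n) with hc
  have hca : ∀ n ∈ S, ‖c n‖ ≤ a n := by
    intro n hn
    simp only [hc]
    rw [norm_mul, kern_er_norm, mul_one, Complex.norm_real, Real.norm_eq_abs, abs_of_nonneg (ha n hn)]
  have hTP : ∀ ξ : ℝ, TP S c l ξ = ∑ n ∈ S, (a n : ℂ) * er (t + 2 * Real.pi * ξ) (l n) := by
    intro ξ
    unfold TP
    apply sum_congr rfl
    intro n _
    simp only [hc]
    have : er (t + 2 * Real.pi * ξ) (l n) = er t (l n) * er (2 * Real.pi * ξ) (l n) := by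
      unfold Pool.Agent.H376R2.MR.er
      rw [← Complex.exp_add]
      congr 1
      push_cast
      ring
    rw [this]
    ring
  have hBP : ∀ ξ : ℝ, ‖TP S c l ξ‖ ≤ P := fun ξ => (TP_le S c l a hca ξ).trans hP
  have hP0 : 0 ≤ P := (norm_nonneg _).trans (hBP 0)
  obtain ⟨ξ₀, hξ₀⟩ : ∃ ξ₀ : ℝ, ξ₀ = -t / (2 * Real.pi) := ⟨_, rfl⟩
  obtain ⟨r, hr⟩ : ∃ r : ℝ, r = T₁ / Real.pi := ⟨_, rfl⟩
  have hr1 : 1 ≤ r := by rw [hr, le_div_iff₀ hpi]; linarith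
  obtain ⟨Ξ, hΞ⟩ : ∃ Ξ : ℝ, Ξ = T₂ / (4 * Real.pi) := ⟨_, rfl⟩
  have hΞ0 : 0 < Ξ := by rw [hΞ]; positivity
  obtain ⟨i2, m2⟩ := ms_scaled S c l a hca Q hQ r ξ₀ hr1
  have m1 := ms S c l a hca Q hQ
  have i1 := TP_pow_int S c l 2
  have i0 := TP_pow_int S c l 3
  have i3 : Integrable (fun ξ : ℝ => (1 + (ξ / Ξ) ^ 2)⁻¹) := integrable_inv_one_add_sq.comp_div hΞ0.ne'
  have m3 : ∫ ξ : ℝ, (1 + (ξ / Ξ) ^ 2)⁻¹ = Ξ * Real.pi := by
    have h1 := Measure.integral_comp_div (fun ξ : ℝ => (1 + ξ ^ 2)⁻¹) Ξ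
    rw [abs_of_pos hΞ0, smul_eq_mul, integral_univ_inv_one_add_sq] at h1
    exact h1
  have hpt : ∀ ξ : ℝ, kap ξ * ‖TP S c l ξ‖ ^ 3 ≤ D * (kap ξ * ‖TP S c l ξ‖ ^ 2) +
      (P * (16 / t ^ 2) * (5 / 2)) * (kap ((ξ - ξ₀) / r) * ‖TP S c l ξ‖ ^ 2) +
      (P ^ 3 * (2 / (Real.pi * Ξ) ^ 2)) * (1 + (ξ / Ξ) ^ 2)⁻¹ := by
    intro ξ
    have hk := kap_nonneg ξ
    have hk2 := kap_nonneg ((ξ - ξ₀) / r)
    have hB := norm_nonneg (TP S c l ξ)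
    have p1 : 0 ≤ D * (kap ξ * ‖TP S c l ξ‖ ^ 2) := by positivity
    have p2 : 0 ≤ (P * (16 / t ^ 2) * (5 / 2)) * (kap ((ξ - ξ₀) / r) * ‖TP S c l ξ‖ ^ 2) := by positivity
    have p3 : 0 ≤ (P ^ 3 * (2 / (Real.pi * Ξ) ^ 2)) * (1 + (ξ / Ξ) ^ 2)⁻¹ := by positivity
    rcases lt_or_ge |t + 2 * Real.pi * ξ| T₁ with h | h
    · -- near the pole
      have h1 : |t| / 4 ≤ |Real.pi * ξ| := by
        have e2 := abs_sub_abs_le_abs_sub t (t + 2 * Real.pi * ξ)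
        rw [show t - (t + 2 * Real.pi * ξ) = -(2 * Real.pi * ξ) by ring, abs_neg] at e2
        have e3 : |2 * Real.pi * ξ| = 2 * |Real.pi * ξ| := by
          rw [mul_assoc, abs_mul, abs_two]
        rw [e3] at e2
        linarith
      have hξ : ξ ≠ 0 := by
        rintro rfl
        simp at h1
        linarith
      have h2 : kap ξ ≤ 16 / t ^ 2 := by
        refine (kap_le_inv ξ hξ).trans ?_
        have h3 : t ^ 2 / 16 ≤ (Real.pi * ξ) ^ 2 := by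
          rw [← sq_abs t, ← sq_abs (Real.pi * ξ)]
          have : (|t| / 4) ^ 2 ≤ |Real.pi * ξ| ^ 2 := by gcongr
          linarith
        have h4 : 0 < t ^ 2 / 16 := by
          have : 0 < t ^ 2 := by rw [← sq_abs]; positivity
          positivity
        calc 1 / (Real.pi * ξ) ^ 2 ≤ 1 / (t ^ 2 / 16) := by gcongr
          _ = 16 / t ^ 2 := by rw [one_div_div]
      have h5 : 2 / 5 ≤ kap ((ξ - ξ₀) / r) := by
        apply kap_ge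
        have e : (ξ - ξ₀) / r = (t + 2 * Real.pi * ξ) / (2 * T₁) := by
          rw [hξ₀, hr]
          field_simp
          ring
        rw [e, abs_div, abs_of_pos (by linarith : 0 < 2 * T₁), div_le_div_iff₀ (by linarith) (by norm_num)]
        linarith
      have h6 : kap ξ * ‖TP S c l ξ‖ ^ 3 ≤ (P * (16 / t ^ 2) * (5 / 2)) * (kap ((ξ - ξ₀) / r) * ‖TP S c l ξ‖ ^ 2) := by
        have h7 : ‖TP S c l ξ‖ ^ 3 = ‖TP S c l ξ‖ * ‖TP S c l ξ‖ ^ 2 := by ring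
        rw [h7]
        have hBp := hBP ξ
        have h8 : (1 : ℝ) ≤ 5 / 2 * kap ((ξ - ξ₀) / r) := by linarith
        calc kap ξ * (‖TP S c l ξ‖ * ‖TP S c l ξ‖ ^ 2) ≤ (16 / t ^ 2) * (P * ‖TP S c l ξ‖ ^ 2) := by gcongr
          _ = (16 / t ^ 2) * P * ‖TP S c l ξ‖ ^ 2 * 1 := by ring
          _ ≤ (16 / t ^ 2) * P * ‖TP S c l ξ‖ ^ 2 * (5 / 2 * kap ((ξ - ξ₀) / r)) := by gcongr
          _ = _ := by ring
      linarith
    · rcases le_or_gt |t + 2 * Real.pi * ξ| T₂ with h' | h'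
      · have h1 := hsup _ h h'
        rw [← hTP] at h1
        have h2 : kap ξ * ‖TP S c l ξ‖ ^ 3 ≤ D * (kap ξ * ‖TP S c l ξ‖ ^ 2) := by
          have h7 : ‖TP S c l ξ‖ ^ 3 = ‖TP S c l ξ‖ * ‖TP S c l ξ‖ ^ 2 := by ring
          rw [h7]
          calc kap ξ * (‖TP S c l ξ‖ * ‖TP S c l ξ‖ ^ 2) ≤ kap ξ * (D * ‖TP S c l ξ‖ ^ 2) := by gcongr
            _ = _ := by ring
        linarith
      · -- far away
        have h1 : T₂ / 4 ≤ |Real.pi * ξ| := by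
          have e1 : t + 2 * Real.pi * ξ = 2 * (Real.pi * ξ) + t := by ring
          rw [e1] at h'
          have e2 := abs_add_le (2 * (Real.pi * ξ)) t
          rw [abs_mul, abs_two] at e2
          linarith
        have hξ : ξ ≠ 0 := by
          rintro rfl
          simp at h1
          linarith
        have h2 : Ξ ≤ |ξ| := by
          rw [abs_mul, abs_of_pos hpi] at h1
          rw [hΞ, div_le_iff₀ (by positivity)]
          linarith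
        have h3 : kap ξ ≤ (2 / (Real.pi * Ξ) ^ 2) * (1 + (ξ / Ξ) ^ 2)⁻¹ := by
          refine (kap_le_inv ξ hξ).trans ?_
          have h4 : Ξ ^ 2 ≤ ξ ^ 2 := by
            rw [← sq_abs ξ]; gcongr
          have e : (2 / (Real.pi * Ξ) ^ 2) * (1 + (ξ / Ξ) ^ 2)⁻¹ = 2 / (Real.pi ^ 2 * (Ξ ^ 2 + ξ ^ 2)) := by
            field_simp
          rw [e, div_le_div_iff₀ (by positivity) (by positivity)]
          nlinarith [sq_nonneg Real.pi]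
        have h5 : kap ξ * ‖TP S c l ξ‖ ^ 3 ≤ (P ^ 3 * (2 / (Real.pi * Ξ) ^ 2)) * (1 + (ξ / Ξ) ^ 2)⁻¹ := by
          have hBp := hBP ξ
          calc kap ξ * ‖TP S c l ξ‖ ^ 3 ≤ ((2 / (Real.pi * Ξ) ^ 2) * (1 + (ξ / Ξ) ^ 2)⁻¹) * P ^ 3 := by gcongr
            _ = _ := by ring
        linarith
  have j1 := i1.const_mul D
  have j2 := i2.const_mul (P * (16 / t ^ 2) * (5 / 2))
  have j3 := i3.const_mul (P ^ 3 * (2 / (Real.pi * Ξ) ^ 2))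
  have hint : ∫ ξ, kap ξ * ‖TP S c l ξ‖ ^ 3 ≤ ∫ ξ, (D * (kap ξ * ‖TP S c l ξ‖ ^ 2) +
      (P * (16 / t ^ 2) * (5 / 2)) * (kap ((ξ - ξ₀) / r) * ‖TP S c l ξ‖ ^ 2) +
      (P ^ 3 * (2 / (Real.pi * Ξ) ^ 2)) * (1 + (ξ / Ξ) ^ 2)⁻¹) := integral_mono i0 ((j1.add j2).add j3) hpt
  refine hint.trans ?_
  have e1 : ∫ ξ, (D * (kap ξ * ‖TP S c l ξ‖ ^ 2) +
      (P * (16 / t ^ 2) * (5 / 2)) * (kap ((ξ - ξ₀) / r) * ‖TP S c l ξ‖ ^ 2) +
      (P ^ 3 * (2 / (Real.pi * Ξ) ^ 2)) * (1 + (ξ / Ξ) ^ 2)⁻¹) =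
      D * (∫ ξ, kap ξ * ‖TP S c l ξ‖ ^ 2) + (P * (16 / t ^ 2) * (5 / 2)) * (∫ ξ, kap ((ξ - ξ₀) / r) * ‖TP S c l ξ‖ ^ 2) +
      (P ^ 3 * (2 / (Real.pi * Ξ) ^ 2)) * ∫ ξ : ℝ, (1 + (ξ / Ξ) ^ 2)⁻¹ := by
    have k1 := integral_add (j1.add j2) j3
    have k2 := integral_add j1 j2
    simp only [Pi.add_apply] at k1
    rw [k1, k2, integral_const_mul, integral_const_mul, integral_const_mul]
  rw [e1, m3]
  have f1 : D * (∫ ξ, kap ξ * ‖TP S c l ξ‖ ^ 2) ≤ D * Q := by gcongr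
  have f2 : (P * (16 / t ^ 2) * (5 / 2)) * (∫ ξ, kap ((ξ - ξ₀) / r) * ‖TP S c l ξ‖ ^ 2) ≤ 13 * T₁ / t ^ 2 * (P * Q) := by
    calc (P * (16 / t ^ 2) * (5 / 2)) * (∫ ξ, kap ((ξ - ξ₀) / r) * ‖TP S c l ξ‖ ^ 2) ≤
        (P * (16 / t ^ 2) * (5 / 2)) * (r * Q) := by gcongr
      _ = (40 / Real.pi) * (T₁ / t ^ 2 * (P * Q)) := by rw [hr]; field_simp; ring
      _ ≤ 13 * (T₁ / t ^ 2 * (P * Q)) := by
          have : (0 : ℝ) ≤ T₁ / t ^ 2 * (P * Q) := by positivity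
          apply mul_le_mul_of_nonneg_right _ this
          have h9 := Real.pi_gt_d2
          rw [div_le_iff₀ hpi]
          linarith
      _ = _ := by ring
  have f3 : P ^ 3 * (2 / (Real.pi * Ξ) ^ 2) * (Ξ * Real.pi) ≤ 8 * P ^ 3 / T₂ := by
    have : P ^ 3 * (2 / (Real.pi * Ξ) ^ 2) * (Ξ * Real.pi) = 8 * P ^ 3 / T₂ := by
      rw [hΞ]
      field_simp
      ring
    exact this.le
  linarith

end Pool.Agent.Y851.HZ
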