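import Pool.Agent.Y851.HZ.LB
import Pool.Agent.Y851.HZ.MC

/-! Arithmetic functions restricted to rough numbers. -/

set_option autoImplicit false

namespace Pool.Agent.Y851.HZ
open Finset
open Pool.Agent.H376R2.MR (er kern_er_cont kern_er_norm kern_er_add)
open Pool.Agent.H376R2.MR renaming w → tw
open Pool.Agent.H318R2.Cr (Rgh Pz mem_Pz one_sub_inv_pos V_pos V_le_one cz_bounds)
open Pool.Agent.H318R2.Cr renaming V → VV
open ArithmeticFunction (vonMangoldt)

lemma rgh_mul {z a b : ℕ} : Rgh z (a * b) ↔ Rgh z a ∧ Rgh z b := by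
  constructor
  · intro h
    exact ⟨fun p hp hz hd => h p hp hz (hd.mul_right _), fun p hp hz hd => h p hp hz (hd.mul_left _)⟩
  · rintro ⟨h1, h2⟩ p hp hz hd
    rcases hp.dvd_mul.1 hd with h | h
    · exact h1 p hp hz h
    · exact h2 p hp hz h

open Classical in
/-- restriction to rough numbers -/
noncomputable def res (z : ℕ) (f : ArithmeticFunction ℝ) : ArithmeticFunction ℝ :=
  ⟨fun n => if Rgh z n then f n else 0, by
    split_ifs
    · exact f.map_zero
    · rfl⟩

lemma res_apply (z : ℕ) (f : ArithmeticFunction ℝ) (n : ℕ) [Decidable (Rgh z n)] : res z f n = if Rgh z n then f n else 0 := by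
  simp only [res, ArithmeticFunction.coe_mk]
  congr

lemma res_mul (z : ℕ) (f g : ArithmeticFunction ℝ) : res z f * res z g = res z (f * g) := by
  classical
  ext n
  rw [ArithmeticFunction.mul_apply, res_apply, ArithmeticFunction.mul_apply]
  by_cases h : Rgh z n
  · rw [if_pos h]
    apply sum_congr rfl
    intro p hp
    rw [Nat.mem_divisorsAntidiagonal] at hp
    rw [← hp.1, rgh_mul] at h
    rw [res_apply, res_apply, if_pos h.1, if_pos h.2]
  · rw [if_neg h]
    apply sum_eq_zero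
    intro p hp
    rw [Nat.mem_divisorsAntidiagonal] at hp
    rw [← hp.1, rgh_mul, not_and_or] at h
    rw [res_apply, res_apply]
    rcases h with h | h
    · rw [if_neg h, zero_mul]
    · rw [if_neg h, mul_zero]

/-- multiplication by the logarithm -/
noncomputable def DD (f : ArithmeticFunction ℝ) : ArithmeticFunction ℝ := f.pmul ArithmeticFunction.log

lemma DD_apply (f : ArithmeticFunction ℝ) (n : ℕ) : DD f n = f n * Real.log n := rfl

lemma DD_mul (f g : ArithmeticFunction ℝ) : DD (f * g) = DD f * g + f * DD g := by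
  ext n
  rw [DD_apply, ArithmeticFunction.mul_apply, ArithmeticFunction.add_apply, ArithmeticFunction.mul_apply,
    ArithmeticFunction.mul_apply, sum_mul, ← sum_add_distrib]
  apply sum_congr rfl
  intro p hp
  rw [Nat.mem_divisorsAntidiagonal] at hp
  have h1 : p.1 ≠ 0 := by rintro h; rw [h, zero_mul] at hp; exact hp.2 hp.1.symm
  have h2 : p.2 ≠ 0 := by rintro h; rw [h, mul_zero] at hp; exact hp.2 hp.1.symm
  have h1r : (p.1 : ℝ) ≠ 0 := by exact_mod_cast h1
  have h2r : (p.2 : ℝ) ≠ 0 := by exact_mod_cast h2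
  rw [DD_apply, DD_apply, ← hp.1]
  push_cast
  rw [Real.log_mul h1r h2r]
  ring

lemma DD_add (f g : ArithmeticFunction ℝ) : DD (f + g) = DD f + DD g := by
  ext n
  rw [DD_apply, ArithmeticFunction.add_apply, ArithmeticFunction.add_apply, DD_apply, DD_apply]
  ring

lemma DD_res (z : ℕ) (f : ArithmeticFunction ℝ) : DD (res z f) = res z (DD f) := by
  classical
  ext n
  rw [DD_apply, res_apply, res_apply, DD_apply]
  split_ifs <;> ring

/-- the von Mangoldt function on rough numbers -/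
noncomputable def LR (z : ℕ) : ArithmeticFunction ℝ := res z vonMangoldt

noncomputable def zR (z : ℕ) : ArithmeticFunction ℝ := res z ((ArithmeticFunction.zeta : ArithmeticFunction ℕ) : ArithmeticFunction ℝ)

noncomputable def muR (z : ℕ) : ArithmeticFunction ℝ := res z ((ArithmeticFunction.moebius : ArithmeticFunction ℤ) : ArithmeticFunction ℝ)

/-- Selberg's function on rough numbers -/
noncomputable def ER (z : ℕ) : ArithmeticFunction ℝ := DD (LR z) + LR z * LR z

lemma LR_zR (z : ℕ) : LR z * zR z = DD (zR z) := by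
  unfold LR zR
  rw [res_mul, ArithmeticFunction.vonMangoldt_mul_zeta, DD_res]
  congr 1
  ext n
  rw [DD_apply]
  rcases Nat.eq_zero_or_pos n with rfl | hn
  · simp
  · rw [ArithmeticFunction.natCoe_apply, ArithmeticFunction.zeta_apply_ne (by omega)]
    simp

lemma muR_zR (z : ℕ) : muR z * zR z = 1 := by
  classical
  unfold muR zR
  rw [res_mul, ArithmeticFunction.coe_moebius_mul_coe_zeta]
  ext n
  rw [res_apply]
  by_cases hn : n = 1
  · subst hn
    have : Rgh z 1 := fun p hp _ hd => hp.one_lt.ne' (Nat.dvd_one.1 hd)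
    rw [if_pos this]
  · rw [ArithmeticFunction.one_apply_ne hn]
    split_ifs <;> rfl

/-- Selberg's identity -/
lemma ER_eq (z : ℕ) : ER z = muR z * DD (DD (zR z)) := by
  have h1 : DD (DD (zR z)) = ER z * zR z := by
    rw [← LR_zR, DD_mul, ← LR_zR, ER, add_mul, mul_assoc]
  rw [h1, mul_comm (ER z), ← mul_assoc, muR_zR, one_mul]

/-- the cubic identity -/
lemma cubic (z : ℕ) : DD (DD (LR z)) + 2 * (LR z * ER z) = 2 * (LR z * LR z * LR z) + DD (ER z) := by
  have h1 : DD (ER z) = DD (DD (LR z)) + 2 * (LR z * DD (LR z)) := by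
    rw [ER, DD_add, DD_mul]
    ring
  rw [h1]
  unfold ER
  ring

lemma LR_nonneg (z n : ℕ) : 0 ≤ LR z n := by
  classical
  unfold LR
  rw [res_apply]
  split_ifs
  · exact ArithmeticFunction.vonMangoldt_nonneg
  · exact le_rfl

lemma LR_le (z n : ℕ) : LR z n ≤ vonMangoldt n := by
  classical
  unfold LR
  rw [res_apply]
  split_ifs
  · exact le_rfl
  · exact ArithmeticFunction.vonMangoldt_nonneg

lemma mul_nonneg' {f g : ArithmeticFunction ℝ} (hf : ∀ n, 0 ≤ f n) (hg : ∀ n, 0 ≤ g n) (n : ℕ) : 0 ≤ (f * g) n := by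
  rw [ArithmeticFunction.mul_apply]
  exact sum_nonneg fun p _ => mul_nonneg (hf _) (hg _)

lemma ER_nonneg (z n : ℕ) : 0 ≤ ER z n := by
  rw [ER, ArithmeticFunction.add_apply]
  apply add_nonneg
  · rw [DD_apply]
    exact mul_nonneg (LR_nonneg z n) (Real.log_natCast_nonneg n)
  · exact mul_nonneg' (LR_nonneg z) (LR_nonneg z) n

/-- the twisted weight -/
noncomputable def th (Y τ : ℝ) (n : ℕ) : ℂ := ((Real.exp (-(Real.log n / Y)) / n : ℝ) : ℂ) * er τ (Real.log n)

lemma th_mul (Y τ : ℝ) {d m : ℕ} (hd : 1 ≤ d) (hm : 1 ≤ m) : th Y τ (d * m) = th Y τ d * th Y τ m := by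
  unfold th
  have hd0 : (0 : ℝ) < d := by exact_mod_cast hd
  have hm0 : (0 : ℝ) < m := by exact_mod_cast hm
  have hl : Real.log ((d * m : ℕ) : ℝ) = Real.log d + Real.log m := by
    push_cast
    rw [Real.log_mul hd0.ne' hm0.ne']
  rw [hl, kern_er_add, add_div, neg_add, Real.exp_add]
  push_cast
  have h1 : (d : ℂ) ≠ 0 := by exact_mod_cast hd0.ne'
  have h2 : (m : ℂ) ≠ 0 := by exact_mod_cast hm0.ne'
  field_simp

/-- the window functional -/
noncomputable def WF (N : ℕ) (Y τ V : ℝ) (f : ArithmeticFunction ℝ) : ℂ :=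
  ∑ n ∈ Icc 1 N, (f n : ℂ) * (th Y τ n * (tw (Real.log n - V) : ℂ))

lemma WF_add (N : ℕ) (Y τ V : ℝ) (f g : ArithmeticFunction ℝ) : WF N Y τ V (f + g) = WF N Y τ V f + WF N Y τ V g := by
  unfold WF
  rw [← sum_add_distrib]
  apply sum_congr rfl
  intro n _
  rw [ArithmeticFunction.add_apply]
  push_cast
  ring

lemma WF_two (N : ℕ) (Y τ V : ℝ) (f : ArithmeticFunction ℝ) : WF N Y τ V (2 * f) = 2 * WF N Y τ V f := by
  rw [two_mul, WF_add]
  ring

/-- windows of convolutions -/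
lemma WF_mul (N : ℕ) (Y τ V : ℝ) (hN : Real.exp (V + 1) ≤ N) (f g : ArithmeticFunction ℝ) :
    WF N Y τ V (f * g) = ∑ d ∈ Icc 1 N, (f d : ℂ) * (th Y τ d * WF N Y τ (V - Real.log d) g) := by
  unfold WF
  have h1 : ∀ n ∈ Icc 1 N, ((f * g) n : ℂ) * (th Y τ n * (tw (Real.log n - V) : ℂ)) =
      ∑ p ∈ n.divisorsAntidiagonal, (f p.1 : ℂ) * (g p.2 : ℂ) * (th Y τ (p.1 * p.2) * (tw (Real.log ((p.1 * p.2 : ℕ) : ℝ) - V) : ℂ)) := by
    intro n _
    rw [ArithmeticFunction.mul_apply, Complex.ofReal_sum, sum_mul]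
    apply sum_congr rfl
    intro p hp
    rw [Nat.mem_divisorsAntidiagonal] at hp
    rw [hp.1]
    push_cast
    ring
  rw [sum_congr rfl h1]
  have h2 : ∀ d ∈ Icc 1 N, (f d : ℂ) * (th Y τ d * ∑ n ∈ Icc 1 N, (g n : ℂ) * (th Y τ n * (tw (Real.log n - (V - Real.log d)) : ℂ))) =
      ∑ m ∈ Icc 1 N, (f d : ℂ) * (g m : ℂ) * (th Y τ (d * m) * (tw (Real.log ((d * m : ℕ) : ℝ) - V) : ℂ)) := by
    intro d hd
    rw [mul_sum, mul_sum]
    apply sum_congr rfl
    intro m hm
    rw [mem_Icc] at hd hm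
    have hd0 : (0 : ℝ) < d := by exact_mod_cast hd.1
    have hm0 : (0 : ℝ) < m := by exact_mod_cast hm.1
    have hl : Real.log ((d * m : ℕ) : ℝ) = Real.log d + Real.log m := by
      push_cast
      rw [Real.log_mul hd0.ne' hm0.ne']
    rw [th_mul Y τ hd.1 hm.1, hl, show Real.log m - (V - Real.log d) = Real.log d + Real.log m - V by ring]
    ring
  rw [sum_congr rfl h2, ← sum_product', sum_sigma']
  -- the pairs
  symm
  rw [← sum_subset (s₁ := (Icc 1 N ×ˢ Icc 1 N).filter (fun p : ℕ × ℕ => p.1 * p.2 ≤ N)) (filter_subset _ _)]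
  · refine sum_bij' (fun p _ => (⟨p.1 * p.2, p⟩ : (_ : ℕ) × (ℕ × ℕ))) (fun q _ => q.2) ?_ ?_ ?_ ?_ ?_
    · intro p hp
      rw [mem_filter, mem_product, mem_Icc, mem_Icc] at hp
      rw [mem_sigma, mem_Icc, Nat.mem_divisorsAntidiagonal]
      have : 0 < p.1 * p.2 := Nat.mul_pos hp.1.1.1 hp.1.2.1
      exact ⟨⟨this, hp.2⟩, rfl, this.ne'⟩
    · rintro ⟨n, p⟩ hq
      rw [mem_sigma, mem_Icc, Nat.mem_divisorsAntidiagonal] at hq
      simp only at hq
      obtain ⟨⟨h3, h4⟩, h5, h6⟩ := hq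
      have h7 : p.1 ≠ 0 := by rintro h; rw [h, zero_mul] at h5; omega
      have h8 : p.2 ≠ 0 := by rintro h; rw [h, mul_zero] at h5; omega
      rw [mem_filter, mem_product, mem_Icc, mem_Icc]
      have h9 : p.1 ≤ p.1 * p.2 := Nat.le_mul_of_pos_right _ (Nat.pos_of_ne_zero h8)
      have h10 : p.2 ≤ p.1 * p.2 := Nat.le_mul_of_pos_left _ (Nat.pos_of_ne_zero h7)
      simp only
      omega
    · intro p _; rfl
    · rintro ⟨n, p⟩ hq
      rw [mem_sigma, Nat.mem_divisorsAntidiagonal] at hq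
      simp only at hq ⊢
      rw [hq.2.1]
    · intro p _; rfl
  · intro p hp hp2
    rw [mem_product, mem_Icc, mem_Icc] at hp
    rw [mem_filter, mem_product, mem_Icc, mem_Icc, not_and, not_le] at hp2
    have h3 := hp2 hp
    have h4 : (N : ℝ) < ((p.1 * p.2 : ℕ) : ℝ) := by exact_mod_cast h3
    have h5 : Real.exp (V + 1) < ((p.1 * p.2 : ℕ) : ℝ) := lt_of_le_of_lt hN h4
    have h6 : V + 1 < Real.log ((p.1 * p.2 : ℕ) : ℝ) := by
      rwa [Real.lt_log_iff_exp_lt ((Real.exp_pos _).trans h5)]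
    rw [tw_supp _ (by rw [abs_of_nonneg (by linarith)]; linarith)]
    simp

end Pool.Agent.Y851.HZ
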