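import Pool.Agent.Y851.HZ.RW

/-! Windows: Chebyshev bounds, rough numbers, partition of unity. -/

set_option autoImplicit false

namespace Pool.Agent.Y851.HZ
open Finset
open Pool.Agent.H376R2.MR (er kern_er_cont kern_er_norm kern_er_add)
open Pool.Agent.H376R2.MR renaming w → tw
open Pool.Agent.H318R2.Cr (Rgh Pz mem_Pz one_sub_inv_pos V_pos V_le_one cz_bounds)
open Pool.Agent.H318R2.Cr renaming V → VV
open ArithmeticFunction (vonMangoldt)

lemma tw_nonneg (s : ℝ) : 0 ≤ tw s := le_max_left _ _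

lemma tw_le (s : ℝ) : tw s ≤ 1 := by
  unfold Pool.Agent.H376R2.MR.w
  exact max_le zero_le_one (by linarith [abs_nonneg s])

lemma tw_lip (s t : ℝ) : |tw s - tw t| ≤ |s - t| := by
  unfold Pool.Agent.H376R2.MR.w
  calc |max 0 (1 - |s|) - max 0 (1 - |t|)| = |max (1 - |s|) 0 - max (1 - |t|) 0| := by
        rw [max_comm, max_comm 0]
    _ ≤ |(1 - |s|) - (1 - |t|)| := abs_max_sub_max_le_abs _ _ _
    _ = abs (|t| - |s|) := by congr 1; ring
    _ ≤ |t - s| := abs_abs_sub_abs_le _ _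
    _ = |s - t| := abs_sub_comm _ _

lemma tw_supp (s : ℝ) (h : 1 ≤ |s|) : tw s = 0 := by
  unfold Pool.Agent.H376R2.MR.w
  exact max_eq_left (by linarith)

lemma tw_wd : Wd tw := ⟨tw_nonneg, tw_le, tw_lip, tw_supp⟩

/-- clamping to `[-1,1]` -/
noncomputable def clamp (x : ℝ) : ℝ := max (-1) (min 1 x)

lemma clamp_mem (x : ℝ) : |clamp x| ≤ 1 := by
  unfold clamp
  rw [abs_le]
  exact ⟨le_max_left _ _, max_le (by norm_num) (min_le_left _ _)⟩

lemma clamp_lip (x y : ℝ) : |clamp x - clamp y| ≤ |x - y| := by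
  unfold clamp
  rw [max_comm, max_comm (-1)]
  refine (abs_max_sub_max_le_abs _ _ _).trans ?_
  rw [min_comm, min_comm 1]
  exact abs_min_sub_min_le_max _ _ _ _ |>.trans (by simp)

lemma clamp_eq {x : ℝ} (h : |x| ≤ 1) : clamp x = x := by
  unfold clamp
  rw [abs_le] at h
  rw [min_eq_right h.2, max_eq_right h.1]

/-- windows from functions on `[-1,1]` -/
lemma wd_of (φ : ℝ → ℝ) (h0 : ∀ x, |x| ≤ 1 → 0 ≤ φ x) (h1 : ∀ x, |x| ≤ 1 → φ x ≤ 1)
    (h2 : ∀ x y, |x| ≤ 1 → |y| ≤ 1 → |φ x - φ y| ≤ 3 * |x - y|) :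
    Wd (fun x => 1 / 4 * (tw x * φ (clamp x))) := by
  constructor
  · intro x
    have := tw_nonneg x
    have := h0 _ (clamp_mem x)
    positivity
  · intro x
    have a1 := tw_nonneg x
    have a2 := tw_le x
    have a3 := h0 _ (clamp_mem x)
    have a4 := h1 _ (clamp_mem x)
    show 1 / 4 * (tw x * φ (clamp x)) ≤ 1
    nlinarith
  · intro x y
    have a1 := tw_nonneg x
    have a2 := tw_le x
    have a3 := h0 _ (clamp_mem y)
    have a4 := h1 _ (clamp_mem y)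
    have a5 := h2 _ _ (clamp_mem x) (clamp_mem y)
    have a6 := clamp_lip x y
    have a7 := tw_lip x y
    show |1 / 4 * (tw x * φ (clamp x)) - 1 / 4 * (tw y * φ (clamp y))| ≤ |x - y|
    have e : 1 / 4 * (tw x * φ (clamp x)) - 1 / 4 * (tw y * φ (clamp y)) =
        1 / 4 * (tw x * (φ (clamp x) - φ (clamp y)) + (tw x - tw y) * φ (clamp y)) := by ring
    rw [e, abs_mul, abs_of_pos (by norm_num : (0 : ℝ) < 1 / 4)]
    have b1 : |tw x * (φ (clamp x) - φ (clamp y))| ≤ 3 * |x - y| := by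
      rw [abs_mul, abs_of_nonneg a1]
      calc tw x * |φ (clamp x) - φ (clamp y)| ≤ 1 * (3 * |x - y|) := by
            gcongr
            exact a5.trans (by linarith)
        _ = 3 * |x - y| := one_mul _
    have b2 : |(tw x - tw y) * φ (clamp y)| ≤ |x - y| := by
      rw [abs_mul, abs_of_nonneg a3]
      calc |tw x - tw y| * φ (clamp y) ≤ |x - y| * 1 := by gcongr
        _ = |x - y| := mul_one _
    have b3 := abs_add_le (tw x * (φ (clamp x) - φ (clamp y))) ((tw x - tw y) * φ (clamp y))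
    linarith
  · intro x hx
    show 1 / 4 * (tw x * φ (clamp x)) = 0
    rw [tw_supp x hx]
    ring

/-- partition of unity -/
lemma part_unity (x : ℝ) (hx : 0 ≤ x) (J : ℕ) : ∑ j ∈ range J, tw (x - j) = max 0 (min 1 (J - x)) := by
  induction J with
  | zero =>
    simp only [range_zero, sum_empty, Nat.cast_zero, zero_sub]
    rw [max_eq_left]
    exact (min_le_right _ _).trans (by linarith)
  | succ J ih =>
    rw [sum_range_succ, ih]
    unfold Pool.Agent.H376R2.MR.w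
    push_cast
    rcases le_total (1 : ℝ) (J - x) with h1 | h1
    · rw [min_eq_left h1, min_eq_left (by linarith : (1 : ℝ) ≤ J + 1 - x), abs_of_nonpos (by linarith : x - J ≤ 0),
        max_eq_left (by linarith : (1 : ℝ) - -(x - J) ≤ 0)]
      ring
    · rcases le_total (0 : ℝ) (J - x) with h2 | h2
      · rw [min_eq_right h1, max_eq_right h2, min_eq_left (by linarith : (1 : ℝ) ≤ J + 1 - x),
          abs_of_nonpos (by linarith : x - J ≤ 0), max_eq_right (by linarith : (0 : ℝ) ≤ 1 - -(x - J)),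
          max_eq_right (by norm_num : (0 : ℝ) ≤ 1)]
        ring
      · rw [min_eq_right h1, max_eq_left h2, zero_add, abs_of_nonneg (by linarith : 0 ≤ x - J),
          min_eq_right (by linarith : (J : ℝ) + 1 - x ≤ 1)]
        congr 1
        ring

lemma part_le (x : ℝ) (hx : 0 ≤ x) (J : ℕ) : ∑ j ∈ range J, tw (x - j) ≤ 1 := by
  rw [part_unity x hx]
  exact max_le (by norm_num) (min_le_left _ _)

lemma part_zero (x : ℝ) (hx : 0 ≤ x) (J : ℕ) (h : (J : ℝ) ≤ x) : ∑ j ∈ range J, tw (x - j) = 0 := by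
  rw [part_unity x hx]
  exact max_eq_left ((min_le_right _ _).trans (by linarith))

/-- the von Mangoldt function in unit windows -/
lemma lam_win (v : ℝ) (S : Finset ℕ) (hS : ∀ n ∈ S, 1 ≤ n ∧ |Real.log n - v| ≤ 1) :
    ∑ n ∈ S, vonMangoldt n / n ≤ 48 := by
  have h1 : ∀ n ∈ S, vonMangoldt n / n ≤ Real.exp (1 - v) * vonMangoldt n := by
    intro n hn
    obtain ⟨hn1, hn2⟩ := hS n hn
    have hn0 : (0 : ℝ) < n := by exact_mod_cast hn1
    have h2 : Real.exp (v - 1) ≤ n := by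
      rw [← Real.le_log_iff_exp_le hn0]
      linarith [(abs_le.1 hn2).1]
    rw [div_le_iff₀ hn0]
    have h3 : Real.exp (1 - v) * Real.exp (v - 1) = 1 := by rw [← Real.exp_add]; simp
    have h4 : 1 ≤ Real.exp (1 - v) * n := by
      have h5 := mul_le_mul_of_nonneg_left h2 (Real.exp_pos (1 - v)).le
      linarith
    have h5 : 0 ≤ vonMangoldt n := ArithmeticFunction.vonMangoldt_nonneg
    nlinarith
  have h2 : ∑ n ∈ S, vonMangoldt n ≤ Chebyshev.psi (Real.exp (v + 1)) := by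
    unfold Chebyshev.psi
    apply sum_le_sum_of_subset_of_nonneg
    · intro n hn
      obtain ⟨hn1, hn2⟩ := hS n hn
      have hn0 : (0 : ℝ) < n := by exact_mod_cast hn1
      rw [mem_Ioc]
      refine ⟨hn1, Nat.le_floor ?_⟩
      rw [← Real.log_le_iff_le_exp hn0]
      linarith [(abs_le.1 hn2).2]
    · intro n _ _
      exact ArithmeticFunction.vonMangoldt_nonneg
  have h3 := Chebyshev.psi_le_const_mul_self (Real.exp_pos (v + 1)).le
  have h4 : Real.exp (1 - v) * Real.exp (v + 1) = Real.exp 2 := by rw [← Real.exp_add]; congr 1; ring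
  have h5 : Real.log 4 ≤ 1.4 := by
    have : Real.log 4 = 2 * Real.log 2 := by
      rw [show (4 : ℝ) = 2 ^ 2 by norm_num, Real.log_pow]; norm_num
    rw [this]
    linarith [Real.log_two_lt_d9]
  calc ∑ n ∈ S, vonMangoldt n / n ≤ ∑ n ∈ S, Real.exp (1 - v) * vonMangoldt n := sum_le_sum h1
    _ = Real.exp (1 - v) * ∑ n ∈ S, vonMangoldt n := by rw [mul_sum]
    _ ≤ Real.exp (1 - v) * ((Real.log 4 + 4) * Real.exp (v + 1)) := by
        apply mul_le_mul_of_nonneg_left (h2.trans h3) (Real.exp_pos _).le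
    _ = (Real.log 4 + 4) * Real.exp 2 := by rw [← h4]; ring
    _ ≤ (1.4 + 4) * 7.4 := by
        have := exp_two_lt
        gcongr
    _ ≤ 48 := by norm_num

/-- covering by unit windows -/
lemma win_cover (S J : Finset ℕ) (f : ℕ → ℝ) (hf : ∀ n ∈ S, 0 ≤ f n) (h1 : ∀ n ∈ S, 1 ≤ n)
    (hJ : ∀ n ∈ S, ⌊Real.log n⌋₊ ∈ J) (h : ℕ → ℝ) (B : ℕ → ℝ) (hB : ∀ j ∈ J, 0 ≤ h j)
    (hw : ∀ j ∈ J, ∀ n ∈ S, (j : ℝ) ≤ Real.log n → Real.log n < j + 1 → f n ≤ h j * B n) (C : ℝ)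
    (hC : ∀ j ∈ J, ∑ n ∈ S.filter (fun n : ℕ => (j : ℝ) ≤ Real.log n ∧ Real.log n < j + 1), B n ≤ C) :
    ∑ n ∈ S, f n ≤ C * ∑ j ∈ J, h j := by
  rw [← sum_fiberwise_of_maps_to hJ, mul_sum]
  apply sum_le_sum
  intro j hj
  have hset : S.filter (fun n : ℕ => ⌊Real.log n⌋₊ = j) = S.filter (fun n : ℕ => (j : ℝ) ≤ Real.log n ∧ Real.log n < j + 1) := by
    apply filter_congr
    intro n hn
    have hl : 0 ≤ Real.log n := Real.log_natCast_nonneg n
    rw [Nat.floor_eq_iff hl]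
  rw [hset]
  calc ∑ n ∈ S.filter (fun n : ℕ => (j : ℝ) ≤ Real.log n ∧ Real.log n < j + 1), f n
      ≤ ∑ n ∈ S.filter (fun n : ℕ => (j : ℝ) ≤ Real.log n ∧ Real.log n < j + 1), h j * B n := by
        apply sum_le_sum
        intro n hn
        rw [mem_filter] at hn
        exact hw j hj n hn.1 hn.2.1 hn.2.2
    _ = h j * ∑ n ∈ S.filter (fun n : ℕ => (j : ℝ) ≤ Real.log n ∧ Real.log n < j + 1), B n := by rw [mul_sum]
    _ ≤ h j * C := mul_le_mul_of_nonneg_left (hC j hj) (hB j hj)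
    _ = C * h j := mul_comm _ _

lemma geo_exp (Y : ℝ) (hY : 1 ≤ Y) (J : ℕ) : ∑ j ∈ range J, Real.exp (-((j : ℝ) / Y)) ≤ 2 * Y := by
  have hY0 : 0 < Y := by linarith
  have h1 : ∀ j : ℕ, Real.exp (-((j : ℝ) / Y)) = Real.exp (-(1 / Y)) ^ j := by
    intro j
    rw [← Real.exp_nat_mul]
    congr 1
    ring
  rw [sum_congr rfl fun j _ => h1 j]
  set q := Real.exp (-(1 / Y)) with hq
  have hy1 : 1 / Y ≤ 1 := by rw [div_le_one hY0]; exact hY
  have hy0 : 0 < 1 / Y := by positivity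
  have hq1 : q ≤ 1 - 1 / (2 * Y) := by
    have h2 : 1 + 1 / Y ≤ Real.exp (1 / Y) := by linarith [Real.add_one_le_exp (1 / Y)]
    have h3 : q * Real.exp (1 / Y) = 1 := by rw [hq, ← Real.exp_add]; simp
    have hq0 : 0 < q := Real.exp_pos _
    have h4 : q * (1 + 1 / Y) ≤ 1 := by nlinarith
    have h5 : 1 ≤ (1 - 1 / (2 * Y)) * (1 + 1 / Y) := by
      have e : (1 - 1 / (2 * Y)) * (1 + 1 / Y) = 1 + 1 / (2 * Y) * (1 - 1 / Y) := by
        field_simp; ring
      rw [e]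
      have : 0 ≤ 1 / (2 * Y) * (1 - 1 / Y) := mul_nonneg (by positivity) (by linarith)
      linarith
    have h6 : 0 < 1 + 1 / Y := by linarith
    exact le_of_mul_le_mul_right (h4.trans h5) h6
  have hq0 : 0 ≤ q := (Real.exp_pos _).le
  have hlt : q < 1 := by
    have : 0 < 1 / (2 * Y) := by positivity
    linarith
  have h7 : (∑ j ∈ range J, q ^ j) * (1 - q) = 1 - q ^ J := geom_sum_mul_neg q J
  have h8 : 0 ≤ q ^ J := by positivity
  have h9 : 1 / (2 * Y) ≤ 1 - q := by linarith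
  have h10 : 0 ≤ ∑ j ∈ range J, q ^ j := sum_nonneg fun j _ => by positivity
  have h11 : (∑ j ∈ range J, q ^ j) * (1 / (2 * Y)) ≤ 1 := by nlinarith
  have h12 : (∑ j ∈ range J, q ^ j) * (1 / (2 * Y)) * (2 * Y) ≤ 1 * (2 * Y) :=
    mul_le_mul_of_nonneg_right h11 (by positivity)
  have h13 : (∑ j ∈ range J, q ^ j) * (1 / (2 * Y)) * (2 * Y) = ∑ j ∈ range J, q ^ j := by
    field_simp
  linarith

lemma geo_exp1 (Y : ℝ) (hY : 1 ≤ Y) (J : ℕ) : ∑ j ∈ range J, (j : ℝ) * Real.exp (-((j : ℝ) / Y)) ≤ 8 * Y ^ 2 := by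
  have hY0 : 0 < Y := by linarith
  have h1 : ∀ j ∈ range J, (j : ℝ) * Real.exp (-((j : ℝ) / Y)) ≤ 2 * Y * Real.exp (-((j : ℝ) / (2 * Y))) := by
    intro j _
    have h2 : (j : ℝ) / (2 * Y) ≤ Real.exp ((j : ℝ) / (2 * Y)) := by linarith [Real.add_one_le_exp ((j : ℝ) / (2 * Y))]
    have h3 : Real.exp (-((j : ℝ) / (2 * Y))) = Real.exp ((j : ℝ) / (2 * Y)) * Real.exp (-((j : ℝ) / Y)) := by
      rw [← Real.exp_add]; congr 1; field_simp; ring
    rw [h3]
    have h4 := Real.exp_pos (-((j : ℝ) / Y))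
    have h5 : (j : ℝ) ≤ 2 * Y * Real.exp ((j : ℝ) / (2 * Y)) := by
      rw [div_le_iff₀ (by positivity)] at h2
      linarith
    nlinarith
  refine (sum_le_sum h1).trans ?_
  rw [← mul_sum]
  have h6 := geo_exp (2 * Y) (by linarith) J
  nlinarith

lemma three_tents (x : ℝ) (hx : |x| ≤ 1) : 1 ≤ tw (x - 1) + tw x + tw (x + 1) := by
  have h0 := tw_nonneg (x - 1)
  have h1 := tw_nonneg (x + 1)
  rw [abs_le] at hx
  rcases le_total 0 x with h | h
  · have e1 : tw x = 1 - x := by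
      unfold Pool.Agent.H376R2.MR.w
      rw [abs_of_nonneg h, max_eq_right (by linarith)]
    have e2 : tw (x - 1) = x := by
      unfold Pool.Agent.H376R2.MR.w
      rw [abs_of_nonpos (by linarith), max_eq_right (by linarith)]
      ring
    rw [e1, e2]; linarith
  · have e1 : tw x = 1 + x := by
      unfold Pool.Agent.H376R2.MR.w
      rw [abs_of_nonpos h, max_eq_right (by linarith)]
      ring
    have e2 : tw (x + 1) = -x := by
      unfold Pool.Agent.H376R2.MR.w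
      rw [abs_of_nonneg (by linarith), max_eq_right (by linarith)]
      ring
    rw [e1, e2]; linarith

lemma sum_le_SR {g : ℝ → ℝ} (hg : Wd g) (z : ℕ) (v : ℝ) (S : Finset ℕ) (hS : ∀ n ∈ S, 1 ≤ n ∧ Rgh z n) :
    ∑ n ∈ S, g (Real.log n - v) / n ≤ ‖SR z g v 0‖ := by
  classical
  have h1 : (SR z g v 0).re = ∑ n ∈ (Icc 1 ⌊Real.exp (v + 1)⌋₊).filter (fun n => Rgh z n),
      g (Real.log n - v) / n := by
    unfold SR
    rw [Complex.re_sum]
    apply sum_congr rfl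
    intro n _
    rw [er_zero, mul_one, Complex.ofReal_re]
  refine le_trans ?_ ((le_abs_self _).trans (Complex.abs_re_le_norm _))
  rw [h1]
  have h2 : ∑ n ∈ S, g (Real.log n - v) / n = ∑ n ∈ S.filter (fun n : ℕ => n ≤ ⌊Real.exp (v + 1)⌋₊),
      g (Real.log n - v) / n := by
    symm
    apply sum_subset (filter_subset _ _)
    intro n hn hn2
    rw [mem_filter, not_and, not_le] at hn2
    have h3 := hn2 hn
    have hn0 : (0 : ℝ) < n := by exact_mod_cast (hS n hn).1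
    have h4 : Real.exp (v + 1) < n := (Nat.floor_lt (Real.exp_pos _).le).1 h3
    have h5 : v + 1 < Real.log n := by rwa [Real.lt_log_iff_exp_lt hn0]
    rw [hg.supp _ (by rw [abs_of_nonneg (by linarith)]; linarith), zero_div]
  rw [h2]
  apply sum_le_sum_of_subset_of_nonneg
  · intro n hn
    rw [mem_filter] at hn
    rw [mem_filter, mem_Icc]
    exact ⟨⟨(hS n hn.1).1, hn.2⟩, (hS n hn.1).2⟩
  · intro n _ _
    exact div_nonneg (hg.nonneg _) (Nat.cast_nonneg _)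

/-- rough numbers in unit windows -/
lemma rough_unit : ∃ (z₁ : ℕ) (C : ℝ), 2 ≤ z₁ ∧ 1 ≤ C ∧ ∀ z : ℕ, z₁ ≤ z → ∀ v : ℝ, Real.log z ≤ v →
    ∀ S : Finset ℕ, (∀ n ∈ S, 1 ≤ n ∧ |Real.log n - v| ≤ 1 ∧ Rgh z n) → ∑ n ∈ S, 1 / (n : ℝ) ≤ C / Real.log z := by
  classical
  obtain ⟨C0, K0, hC0, hK0, hR⟩ := rough_win
  obtain ⟨η, C, hη, hη1, hC, hW⟩ := hR 0
  obtain ⟨c1, c2, hc1, hc12, hcz⟩ := cz_bounds
  have hc2 : 0 < c2 := hc1.trans_le hc12
  have hC0r : (1 : ℝ) ≤ C0 := by exact_mod_cast hC0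
  have hK0r : (1 : ℝ) ≤ K0 := by exact_mod_cast hK0
  -- the decay
  have hdec : ∃ L0 : ℝ, ∀ L : ℝ, L0 ≤ L → K0 * C0 * (C * Real.exp (-(η * (L - 1)))) * L ^ 2 ≤ 1 / L := by
    have h1 := Real.tendsto_pow_mul_exp_neg_atTop_nhds_zero 3
    have h2 : Filter.Tendsto (fun L : ℝ => η * L) Filter.atTop Filter.atTop :=
      Filter.tendsto_id.const_mul_atTop hη
    have h3 := h1.comp h2
    have hε : 0 < η ^ 3 / (K0 * C0 * C * Real.exp η) := by positivity
    obtain ⟨L0, hL0⟩ := Filter.eventually_atTop.1 (h3.eventually (gt_mem_nhds hε))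
    refine ⟨max L0 1, fun L hL => ?_⟩
    have h4 := hL0 L ((le_max_left _ _).trans hL)
    have hL1 : 0 < L := by linarith [(le_max_right L0 1).trans hL]
    simp only [Function.comp] at h4
    rw [lt_div_iff₀ (by positivity)] at h4
    rw [le_div_iff₀ hL1]
    have e1 : Real.exp (-(η * (L - 1))) = Real.exp (-(η * L)) * Real.exp η := by
      rw [← Real.exp_add]; congr 1; ring
    rw [e1]
    have hη3 : 0 < η ^ 3 := by positivity
    have h5 : (K0 * C0 * (C * (Real.exp (-(η * L)) * Real.exp η)) * L ^ 2 * L) * η ^ 3 ≤ 1 * η ^ 3 := by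
      rw [one_mul]
      refine le_trans (le_of_eq ?_) h4.le
      ring
    exact le_of_mul_le_mul_right h5 hη3
  obtain ⟨L0, hL0⟩ : ∃ L0 : ℝ, 0 ≤ L0 ∧ ∀ L : ℝ, L0 ≤ L →
      K0 * C0 * (C * Real.exp (-(η * (L - 1)))) * L ^ 2 ≤ 1 / L := by
    obtain ⟨L0, hL0⟩ := hdec
    exact ⟨max L0 0, le_max_right _ _, fun L hL => hL0 L ((le_max_left _ _).trans hL)⟩
  obtain ⟨hL00, hL0⟩ := hL0
  obtain ⟨z₁, hz₁⟩ := exists_nat_ge (Real.exp (L0 + 9 + 4 * Real.log K0 + 16 * C0 ^ 2))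
  refine ⟨max z₁ 2, 3 * (64 * C0 ^ 2 * c2 + 1) + 1, le_max_right _ _, ?_, ?_⟩
  · have : 0 ≤ 3 * (64 * (C0 : ℝ) ^ 2 * c2 + 1) := by positivity
    linarith
  intro z hz v hv S hS
  have hzz : (z₁ : ℝ) ≤ z := by exact_mod_cast (le_max_left _ _).trans hz
  have hz0 : (0 : ℝ) < z := lt_of_lt_of_le (Real.exp_pos _) (hz₁.trans hzz)
  set L := Real.log z with hL
  have hLL : L0 + 9 + 4 * Real.log K0 + 16 * C0 ^ 2 ≤ L := by
    rw [hL, Real.le_log_iff_exp_le hz0]; exact hz₁.trans hzz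
  have hlK : 0 ≤ Real.log K0 := Real.log_nonneg hK0r
  have hCC : (0 : ℝ) < 8 * C0 ^ 2 := by positivity
  have hCC1 : (1 : ℝ) ≤ (C0 : ℝ) ^ 2 := one_le_pow₀ hC0r
  obtain ⟨x, hx⟩ : ∃ x : ℝ, x = L / (8 * C0 ^ 2) := ⟨_, rfl⟩
  have hxL : 8 * C0 ^ 2 * x = L := by rw [hx]; field_simp
  have hx2 : 2 ≤ x := by
    rw [hx, le_div_iff₀ hCC]; nlinarith
  have hex : (4 : ℝ) ≤ Real.exp x := by
    have h1 : Real.exp 2 ≤ Real.exp x := Real.exp_le_exp.2 hx2
    have h2 : (4 : ℝ) ≤ Real.exp 2 := by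
      have h1 : Real.exp 2 = Real.exp 1 ^ 2 := by rw [← Real.exp_nat_mul]; norm_num
      have := Real.exp_one_gt_d9
      rw [h1]; nlinarith
    linarith
  obtain ⟨y, hy⟩ : ∃ y : ℕ, y = ⌊Real.exp x⌋₊ := ⟨_, rfl⟩
  have hy1 : (y : ℝ) ≤ Real.exp x := by rw [hy]; exact Nat.floor_le (Real.exp_pos _).le
  have hy2 : Real.exp x < y + 1 := by rw [hy]; exact Nat.lt_floor_add_one _
  have hy3 : (3 : ℝ) < y := by linarith
  have hy4 : 2 ≤ y := by
    have : 3 < y := by exact_mod_cast hy3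
    omega
  have hy0 : (0 : ℝ) < y := by linarith
  have hly : x / 2 ≤ Real.log y := by
    have h1 : Real.exp x / 2 ≤ y := by linarith
    have h2 : Real.log (Real.exp x / 2) ≤ Real.log y := Real.log_le_log (by positivity) h1
    rw [Real.log_div (Real.exp_pos _).ne' (by norm_num), Real.log_exp] at h2
    linarith [Real.log_two_lt_d9]
  have hly2 : Real.log y ≤ L := by
    have h1 : Real.log y ≤ x := by rw [Real.log_le_iff_le_exp hy0]; exact hy1
    nlinarith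
  have hyz : y ≤ z := by
    have h1 : (y : ℝ) ≤ z := by
      rw [← Real.log_le_log_iff hy0 hz0]; exact hly2
    exact_mod_cast h1
  have hL9 : 9 ≤ L := by nlinarith
  have hV : VV y ≤ 16 * C0 ^ 2 * c2 / L := by
    have h1 := (hcz y hy4).2
    have h2 : L ≤ 16 * C0 ^ 2 * Real.log y := by nlinarith
    have h3 := V_pos y
    rw [le_div_iff₀ (by linarith)]
    calc VV y * L ≤ VV y * (16 * C0 ^ 2 * Real.log y) := by gcongr
      _ = 16 * C0 ^ 2 * (VV y * Real.log y) := by ring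
      _ ≤ 16 * C0 ^ 2 * c2 := by gcongr
  have hpow : ∀ v' : ℝ, L - 1 ≤ v' → ((K0 * y ^ (2 * (C0 * C0)) : ℕ) : ℝ) ≤ Real.exp (v' / 2) := by
    intro v' hv'
    push_cast
    have h1 : (y : ℝ) ^ (2 * (C0 * C0)) ≤ Real.exp (L / 4) := by
      calc (y : ℝ) ^ (2 * (C0 * C0)) ≤ Real.exp x ^ (2 * (C0 * C0)) := by gcongr
        _ = Real.exp (L / 4) := by
          rw [← Real.exp_nat_mul]; congr 1; push_cast; rw [← hxL]; ring
    have h2 : (K0 : ℝ) = Real.exp (Real.log K0) := (Real.exp_log (by linarith)).symm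
    calc (K0 : ℝ) * (y : ℝ) ^ (2 * (C0 * C0)) ≤ Real.exp (Real.log K0) * Real.exp (L / 4) := by
          rw [← h2]; gcongr
      _ = Real.exp (Real.log K0 + L / 4) := by rw [Real.exp_add]
      _ ≤ Real.exp (v' / 2) := Real.exp_le_exp.2 (by nlinarith)
  have hone : ∀ v' : ℝ, L - 1 ≤ v' → ∑ n ∈ S, tw (Real.log n - v') / n ≤ (64 * C0 ^ 2 * c2 + 1) / L := by
    intro v' hv'
    have h1 := sum_le_SR tw_wd y v' S (fun n hn => ⟨(hS n hn).1, fun p hp hpy => (hS n hn).2.2 p hp (hpy.trans hyz)⟩)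
    have h2 := hW C0 le_rfl y hy4 v' (by linarith) (hpow v' hv') 0 (by
      rw [abs_zero]; exact (Real.exp_pos _).le) tw tw_wd
    have h3 : ‖SR y tw v' 0‖ ≤ ‖SR y tw v' 0 - (VV y : ℂ) * II tw v' 0‖ + ‖(VV y : ℂ) * II tw v' 0‖ := by
      have := norm_add_le (SR y tw v' 0 - (VV y : ℂ) * II tw v' 0) ((VV y : ℂ) * II tw v' 0)
      rwa [sub_add_cancel] at this
    have h4 : ‖(VV y : ℂ) * II tw v' 0‖ ≤ VV y * 2 := by
      rw [norm_mul, Complex.norm_real, Real.norm_eq_abs, abs_of_pos (V_pos y)]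
      exact mul_le_mul_of_nonneg_left (II_le tw_wd v' 0) (V_pos y).le
    have h5 : 2 * (1 / 2 : ℝ) ^ C0 * VV y ≤ 2 * VV y := by
      have h6 : (1 / 2 : ℝ) ^ C0 ≤ 1 := pow_le_one₀ (by norm_num) (by norm_num)
      have h7 := V_pos y
      nlinarith
    have h6 : K0 * C0 * (C * Real.exp (-(η * v'))) * Real.log y ^ 2 ≤ 1 / L := by
      refine le_trans ?_ (hL0 L (by nlinarith))
      have h7 : Real.exp (-(η * v')) ≤ Real.exp (-(η * (L - 1))) := Real.exp_le_exp.2 (by nlinarith)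
      have h8 : 0 ≤ Real.log y := by linarith
      gcongr
    have h7 : (64 * C0 ^ 2 * c2 + 1) / L = 4 * (16 * C0 ^ 2 * c2 / L) + 1 / L := by ring
    rw [h7]
    linarith
  have h1 : ∀ n ∈ S, 1 / (n : ℝ) ≤ tw (Real.log n - (v + 1)) / n + tw (Real.log n - v) / n +
      tw (Real.log n - (v - 1)) / n := by
    intro n hn
    obtain ⟨hn1, hn2, _⟩ := hS n hn
    have hn0 : (0 : ℝ) < n := by exact_mod_cast hn1
    rw [← add_div, ← add_div]
    gcongr
    have := three_tents _ hn2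
    rw [show Real.log n - (v + 1) = Real.log n - v - 1 by ring,
      show Real.log n - (v - 1) = Real.log n - v + 1 by ring]
    exact this
  refine (sum_le_sum h1).trans ?_
  rw [sum_add_distrib, sum_add_distrib]
  have g1 := hone (v + 1) (by linarith)
  have g2 := hone v (by linarith)
  have g3 := hone (v - 1) (by linarith)
  have hLp : 0 < L := by linarith
  have g4 : (3 * (64 * (C0 : ℝ) ^ 2 * c2 + 1) + 1) / L = 3 * ((64 * C0 ^ 2 * c2 + 1) / L) + 1 / L := by ring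
  have g5 : 0 < 1 / L := by positivity
  rw [g4]
  linarith

end Pool.Agent.Y851.HZ
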