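import Pool.Agent.Y851.HZ.AF

/-! Windows of Selberg's function on rough numbers. -/

set_option autoImplicit false

namespace Pool.Agent.Y851.HZ
open Finset
open Pool.Agent.H376R2.MR (er kern_er_cont kern_er_norm kern_er_add)
open Pool.Agent.H376R2.MR renaming w → tw
open Pool.Agent.H318R2.Cr (Rgh Pz mem_Pz one_sub_inv_pos V_pos V_le_one cz_bounds)
open Pool.Agent.H318R2.Cr renaming V → VV
open ArithmeticFunction (vonMangoldt)

lemma th_norm (Y τ : ℝ) (n : ℕ) : ‖th Y τ n‖ = Real.exp (-(Real.log n / Y)) / n := by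
  unfold th
  rw [norm_mul, kern_er_norm, mul_one, Complex.norm_real, Real.norm_eq_abs, abs_of_nonneg]
  positivity

lemma th_norm_le (Y τ : ℝ) (hY : 0 < Y) (n : ℕ) : ‖th Y τ n‖ ≤ 1 / n := by
  rw [th_norm]
  have h : Real.exp (-(Real.log n / Y)) ≤ 1 := Real.exp_le_one_iff.2 (by
    rw [neg_nonpos]
    exact div_nonneg (Real.log_natCast_nonneg n) hY.le)
  gcongr

lemma WF_norm (N : ℕ) (Y τ V : ℝ) (hY : 0 < Y) (f : ArithmeticFunction ℝ) :
    ‖WF N Y τ V f‖ ≤ ∑ n ∈ Icc 1 N, |f n| * (1 / n * tw (Real.log n - V)) := by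
  unfold WF
  refine (norm_sum_le _ _).trans (sum_le_sum fun n _ => ?_)
  rw [norm_mul, norm_mul, Complex.norm_real, Complex.norm_real, Real.norm_eq_abs, Real.norm_eq_abs,
    abs_of_nonneg (tw_nonneg _)]
  have := th_norm_le Y τ hY n
  have h2 := tw_nonneg (Real.log n - V)
  gcongr

/-- the von Mangoldt function with the tent -/
lemma lam_tent (S : Finset ℕ) (hS : ∀ n ∈ S, 1 ≤ n) (V : ℝ) :
    ∑ n ∈ S, vonMangoldt n * (1 / n * tw (Real.log n - V)) ≤ 48 := by
  have h1 : ∑ n ∈ S, vonMangoldt n * (1 / n * tw (Real.log n - V)) ≤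
      ∑ n ∈ S.filter (fun n : ℕ => |Real.log n - V| ≤ 1), vonMangoldt n / n := by
    rw [sum_filter]
    apply sum_le_sum
    intro n _
    have h0 : 0 ≤ vonMangoldt n := ArithmeticFunction.vonMangoldt_nonneg
    split_ifs with h
    · have h2 := tw_le (Real.log n - V)
      have h3 := tw_nonneg (Real.log n - V)
      calc vonMangoldt n * (1 / n * tw (Real.log n - V)) ≤ vonMangoldt n * (1 / n * 1) := by gcongr
        _ = vonMangoldt n / n := by ring
    · rw [tw_supp _ (le_of_not_ge h)]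
      simp
  refine h1.trans (lam_win V _ ?_)
  intro n hn
  rw [mem_filter] at hn
  exact ⟨hS n hn.1, hn.2⟩

lemma lam_upto (S : Finset ℕ) (x : ℝ) (hx : 0 ≤ x) (hS : ∀ n ∈ S, 1 ≤ n ∧ Real.log n ≤ x) :
    ∑ n ∈ S, vonMangoldt n / n ≤ 48 * (x + 1) := by
  have h := win_cover S (range (⌊x⌋₊ + 1)) (fun n => vonMangoldt n / n)
    (fun n _ => div_nonneg ArithmeticFunction.vonMangoldt_nonneg (Nat.cast_nonneg _))
    (fun n hn => (hS n hn).1) (fun n hn => by
      rw [mem_range, Nat.lt_succ_iff]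
      exact Nat.floor_le_floor (hS n hn).2) (fun _ => 1) (fun n => vonMangoldt n / n)
    (fun _ _ => zero_le_one) (fun _ _ _ _ _ _ => by rw [one_mul]) 48 (fun j _ => by
      apply lam_win j
      intro n hn
      have hnn := mem_filter.1 hn
      refine ⟨(hS n hnn.1).1, ?_⟩
      rw [abs_le]
      constructor <;> linarith [hnn.2.1, hnn.2.2])
  rw [sum_const, card_range, nsmul_eq_mul, mul_one] at h
  push_cast at h
  linarith [Nat.floor_le hx]

/-- trivial bound for the windows of `Λ` -/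
lemma WF_LR (z N : ℕ) (Y τ V : ℝ) (hY : 0 < Y) : ‖WF N Y τ V (LR z)‖ ≤ 48 := by
  refine (WF_norm N Y τ V hY _).trans (le_trans (sum_le_sum fun n hn => ?_) (lam_tent (Icc 1 N) (fun n hn => (mem_Icc.1 hn).1) V))
  rw [abs_of_nonneg (LR_nonneg z n)]
  have h2 := tw_nonneg (Real.log n - V)
  have := LR_le z n
  gcongr

lemma WF_zero (N : ℕ) (Y τ V : ℝ) (hV : V ≤ -1) (f : ArithmeticFunction ℝ) : WF N Y τ V f = 0 := by
  unfold WF
  apply sum_eq_zero
  intro n _
  have hl := Real.log_natCast_nonneg n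
  rw [tw_supp _ (by rw [abs_of_nonneg (by linarith)]; linarith)]
  simp

/-- trivial bound for the windows of Selberg's function -/
lemma WF_ER (z N : ℕ) (Y τ V : ℝ) (hY : 0 < Y) (hN : Real.exp (V + 1) ≤ N) (hV : -1 ≤ V) :
    ‖WF N Y τ V (ER z)‖ ≤ 2400 * (V + 2) := by
  rw [ER, WF_add]
  refine (norm_add_le _ _).trans ?_
  have h1 : ‖WF N Y τ V (DD (LR z))‖ ≤ 48 * (V + 1) := by
    refine (WF_norm N Y τ V hY _).trans ?_
    calc ∑ n ∈ Icc 1 N, |DD (LR z) n| * (1 / n * tw (Real.log n - V))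
        ≤ ∑ n ∈ Icc 1 N, (V + 1) * (vonMangoldt n * (1 / n * tw (Real.log n - V))) := by
          apply sum_le_sum
          intro n _
          have hl := Real.log_natCast_nonneg n
          rw [DD_apply, abs_of_nonneg (mul_nonneg (LR_nonneg z n) hl)]
          rcases le_or_gt (Real.log n) (V + 1) with h | h
          · have h2 := tw_nonneg (Real.log n - V)
            have h3 := LR_le z n
            have h4 := LR_nonneg z n
            calc LR z n * Real.log n * (1 / n * tw (Real.log n - V))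
                ≤ vonMangoldt n * (V + 1) * (1 / n * tw (Real.log n - V)) := by gcongr
              _ = _ := by ring
          · rw [tw_supp _ (by rw [abs_of_nonneg (by linarith)]; linarith)]
            simp
      _ = (V + 1) * ∑ n ∈ Icc 1 N, (vonMangoldt n * (1 / n * tw (Real.log n - V))) := by rw [mul_sum]
      _ ≤ (V + 1) * 48 := by
          apply mul_le_mul_of_nonneg_left (lam_tent (Icc 1 N) (fun n hn => (mem_Icc.1 hn).1) V) (by linarith)
      _ = 48 * (V + 1) := by ring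
  have h2 : ‖WF N Y τ V (LR z * LR z)‖ ≤ 48 * (48 * (V + 1 + 1)) := by
    rw [WF_mul N Y τ V hN]
    refine (norm_sum_le _ _).trans ?_
    calc ∑ d ∈ Icc 1 N, ‖(LR z d : ℂ) * (th Y τ d * WF N Y τ (V - Real.log d) (LR z))‖
        ≤ ∑ d ∈ (Icc 1 N).filter (fun d : ℕ => Real.log d ≤ V + 1), 48 * (vonMangoldt d / d) := by
          rw [sum_filter]
          apply sum_le_sum
          intro d _
          split_ifs with h
          · rw [norm_mul, norm_mul, Complex.norm_real, Real.norm_eq_abs, abs_of_nonneg (LR_nonneg z d)]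
            have e1 := LR_le z d
            have e2 := th_norm_le Y τ hY d
            have e3 := WF_LR z N Y τ (V - Real.log d) hY
            have e4 := LR_nonneg z d
            calc LR z d * (‖th Y τ d‖ * ‖WF N Y τ (V - Real.log d) (LR z)‖) ≤ vonMangoldt d * (1 / d * 48) := by gcongr
              _ = _ := by ring
          · rw [WF_zero N Y τ (V - Real.log d) (by linarith [not_le.1 h])]
            simp
      _ = 48 * ∑ d ∈ (Icc 1 N).filter (fun d : ℕ => Real.log d ≤ V + 1), vonMangoldt d / d := by rw [mul_sum]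
      _ ≤ 48 * (48 * (V + 1 + 1)) := by
          apply mul_le_mul_of_nonneg_left _ (by norm_num)
          apply lam_upto _ (V + 1) (by linarith)
          intro n hn
          rw [mem_filter, mem_Icc] at hn
          exact ⟨hn.1.1, hn.2⟩
  linarith

lemma zR_apply (z n : ℕ) (hn : 1 ≤ n) [Decidable (Rgh z n)] : zR z n = if Rgh z n then 1 else 0 := by
  unfold zR
  rw [res_apply]
  have : (((ArithmeticFunction.zeta : ArithmeticFunction ℕ) : ArithmeticFunction ℝ)) n = 1 := by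
    rw [ArithmeticFunction.natCoe_apply, ArithmeticFunction.zeta_apply_ne (by omega)]
    simp
  rw [this]

lemma muR_le (z n : ℕ) [Decidable (Rgh z n)] : |muR z n| ≤ if Rgh z n then 1 else 0 := by
  unfold muR
  rw [res_apply]
  split_ifs
  · rw [ArithmeticFunction.intCoe_apply]
    have := ArithmeticFunction.abs_moebius_le_one (n := n)
    exact_mod_cast this
  · simp

/-- windows of `log²` over rough numbers -/
lemma WF_sq (z N : ℕ) (Y τ V : ℝ) (hY : 1 ≤ Y) (hV : 1 ≤ V) (hN : Real.exp (V + 1) ≤ N) :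
    ∃ g : ℝ → ℝ, Wd g ∧ WF N Y τ V (DD (DD (zR z))) =
      ((4 * (2 * V) ^ 2 * Real.exp (-((V - 1) / Y)) : ℝ) : ℂ) * SR z g V τ := by
  classical
  obtain ⟨g, hg, hgn⟩ := win_i 2 le_rfl V Y hV hY
  refine ⟨g, hg, ?_⟩
  unfold WF SR
  rw [mul_sum, sum_filter]
  have hsub : Icc 1 ⌊Real.exp (V + 1)⌋₊ ⊆ Icc 1 N := by
    apply Icc_subset_Icc le_rfl
    exact Nat.floor_le_of_le hN
  rw [← sum_subset hsub]
  · apply sum_congr rfl
    intro n hn
    have hn1 := (mem_Icc.1 hn).1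
    rw [DD_apply, DD_apply, zR_apply z n hn1]
    by_cases hr : Rgh z n
    · rw [if_pos hr, if_pos hr]
      have e2 : ((4 * (2 * V) ^ 2 * Real.exp (-((V - 1) / Y)) : ℝ) : ℂ) *
          (((g (Real.log n - V) / n : ℝ) : ℂ) * er τ (Real.log n)) =
          (((4 * (2 * V) ^ 2 * Real.exp (-((V - 1) / Y))) * (g (Real.log n - V) / n) : ℝ) : ℂ) * er τ (Real.log n) := by
        push_cast; ring
      rw [e2, ← hgn n]
      unfold th
      push_cast
      ring
    · rw [if_neg hr, if_neg hr]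
      simp
  · intro n hn hn2
    rw [mem_Icc] at hn hn2
    have h3 : ⌊Real.exp (V + 1)⌋₊ < n := by omega
    have hn0 : (0 : ℝ) < n := by exact_mod_cast hn.1
    have h4 : Real.exp (V + 1) < n := (Nat.floor_lt (Real.exp_pos _).le).1 h3
    have h5 : V + 1 < Real.log n := by rwa [Real.lt_log_iff_exp_lt hn0]
    rw [tw_supp _ (by rw [abs_of_nonneg (by linarith)]; linarith)]
    simp

/-- windows of Selberg's function on rough numbers, twisted -/
theorem ER_win : ∃ (C0 : ℕ) (C : ℝ), 1 ≤ C0 ∧ 1 ≤ C ∧ ∀ M b u : ℕ, C0 ≤ b → 1 ≤ u → ∃ L₁ : ℝ, 1 ≤ L₁ ∧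
    ∀ z : ℕ, 2 ≤ z → L₁ ≤ Real.log z → ∀ Y : ℝ, u * Real.log z ≤ Y → Y ≤ 2 * u * Real.log z → ∀ τ : ℝ, 4 ≤ |τ| →
    |τ| ≤ Real.exp (M * Y) → ∀ V : ℝ, (8 * C0 * b + 1) * Real.log z + 1 ≤ V → V ≤ Y → ∀ N : ℕ, Real.exp (Y + 1) ≤ N →
    ‖WF N Y τ V (ER z)‖ ≤ C * (u ^ 2 * (8 / |τ| + 3 * (1 / 2 : ℝ) ^ b) + b ^ 3 / u) * Y := by
  classical
  obtain ⟨C0, hC0, hmain⟩ := main_win
  obtain ⟨z₁, Cr, hz₁, hCr, htot⟩ := rough_total
  obtain ⟨z₂, Cu, hz₂, hCu, hunit⟩ := rough_unit
  obtain ⟨c1, c2, hc1, hc12, hcz⟩ := cz_bounds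
  have hc2 : 0 < c2 := hc1.trans_le hc12
  have hC0r : (1 : ℝ) ≤ C0 := by exact_mod_cast hC0
  obtain ⟨K, hK⟩ : ∃ K : ℝ, K = 352 * c2 * (4 * Cr) + 16 * 4096 * C0 ^ 3 * Cr * Cu := ⟨_, rfl⟩
  have hK1 : 1 ≤ K := by
    have h1 : (1 : ℝ) ≤ C0 ^ 3 := one_le_pow₀ hC0r
    have h2 : (1 : ℝ) ≤ C0 ^ 3 * Cr := by nlinarith
    have h3 : (1 : ℝ) ≤ C0 ^ 3 * Cr * Cu := by nlinarith
    have h4 : 0 ≤ 352 * c2 * (4 * Cr) := by positivity
    rw [hK]
    nlinarith
  refine ⟨C0, K, hC0, hK1, fun M b u hb hu => ?_⟩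
  obtain ⟨L₁, hL₁⟩ := hmain M b u hb hu
  have hbr : (1 : ℝ) ≤ b := by exact_mod_cast hC0.trans hb
  have hur : (1 : ℝ) ≤ u := by exact_mod_cast hu
  refine ⟨max (max L₁ 1) (max (Real.log z₁) (Real.log z₂)), (le_max_right L₁ 1).trans (le_max_left _ _), fun z hz hzL Y hY1 hY2 τ hτ1 hτ2 V hV1 hV2 N hN => ?_⟩
  obtain ⟨L, hL⟩ : ∃ L : ℝ, L = Real.log z := ⟨_, rfl⟩
  rw [← hL] at hzL hY1 hY2 hV1
  have hLL1 : L₁ ≤ L := ((le_max_left _ _).trans (le_max_left _ _)).trans hzL
  have hL1 : 1 ≤ L := ((le_max_right _ _).trans (le_max_left _ _)).trans hzL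
  have hz0 : (0 : ℝ) < z := by exact_mod_cast (show 0 < z by omega)
  have hzz1 : z₁ ≤ z := by
    have h1 : Real.log z₁ ≤ Real.log z := by rw [← hL]; exact ((le_max_left _ _).trans (le_max_right _ _)).trans hzL
    have h2 : (z₁ : ℝ) ≤ z := (Real.log_le_log_iff (by exact_mod_cast (show 0 < z₁ by omega)) hz0).1 h1
    exact_mod_cast h2
  have hzz2 : z₂ ≤ z := by
    have h1 : Real.log z₂ ≤ Real.log z := by rw [← hL]; exact ((le_max_right _ _).trans (le_max_right _ _)).trans hzL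
    have h2 : (z₂ : ℝ) ≤ z := (Real.log_le_log_iff (by exact_mod_cast (show 0 < z₂ by omega)) hz0).1 h1
    exact_mod_cast h2
  have hYL : L ≤ Y := by nlinarith
  have hYone : 1 ≤ Y := hL1.trans hYL
  have hY0 : 0 < Y := by linarith
  have hL0 : 0 < L := by linarith
  have hcb : 1 ≤ (C0 : ℝ) * b := by nlinarith
  obtain ⟨s, hs⟩ : ∃ s : ℝ, s = 8 * C0 * b := ⟨_, rfl⟩
  rw [← hs] at hV1
  have hs8 : 8 ≤ s := by rw [hs]; nlinarith
  have hsL : 8 ≤ s * L := by nlinarith
  have hVexp : Real.exp (V + 1) ≤ N := (Real.exp_le_exp.2 (by linarith)).trans hN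
  have hVV := V_pos z
  have hVL : VV z ≤ c2 / L := by
    rw [le_div_iff₀ hL0, hL]; exact (hcz z hz).2
  obtain ⟨ρ, hρ⟩ : ∃ ρ : ℝ, ρ = 8 / |τ| + 3 * (1 / 2 : ℝ) ^ b := ⟨_, rfl⟩
  have hρ0 : 0 ≤ ρ := by rw [hρ]; positivity
  rw [← hρ, ER_eq, WF_mul N Y τ V hVexp]
  refine (norm_sum_le _ _).trans ?_
  rw [← sum_filter_add_sum_filter_not (Icc 1 N) (fun d : ℕ => Real.log d ≤ V - s * L)]
  -- part (a)
  have hA : ∑ d ∈ (Icc 1 N).filter (fun d : ℕ => Real.log d ≤ V - s * L),
      ‖(muR z d : ℂ) * (th Y τ d * WF N Y τ (V - Real.log d) (DD (DD (zR z))))‖ ≤ 352 * c2 * (4 * Cr) * (u ^ 2 * ρ) * Y := by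
    have hone : ∀ d ∈ (Icc 1 N).filter (fun d : ℕ => Real.log d ≤ V - s * L),
        ‖(muR z d : ℂ) * (th Y τ d * WF N Y τ (V - Real.log d) (DD (DD (zR z))))‖ ≤
        44 * Y ^ 2 * (c2 / L * ρ) * (if Rgh z d then 1 / (d : ℝ) else 0) := by
      intro d hd
      rw [mem_filter, mem_Icc] at hd
      have hd0 : (0 : ℝ) < d := by exact_mod_cast hd.1.1
      have hld := Real.log_natCast_nonneg d
      obtain ⟨g, hg, hgW⟩ := WF_sq z N Y τ (V - Real.log d) hYone (by linarith) ((Real.exp_le_exp.2 (by linarith)).trans hVexp)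
      rw [hgW, norm_mul, norm_mul, norm_mul, Complex.norm_real, Complex.norm_real, Real.norm_eq_abs, Real.norm_eq_abs,
        abs_of_nonneg (by positivity : 0 ≤ 4 * (2 * (V - Real.log d)) ^ 2 * Real.exp (-((V - Real.log d - 1) / Y)))]
      have h1 := muR_le z d
      have h2 := th_norm_le Y τ hY0 d
      have h3 := hL₁ z hz (by rw [← hL]; exact hLL1) Y (by rw [← hL]; exact hY2) (V - Real.log d) (by rw [← hL, ← hs]; linarith [hd.2]) τ hτ1 hτ2 g hg
      rw [← hρ] at h3
      have h4 : ‖SR z g (V - Real.log d) τ‖ ≤ c2 / L * ρ := h3.trans (by gcongr)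
      have h5 : Real.exp (-((V - Real.log d - 1) / Y)) ≤ 2.72 := by
        have h6 : -((V - Real.log d - 1) / Y) ≤ 1 := by
          rw [neg_le, le_div_iff₀ hY0]
          nlinarith [hd.2]
        refine (Real.exp_le_exp.2 h6).trans ?_
        linarith [Real.exp_one_lt_d9]
      have h6 : (2 * (V - Real.log d)) ^ 2 ≤ 4 * Y ^ 2 := by
        have h7 : 0 ≤ V - Real.log d := by linarith [hd.2]
        have h8 : V - Real.log d ≤ Y := by linarith
        nlinarith
      have h7 : 4 * (2 * (V - Real.log d)) ^ 2 * Real.exp (-((V - Real.log d - 1) / Y)) ≤ 44 * Y ^ 2 := by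
        calc 4 * (2 * (V - Real.log d)) ^ 2 * Real.exp (-((V - Real.log d - 1) / Y)) ≤ 4 * (4 * Y ^ 2) * 2.72 := by gcongr
          _ ≤ 44 * Y ^ 2 := by nlinarith [sq_nonneg Y]
      have h8 : 0 ≤ 4 * (2 * (V - Real.log d)) ^ 2 * Real.exp (-((V - Real.log d - 1) / Y)) := by positivity
      by_cases hr : Rgh z d
      · rw [if_pos hr] at h1 ⊢
        calc |muR z d| * (‖th Y τ d‖ * (4 * (2 * (V - Real.log d)) ^ 2 * Real.exp (-((V - Real.log d - 1) / Y)) * ‖SR z g (V - Real.log d) τ‖))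
            ≤ 1 * (1 / d * (44 * Y ^ 2 * (c2 / L * ρ))) := by gcongr
          _ = _ := by ring
      · rw [if_neg hr] at h1 ⊢
        have h9 : |muR z d| = 0 := le_antisymm h1 (abs_nonneg _)
        rw [h9, zero_mul, mul_zero]
    refine (sum_le_sum hone).trans ?_
    rw [← mul_sum, ← sum_filter]
    have h1 := htot z hzz1 Y hY0.le (((Icc 1 N).filter (fun d : ℕ => Real.log d ≤ V - s * L)).filter (fun d => Rgh z d)) (by
      intro n hn
      rw [mem_filter, mem_filter, mem_Icc] at hn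
      exact ⟨hn.1.1.1, by linarith [hn.1.2], hn.2⟩)
    rw [← hL] at h1
    have h2 : 1 + Cr * (Y + 1) / L ≤ 4 * Cr * u := by
      have h3 : Cr * (Y + 1) / L ≤ Cr * (3 * u) := by
        rw [div_le_iff₀ hL0]
        have : Y + 1 ≤ 3 * u * L := by nlinarith
        nlinarith
      have h4 : 1 ≤ Cr * u := by nlinarith
      linarith
    have h3 : Y / L ≤ 2 * u := by rw [div_le_iff₀ hL0]; exact hY2
    calc 44 * Y ^ 2 * (c2 / L * ρ) * ∑ d ∈ ((Icc 1 N).filter (fun d : ℕ => Real.log d ≤ V - s * L)).filter (fun d => Rgh z d), 1 / (d : ℝ)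
        ≤ 44 * Y ^ 2 * (c2 / L * ρ) * (4 * Cr * u) := by
          apply mul_le_mul_of_nonneg_left (h1.trans h2) (by positivity)
      _ = 176 * c2 * Cr * u * ρ * Y * (Y / L) := by field_simp; ring
      _ ≤ 176 * c2 * Cr * u * ρ * Y * (2 * u) := by gcongr
      _ ≤ 352 * c2 * (4 * Cr) * (u ^ 2 * ρ) * Y := by
          have : 0 ≤ c2 * Cr * (u ^ 2 * ρ) * Y := by positivity
          nlinarith
  -- part (b)
  have hB : ∑ d ∈ (Icc 1 N).filter (fun d : ℕ => ¬ Real.log d ≤ V - s * L),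
      ‖(muR z d : ℂ) * (th Y τ d * WF N Y τ (V - Real.log d) (DD (DD (zR z))))‖ ≤ 16 * 4096 * C0 ^ 3 * Cr * Cu * (b ^ 3 / u) * Y := by
    have hone : ∀ d ∈ (Icc 1 N).filter (fun d : ℕ => ¬ Real.log d ≤ V - s * L),
        ‖(muR z d : ℂ) * (th Y τ d * WF N Y τ (V - Real.log d) (DD (DD (zR z))))‖ ≤
        ∑ m ∈ Icc 1 N, (if Rgh z m ∧ Real.log m ≤ s * L + 1 then Real.log m ^ 2 / m else 0) *
          (if Rgh z d ∧ |Real.log d - (V - Real.log m)| ≤ 1 then 1 / (d : ℝ) else 0) := by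
      intro d hd
      rw [mem_filter, mem_Icc, not_le] at hd
      have h1 := muR_le z d
      have h2 := th_norm_le Y τ hY0 d
      have h3 := WF_norm N Y τ (V - Real.log d) hY0 (DD (DD (zR z)))
      rw [norm_mul, norm_mul, Complex.norm_real, Real.norm_eq_abs]
      by_cases hr : Rgh z d
      · rw [if_pos hr] at h1
        have h4 : |muR z d| * (‖th Y τ d‖ * ‖WF N Y τ (V - Real.log d) (DD (DD (zR z)))‖) ≤
            1 * (1 / d * ∑ n ∈ Icc 1 N, |DD (DD (zR z)) n| * (1 / n * tw (Real.log n - (V - Real.log d)))) := by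
          gcongr
        refine h4.trans ?_
        rw [one_mul, mul_sum]
        apply sum_le_sum
        intro m hm
        have hm1 := (mem_Icc.1 hm).1
        have hlm := Real.log_natCast_nonneg m
        rw [DD_apply, DD_apply, zR_apply z m hm1]
        by_cases hrm : Rgh z m
        · rw [if_pos hrm, one_mul, abs_of_nonneg (mul_nonneg hlm hlm)]
          by_cases hw : |Real.log m - (V - Real.log d)| ≤ 1
          · have hw2 : |Real.log d - (V - Real.log m)| ≤ 1 := by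
              rw [show Real.log d - (V - Real.log m) = Real.log m - (V - Real.log d) by ring]; exact hw
            have hlm2 : Real.log m ≤ s * L + 1 := by linarith [(abs_le.1 hw).2, hd.2]
            rw [if_pos ⟨hrm, hlm2⟩, if_pos ⟨hr, hw2⟩]
            have h5 := tw_le (Real.log m - (V - Real.log d))
            have h6 := tw_nonneg (Real.log m - (V - Real.log d))
            calc 1 / (d : ℝ) * (Real.log m * Real.log m * (1 / m * tw (Real.log m - (V - Real.log d))))
                ≤ 1 / (d : ℝ) * (Real.log m * Real.log m * (1 / m * 1)) := by gcongr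
              _ = Real.log m ^ 2 / m * (1 / d) := by ring
          · rw [tw_supp _ (le_of_not_ge hw), mul_zero, mul_zero, mul_zero]
            split_ifs <;> positivity
        · rw [if_neg hrm]
          simp only [zero_mul, abs_zero, mul_zero]
          split_ifs <;> positivity
      · rw [if_neg hr] at h1
        have h9 : |muR z d| = 0 := le_antisymm h1 (abs_nonneg _)
        rw [h9, zero_mul]
        apply sum_nonneg
        intro m _
        split_ifs <;> positivity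
    refine (sum_le_sum hone).trans ?_
    rw [sum_comm]
    have hinner : ∀ m ∈ Icc 1 N, ∑ d ∈ (Icc 1 N).filter (fun d : ℕ => ¬ Real.log d ≤ V - s * L),
        (if Rgh z m ∧ Real.log m ≤ s * L + 1 then Real.log m ^ 2 / m else 0) *
          (if Rgh z d ∧ |Real.log d - (V - Real.log m)| ≤ 1 then 1 / (d : ℝ) else 0) ≤
        (if Rgh z m ∧ Real.log m ≤ s * L + 1 then (2 * s * L) ^ 2 * (1 / (m : ℝ)) * (Cu / L) else 0) := by
      intro m hm
      have hlm := Real.log_natCast_nonneg m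
      rw [← mul_sum]
      by_cases hc : Rgh z m ∧ Real.log m ≤ s * L + 1
      · rw [if_pos hc, if_pos hc, ← sum_filter]
        have h1 := hunit z hzz2 (V - Real.log m) (by rw [← hL]; linarith [hc.2]) (((Icc 1 N).filter (fun d : ℕ => ¬ Real.log d ≤ V - s * L)).filter
          (fun d : ℕ => Rgh z d ∧ |Real.log d - (V - Real.log m)| ≤ 1)) (by
          intro n hn
          rw [mem_filter, mem_filter, mem_Icc] at hn
          exact ⟨hn.1.1.1, hn.2.2, hn.2.1⟩)
        rw [← hL] at h1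
        have h2 : Real.log m ^ 2 / m ≤ (2 * s * L) ^ 2 * (1 / (m : ℝ)) := by
          rw [div_eq_mul_one_div]
          have : Real.log m ≤ 2 * s * L := by linarith [hc.2]
          gcongr
        have h3 : 0 ≤ Real.log m ^ 2 / m := by positivity
        exact mul_le_mul h2 h1 (sum_nonneg fun _ _ => by positivity) (by positivity)
      · rw [if_neg hc, if_neg hc, zero_mul]
    refine (sum_le_sum hinner).trans ?_
    rw [← sum_filter]
    have h1 : ∑ m ∈ (Icc 1 N).filter (fun m : ℕ => Rgh z m ∧ Real.log m ≤ s * L + 1), (2 * s * L) ^ 2 * (1 / (m : ℝ)) * (Cu / L) =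
        (2 * s * L) ^ 2 * (Cu / L) * ∑ m ∈ (Icc 1 N).filter (fun m : ℕ => Rgh z m ∧ Real.log m ≤ s * L + 1), 1 / (m : ℝ) := by
      rw [mul_sum]
      apply sum_congr rfl
      intro m _
      ring
    rw [h1]
    have h2 := htot z hzz1 (s * L + 1) (by linarith) ((Icc 1 N).filter (fun m : ℕ => Rgh z m ∧ Real.log m ≤ s * L + 1)) (by
      intro n hn
      rw [mem_filter, mem_Icc] at hn
      exact ⟨hn.1.1, hn.2.2, hn.2.1⟩)
    rw [← hL] at h2
    have h3 : 1 + Cr * (s * L + 1 + 1) / L ≤ 4 * Cr * s := by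
      have h4 : Cr * (s * L + 1 + 1) / L ≤ Cr * (2 * s) := by
        rw [div_le_iff₀ hL0]
        have : s * L + 1 + 1 ≤ 2 * s * L := by linarith
        nlinarith
      have h5 : 1 ≤ Cr * s := by nlinarith
      linarith
    have h4 : L ≤ Y / u := by rw [le_div_iff₀ (by linarith)]; linarith
    calc (2 * s * L) ^ 2 * (Cu / L) * ∑ m ∈ (Icc 1 N).filter (fun m : ℕ => Rgh z m ∧ Real.log m ≤ s * L + 1), 1 / (m : ℝ)
        ≤ (2 * s * L) ^ 2 * (Cu / L) * (4 * Cr * s) := by
          apply mul_le_mul_of_nonneg_left (h2.trans h3) (by positivity)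
      _ = 16 * s ^ 3 * Cr * Cu * L := by field_simp; ring
      _ ≤ 16 * s ^ 3 * Cr * Cu * (Y / u) := by gcongr
      _ ≤ 16 * 4096 * C0 ^ 3 * Cr * Cu * (b ^ 3 / u) * Y := by
          rw [hs]
          have e : 16 * (8 * (C0 : ℝ) * b) ^ 3 * Cr * Cu * (Y / u) = 16 * 512 * (C0 ^ 3 * Cr * Cu * (b ^ 3 / u) * Y) := by
            field_simp
            ring
          rw [e]
          have : 0 ≤ (C0 : ℝ) ^ 3 * Cr * Cu * (b ^ 3 / u) * Y := by positivity
          nlinarith
  refine (add_le_add hA hB).trans ?_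
  rw [hK]
  have k1 : 0 ≤ 16 * 4096 * C0 ^ 3 * Cr * Cu * ((u : ℝ) ^ 2 * ρ) * Y := by positivity
  have k2 : 0 ≤ 352 * c2 * (4 * Cr) * ((b : ℝ) ^ 3 / u) * Y := by positivity
  nlinarith

end Pool.Agent.Y851.HZ
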