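import Pool.Agent.Y851.HZ.WN

/-! Bounds for the Dirichlet series of rough numbers. -/

set_option autoImplicit false

namespace Pool.Agent.Y851.HZ
open Finset
open Pool.Agent.H376R2.MR (er kern_er_cont kern_er_norm kern_er_add)
open Pool.Agent.H376R2.MR renaming w → tw
open Pool.Agent.H318R2.Cr (Rgh Pz mem_Pz one_sub_inv_pos V_pos V_le_one cz_bounds)
open Pool.Agent.H318R2.Cr renaming V → VV
open ArithmeticFunction (vonMangoldt)

/-- bounding a series by windows -/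
theorem tsum_bound (a : ℕ → ℂ) (ha : Summable a) (h0 : a 0 = 0) (B : ℝ)
    (hB : ∀ J : ℕ, ∑ j ∈ range J, ‖∑ n ∈ Icc 1 ⌊Real.exp (j + 1)⌋₊, (tw (Real.log n - j) : ℂ) * a n‖ ≤ B) :
    ‖∑' n, a n‖ ≤ B := by
  have hc0 : ∀ (J n : ℕ), 0 ≤ ∑ j ∈ range J, tw (Real.log n - j) := fun J n => sum_nonneg fun j _ => tw_nonneg _
  have hc1 : ∀ (J n : ℕ), ∑ j ∈ range J, tw (Real.log n - j) ≤ 1 := fun J n => part_le _ (Real.log_natCast_nonneg n) J
  have hlim : Filter.Tendsto (fun J : ℕ => ∑' n : ℕ, ((∑ j ∈ range J, tw (Real.log n - j) : ℝ) : ℂ) * a n)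
      Filter.atTop (nhds (∑' n, a n)) := by
    apply tendsto_tsum_of_dominated_convergence ha.norm
    · intro n
      apply tendsto_const_nhds.congr'
      filter_upwards [Filter.eventually_ge_atTop (⌈Real.log n⌉₊ + 1)] with J hJ
      have h1 : Real.log n + 1 ≤ J := by
        have h2 : ((⌈Real.log (n : ℝ)⌉₊ + 1 : ℕ) : ℝ) ≤ J := by exact_mod_cast hJ
        push_cast at h2
        linarith [Nat.le_ceil (Real.log (n : ℝ))]
      rw [part_unity _ (Real.log_natCast_nonneg n), min_eq_left (by linarith), max_eq_right (by norm_num)]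
      simp
    · filter_upwards with J n
      rw [norm_mul, Complex.norm_real, Real.norm_eq_abs, abs_of_nonneg (hc0 J n)]
      calc (∑ j ∈ range J, tw (Real.log n - j)) * ‖a n‖ ≤ 1 * ‖a n‖ := by
            gcongr
            exact hc1 J n
        _ = ‖a n‖ := one_mul _
  refine le_of_tendsto hlim.norm ?_
  filter_upwards with J
  have h1 : ∀ j ∈ range J, Summable (fun n : ℕ => (tw (Real.log n - j) : ℂ) * a n) := by
    intro j _
    apply Summable.of_norm_bounded ha.norm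
    intro n
    rw [norm_mul, Complex.norm_real, Real.norm_eq_abs, abs_of_nonneg (tw_nonneg _)]
    calc tw (Real.log n - j) * ‖a n‖ ≤ 1 * ‖a n‖ := by
          gcongr
          exact tw_le _
      _ = ‖a n‖ := one_mul _
  have h2 : ∑' n : ℕ, ((∑ j ∈ range J, tw (Real.log n - j) : ℝ) : ℂ) * a n =
      ∑ j ∈ range J, ∑' n : ℕ, (tw (Real.log n - j) : ℂ) * a n := by
    rw [← Summable.tsum_finsetSum h1]
    congr 1
    funext n
    push_cast
    rw [sum_mul]
  rw [h2]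
  refine le_trans ((norm_sum_le _ _).trans (le_of_eq ?_)) (hB J)
  apply sum_congr rfl
  intro j _
  congr 1
  rw [tsum_eq_sum]
  intro n hn
  rw [mem_Icc, not_and_or] at hn
  rcases hn with hn | hn
  · have : n = 0 := by omega
    rw [this, h0, mul_zero]
  · push Not at hn
    have hn0 : (0 : ℝ) < n := by
      have : 0 < n := by omega
      exact_mod_cast this
    have h4 : Real.exp (j + 1) < n := (Nat.floor_lt (Real.exp_pos _).le).1 hn
    have h5 : (j : ℝ) + 1 < Real.log n := by rwa [Real.lt_log_iff_exp_lt hn0]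
    rw [tw_supp _ (by rw [abs_of_nonneg (by linarith)]; linarith)]
    simp

lemma cpow_eq (n : ℕ) (hn : 1 ≤ n) (x y : ℝ) : (1 : ℂ) / (n : ℂ) ^ (1 + (x : ℂ) + Complex.I * y) =
    ((Real.exp (-(x * Real.log n)) / n : ℝ) : ℂ) * er (-y) (Real.log n) := by
  have hn0 : (n : ℂ) ≠ 0 := by exact_mod_cast (show n ≠ 0 by omega)
  have hnr : (0 : ℝ) < n := by exact_mod_cast hn
  rw [Complex.cpow_def_of_ne_zero hn0, ← Complex.natCast_log, one_div, ← Complex.exp_neg]
  have h1 : ((Real.exp (-(x * Real.log n)) / n : ℝ) : ℂ) = Complex.exp (-(x * Real.log n : ℂ)) * Complex.exp (-(Real.log n : ℂ)) := by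
    rw [← Complex.exp_add]
    have h2 : Real.exp (-(x * Real.log n)) / n = Real.exp (-(x * Real.log n) + -(Real.log n)) := by
      rw [Real.exp_add, Real.exp_neg (Real.log n), Real.exp_log hnr]
      rfl
    rw [h2]
    push_cast
    rfl
  rw [h1]
  unfold Pool.Agent.H376R2.MR.er
  rw [← Complex.exp_add, ← Complex.exp_add]
  congr 1
  push_cast
  ring

theorem Fi (z : ℕ) (Y y : ℝ) (hY : 1 ≤ Y) (i : ℕ) (hi : i ≤ 1) (f : ℕ → ℂ)
    (hf1 : ∀ n : ℕ, 1 ≤ n → Rgh z n → f n = (Real.log n : ℂ) ^ i)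
    (hf0 : ∀ n : ℕ, 1 ≤ n → ¬ Rgh z n → f n = 0)
    (hs : LSeriesSummable f (1 + ((1 / Y : ℝ) : ℂ) + Complex.I * y)) (j₁ : ℕ) (hj₁ : 1 ≤ j₁) (B0 ρ : ℝ) (hρ : 0 ≤ ρ)
    (h1 : ∀ S : Finset ℕ, (∀ n ∈ S, 1 ≤ n ∧ Real.log n ≤ j₁ ∧ Rgh z n) → ∑ n ∈ S, 1 / (n : ℝ) ≤ B0)
    (h2 : ∀ v : ℝ, (j₁ : ℝ) ≤ v → ∀ g : ℝ → ℝ, Wd g → ‖SR z g v (-y)‖ ≤ ρ) :
    ‖LSeries f (1 + ((1 / Y : ℝ) : ℂ) + Complex.I * y)‖ ≤ (j₁ : ℝ) ^ i * B0 + 176 * ρ * Y ^ (i + 1) := by
  classical
  have hY0 : 0 < Y := by linarith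
  set s : ℂ := 1 + ((1 / Y : ℝ) : ℂ) + Complex.I * y with hsdef
  have hterm1 : ∀ n : ℕ, 1 ≤ n → Rgh z n → LSeries.term f s n =
      ((Real.log n ^ i * Real.exp (-(Real.log n / Y)) / n : ℝ) : ℂ) * er (-y) (Real.log n) := by
    intro n hn hr
    rw [LSeries.term_of_ne_zero (show n ≠ 0 by omega), hf1 n hn hr, div_eq_mul_one_div, hsdef, cpow_eq n hn]
    have : 1 / Y * Real.log n = Real.log n / Y := by ring
    rw [this]
    push_cast
    ring
  have hterm0 : ∀ n : ℕ, 1 ≤ n → ¬ Rgh z n → LSeries.term f s n = 0 := by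
    intro n hn hr
    rw [LSeries.term_of_ne_zero (show n ≠ 0 by omega), hf0 n hn hr, zero_div]
  have hnorm : ∀ n : ℕ, 1 ≤ n → Real.log n ≤ j₁ → ‖LSeries.term f s n‖ ≤ if Rgh z n then (j₁ : ℝ) ^ i * (1 / n) else 0 := by
    intro n hn hlj
    by_cases hr : Rgh z n
    · rw [if_pos hr, hterm1 n hn hr, norm_mul, kern_er_norm, mul_one, Complex.norm_real, Real.norm_eq_abs]
      have hl := Real.log_natCast_nonneg n
      have hn0 : (0 : ℝ) < n := by exact_mod_cast hn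
      rw [abs_of_nonneg (by positivity)]
      have h3 : Real.exp (-(Real.log n / Y)) ≤ 1 := Real.exp_le_one_iff.2 (by
        rw [neg_nonpos]; positivity)
      calc Real.log n ^ i * Real.exp (-(Real.log n / Y)) / n ≤ (j₁ : ℝ) ^ i * 1 / n := by gcongr
        _ = (j₁ : ℝ) ^ i * (1 / n) := by ring
    · rw [if_neg hr, hterm0 n hn hr, norm_zero]
  unfold LSeries
  apply tsum_bound _ hs (by simp)
  intro J
  have hX : ∀ j : ℕ, 0 ≤ ‖∑ n ∈ Icc 1 ⌊Real.exp (j + 1)⌋₊, (tw (Real.log n - j) : ℂ) * LSeries.term f s n‖ :=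
    fun j => norm_nonneg _
  -- large windows
  have hlarge : ∀ j : ℕ, j₁ ≤ j → ‖∑ n ∈ Icc 1 ⌊Real.exp (j + 1)⌋₊, (tw (Real.log n - j) : ℂ) * LSeries.term f s n‖ ≤
      22 * ρ * ((j : ℝ) ^ i * Real.exp (-((j : ℝ) / Y))) := by
    intro j hj
    have hj1 : (1 : ℝ) ≤ j := by exact_mod_cast hj₁.trans hj
    obtain ⟨g, hg, hgn⟩ := win_i i (by omega) j Y hj1 hY
    have h3 : ∑ n ∈ Icc 1 ⌊Real.exp ((j : ℝ) + 1)⌋₊, (tw (Real.log n - j) : ℂ) * LSeries.term f s n =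
        ((4 * (2 * (j : ℝ)) ^ i * Real.exp (-(((j : ℝ) - 1) / Y)) : ℝ) : ℂ) * SR z g j (-y) := by
      unfold SR
      rw [mul_sum, sum_filter]
      apply sum_congr rfl
      intro n hn
      have hn1 := (mem_Icc.1 hn).1
      by_cases hr : Rgh z n
      · rw [if_pos hr, hterm1 n hn1 hr, ← mul_assoc, ← mul_assoc, ← Complex.ofReal_mul, ← Complex.ofReal_mul, ← hgn n]
        congr 2
        ring
      · rw [if_neg hr, hterm0 n hn1 hr, mul_zero]
    rw [h3, norm_mul, Complex.norm_real, Real.norm_eq_abs, abs_of_nonneg (by positivity)]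
    have h4 := h2 j (by exact_mod_cast hj) g hg
    have h5 : Real.exp (-(((j : ℝ) - 1) / Y)) ≤ 2.72 * Real.exp (-((j : ℝ) / Y)) := by
      have h6 : Real.exp (-(((j : ℝ) - 1) / Y)) = Real.exp (1 / Y) * Real.exp (-((j : ℝ) / Y)) := by
        rw [← Real.exp_add]; congr 1; ring
      rw [h6]
      have h7 : Real.exp (1 / Y) ≤ Real.exp 1 := Real.exp_le_exp.2 (by rw [div_le_one hY0]; exact hY)
      have h8 : Real.exp 1 ≤ 2.72 := by linarith [Real.exp_one_lt_d9]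
      have h9 := Real.exp_pos (-((j : ℝ) / Y))
      nlinarith
    have h6 : (2 * (j : ℝ)) ^ i ≤ 2 * (j : ℝ) ^ i := by
      rw [mul_pow]
      have : (2 : ℝ) ^ i ≤ 2 := by
        interval_cases i <;> norm_num
      gcongr
    calc 4 * (2 * (j : ℝ)) ^ i * Real.exp (-(((j : ℝ) - 1) / Y)) * ‖SR z g j (-y)‖
        ≤ 4 * (2 * (j : ℝ) ^ i) * (2.72 * Real.exp (-((j : ℝ) / Y))) * ρ := by gcongr
      _ = 21.76 * (ρ * ((j : ℝ) ^ i * Real.exp (-((j : ℝ) / Y)))) := by ring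
      _ ≤ 22 * (ρ * ((j : ℝ) ^ i * Real.exp (-((j : ℝ) / Y)))) := by
          apply mul_le_mul_of_nonneg_right (by norm_num) (by positivity)
      _ = 22 * ρ * ((j : ℝ) ^ i * Real.exp (-((j : ℝ) / Y))) := by ring
  -- small windows
  have hsmall : ∑ j ∈ range j₁, ‖∑ n ∈ Icc 1 ⌊Real.exp ((j : ℝ) + 1)⌋₊, (tw (Real.log n - j) : ℂ) * LSeries.term f s n‖ ≤
      (j₁ : ℝ) ^ i * B0 := by
    set N := ⌊Real.exp ((j₁ : ℝ) + 1)⌋₊ with hN
    have h3 : ∀ j ∈ range j₁, ‖∑ n ∈ Icc 1 ⌊Real.exp ((j : ℝ) + 1)⌋₊, (tw (Real.log n - j) : ℂ) * LSeries.term f s n‖ ≤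
        ∑ n ∈ Icc 1 N, tw (Real.log n - j) * ‖LSeries.term f s n‖ := by
      intro j hj
      have hjj : (j : ℝ) ≤ j₁ := by exact_mod_cast (mem_range.1 hj).le
      refine (norm_sum_le _ _).trans ?_
      have h4 : Icc 1 ⌊Real.exp ((j : ℝ) + 1)⌋₊ ⊆ Icc 1 N := by
        apply Icc_subset_Icc le_rfl
        apply Nat.floor_le_floor
        apply Real.exp_le_exp.2
        linarith
      refine le_trans (le_of_eq ?_) (sum_le_sum_of_subset_of_nonneg h4 (fun n _ _ => mul_nonneg (tw_nonneg _) (norm_nonneg _)))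
      apply sum_congr rfl
      intro n _
      rw [norm_mul, Complex.norm_real, Real.norm_eq_abs, abs_of_nonneg (tw_nonneg _)]
    refine (sum_le_sum h3).trans ?_
    rw [sum_comm]
    have h5 : ∀ n ∈ Icc 1 N, ∑ j ∈ range j₁, tw (Real.log n - j) * ‖LSeries.term f s n‖ ≤
        if Real.log n ≤ j₁ ∧ Rgh z n then (j₁ : ℝ) ^ i * (1 / n) else 0 := by
      intro n hn
      have hn1 := (mem_Icc.1 hn).1
      rw [← sum_mul]
      have hl := Real.log_natCast_nonneg n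
      by_cases hlj : Real.log n ≤ j₁
      · have h6 := hnorm n hn1 hlj
        have h7 := part_le _ hl j₁
        have h8 : 0 ≤ ∑ j ∈ range j₁, tw (Real.log n - j) := sum_nonneg fun j _ => tw_nonneg _
        have h9 : (∑ j ∈ range j₁, tw (Real.log n - j)) * ‖LSeries.term f s n‖ ≤ 1 * ‖LSeries.term f s n‖ := by
          gcongr
        rw [one_mul] at h9
        refine h9.trans (h6.trans (le_of_eq ?_))
        by_cases hr : Rgh z n
        · rw [if_pos hr, if_pos ⟨hlj, hr⟩]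
        · rw [if_neg hr, if_neg (fun h => hr h.2)]
      · push Not at hlj
        rw [part_zero _ hl j₁ hlj.le, zero_mul, if_neg (fun h => absurd h.1 (not_le.2 hlj))]
    refine (sum_le_sum h5).trans ?_
    rw [← sum_filter, ← mul_sum]
    apply mul_le_mul_of_nonneg_left _ (by positivity)
    apply h1
    intro n hn
    rw [mem_filter, mem_Icc] at hn
    exact ⟨hn.1.1, hn.2.1, hn.2.2⟩
  have hsplit : ∑ j ∈ range J, ‖∑ n ∈ Icc 1 ⌊Real.exp ((j : ℝ) + 1)⌋₊, (tw (Real.log n - j) : ℂ) * LSeries.term f s n‖ ≤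
      ∑ j ∈ range j₁, ‖∑ n ∈ Icc 1 ⌊Real.exp ((j : ℝ) + 1)⌋₊, (tw (Real.log n - j) : ℂ) * LSeries.term f s n‖ +
      ∑ j ∈ (range J).filter (fun j => j₁ ≤ j), ‖∑ n ∈ Icc 1 ⌊Real.exp ((j : ℝ) + 1)⌋₊, (tw (Real.log n - j) : ℂ) * LSeries.term f s n‖ := by
    rw [← sum_filter_add_sum_filter_not (range J) (fun j => j₁ ≤ j), add_comm]
    apply add_le_add_left
    apply sum_le_sum_of_subset_of_nonneg
    · intro j hj
      rw [mem_filter] at hj
      rw [mem_range]; omega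
    · intro j _ _; exact hX j
  refine hsplit.trans (add_le_add hsmall ?_)
  calc ∑ j ∈ (range J).filter (fun j => j₁ ≤ j), ‖∑ n ∈ Icc 1 ⌊Real.exp ((j : ℝ) + 1)⌋₊, (tw (Real.log n - j) : ℂ) * LSeries.term f s n‖
      ≤ ∑ j ∈ (range J).filter (fun j => j₁ ≤ j), 22 * ρ * ((j : ℝ) ^ i * Real.exp (-((j : ℝ) / Y))) :=
        sum_le_sum fun j hj => hlarge j (mem_filter.1 hj).2
    _ ≤ ∑ j ∈ range J, 22 * ρ * ((j : ℝ) ^ i * Real.exp (-((j : ℝ) / Y))) :=
        sum_le_sum_of_subset_of_nonneg (filter_subset _ _) (fun j _ _ => by positivity)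
    _ = 22 * ρ * ∑ j ∈ range J, (j : ℝ) ^ i * Real.exp (-((j : ℝ) / Y)) := by rw [mul_sum]
    _ ≤ 22 * ρ * (8 * Y ^ (i + 1)) := by
        apply mul_le_mul_of_nonneg_left _ (by positivity)
        interval_cases i
        · have h := geo_exp Y hY J
          simp only [pow_zero, one_mul, zero_add, pow_one]
          linarith
        · have h := geo_exp1 Y hY J
          simpa using h
    _ = 176 * ρ * Y ^ (i + 1) := by ring

end Pool.Agent.Y851.HZ
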