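import Pool.Agent.Y851.HZ.FB

/-! Bounds for the logarithmic derivative. -/

set_option autoImplicit false

namespace Pool.Agent.Y851.HZ
open Finset
open Pool.Agent.H376R2.MR (er kern_er_cont kern_er_norm kern_er_add)
open Pool.Agent.H376R2.MR renaming w → tw
open Pool.Agent.H318R2.Cr (Rgh Pz mem_Pz one_sub_inv_pos V_pos V_le_one cz_bounds)
open Pool.Agent.H318R2.Cr renaming V → VV
open ArithmeticFunction (vonMangoldt)

/-- the product of the primes up to `z` -/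
def QQ (z : ℕ) : ℕ := ∏ p ∈ Pz z, p

lemma QQ_ne (z : ℕ) : QQ z ≠ 0 := prod_ne_zero_iff.2 fun _ hp => (mem_Pz.1 hp).1.ne_zero

lemma coprime_QQ (z n : ℕ) : n.Coprime (QQ z) ↔ Rgh z n := by
  unfold QQ
  rw [Nat.coprime_prod_right_iff]
  constructor
  · intro h p hp hpz
    have := h p (mem_Pz.2 ⟨hp, hpz⟩)
    rwa [Nat.coprime_comm, hp.coprime_iff_not_dvd] at this
  · intro h p hp
    rw [mem_Pz] at hp
    rw [Nat.coprime_comm, hp.1.coprime_iff_not_dvd]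
    exact h p hp.1 hp.2

/-- the principal character -/
noncomputable def ch0 (z : ℕ) : DirichletCharacter ℂ (QQ z) := 1

lemma ch0_one {z n : ℕ} (h : Rgh z n) : ch0 z (n : ZMod (QQ z)) = 1 := by
  unfold ch0
  have : IsUnit (n : ZMod (QQ z)) := (ZMod.isUnit_iff_coprime n (QQ z)).2 ((coprime_QQ z n).2 h)
  exact MulChar.one_apply this

lemma ch0_zero {z n : ℕ} (h : ¬ Rgh z n) : ch0 z (n : ZMod (QQ z)) = 0 := by
  unfold ch0
  apply MulChar.map_nonunit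
  rw [ZMod.isUnit_iff_coprime]
  exact fun h1 => h ((coprime_QQ z n).1 h1)

lemma re_s (x y : ℝ) : (1 + (x : ℂ) + Complex.I * y).re = 1 + x := by simp

/-- twisted von Mangoldt series over rough numbers -/
noncomputable def LL (z : ℕ) (Y y : ℝ) : ℂ :=
  LSeries (fun n => ch0 z (n : ZMod (QQ z)) * (vonMangoldt n : ℂ)) (1 + ((1 / Y : ℝ) : ℂ) + Complex.I * y)

lemma LL_pow (z : ℕ) (Y y : ℝ) (hY : 1 ≤ Y) :
    ‖LL z Y y‖ ^ 4 ≤ ‖LSeries (LSeries.logMul (fun n => ch0 z (n : ZMod (QQ z)))) (1 + ((1 / Y : ℝ) : ℂ) + Complex.I * y)‖ ^ 4 *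
      (‖LSeries (fun n => ch0 z (n : ZMod (QQ z))) (1 + ((1 / Y : ℝ) : ℂ) + Complex.I * (0 : ℝ))‖ ^ 3 *
      ‖LSeries (fun n => ch0 z (n : ZMod (QQ z))) (1 + ((1 / Y : ℝ) : ℂ) + Complex.I * (2 * y : ℝ))‖) := by
  have hY0 : 0 < Y := by linarith
  have hx : 0 < 1 / Y := by positivity
  set s : ℂ := 1 + ((1 / Y : ℝ) : ℂ) + Complex.I * y with hs
  have hsre : 1 < s.re := by rw [hs, re_s]; linarith
  have h341 := DirichletCharacter.norm_LSeries_product_ge_one (ch0 z) hx y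
  have hsq : (ch0 z) ^ 2 = 1 := by unfold ch0; exact one_pow 2
  rw [hsq, norm_mul, norm_mul, norm_pow, norm_pow] at h341
  have e0 : (1 + ((1 / Y : ℝ) : ℂ) + Complex.I * (0 : ℝ)) = 1 + ((1 / Y : ℝ) : ℂ) := by push_cast; ring
  have e2 : (1 + ((1 / Y : ℝ) : ℂ) + Complex.I * (2 * y : ℝ)) = 1 + ((1 / Y : ℝ) : ℂ) + 2 * Complex.I * y := by
    push_cast; ring
  rw [e0, e2]
  have hL : LL z Y y = LSeries (LSeries.logMul (fun n => ch0 z (n : ZMod (QQ z)))) s /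
      LSeries (fun n => ch0 z (n : ZMod (QQ z))) s := by
    have h1 := DirichletCharacter.LSeries_twist_vonMangoldt_eq (ch0 z) hsre
    have h2 : LSeries.abscissaOfAbsConv (fun n : ℕ => ch0 z (n : ZMod (QQ z))) < s.re := by
      rw [DirichletCharacter.absicssaOfAbsConv_eq_one (QQ_ne z), ← EReal.coe_one, EReal.coe_lt_coe_iff]
      exact hsre
    rw [LSeries_deriv h2, neg_neg] at h1
    exact h1
  rw [hL, norm_div, div_pow]
  set F := ‖LSeries (fun n => ch0 z (n : ZMod (QQ z))) s‖ with hF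
  have hF4 : 0 ≤ F ^ 4 := by positivity
  have hFpos : 0 < F ^ 4 := by
    rcases hF4.eq_or_lt with h | h
    · exfalso
      rw [← h] at h341
      simp at h341
      linarith
    · exact h
  rw [div_le_iff₀ hFpos]
  set A := ‖LSeries (LSeries.logMul (fun n => ch0 z (n : ZMod (QQ z)))) s‖ ^ 4 with hA
  have hA0 : 0 ≤ A := by positivity
  have h3 : A * 1 ≤ A * (‖LSeries (fun n => (1 : DirichletCharacter ℂ (QQ z)) (n : ZMod (QQ z))) (1 + ((1 / Y : ℝ) : ℂ))‖ ^ 3 *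
      F ^ 4 * ‖LSeries (fun n => (1 : DirichletCharacter ℂ (QQ z)) (n : ZMod (QQ z))) (1 + ((1 / Y : ℝ) : ℂ) + 2 * Complex.I * y)‖) :=
    mul_le_mul_of_nonneg_left h341 hA0
  rw [mul_one] at h3
  refine h3.trans (le_of_eq ?_)
  unfold ch0
  ring

lemma hf1_0 (z : ℕ) : ∀ n : ℕ, 1 ≤ n → Rgh z n → ch0 z (n : ZMod (QQ z)) = (Real.log n : ℂ) ^ 0 := by
  intro n _ hr
  rw [ch0_one hr, pow_zero]

lemma hf0_0 (z : ℕ) : ∀ n : ℕ, 1 ≤ n → ¬ Rgh z n → ch0 z (n : ZMod (QQ z)) = 0 := fun n _ hr => ch0_zero hr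

lemma hf1_1 (z : ℕ) : ∀ n : ℕ, 1 ≤ n → Rgh z n →
    LSeries.logMul (fun n => ch0 z (n : ZMod (QQ z))) n = (Real.log n : ℂ) ^ 1 := by
  intro n _ hr
  show Complex.log n * ch0 z (n : ZMod (QQ z)) = _
  rw [ch0_one hr, mul_one, pow_one, Complex.natCast_log]

lemma hf0_1 (z : ℕ) : ∀ n : ℕ, 1 ≤ n → ¬ Rgh z n →
    LSeries.logMul (fun n => ch0 z (n : ZMod (QQ z))) n = 0 := by
  intro n _ hr
  show Complex.log n * ch0 z (n : ZMod (QQ z)) = _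
  rw [ch0_zero hr, mul_zero]

lemma summ0 (z : ℕ) (Y y : ℝ) (hY : 0 < Y) :
    LSeriesSummable (fun n => ch0 z (n : ZMod (QQ z))) (1 + ((1 / Y : ℝ) : ℂ) + Complex.I * y) := by
  apply DirichletCharacter.LSeriesSummable_of_one_lt_re (ch0 z)
  rw [re_s]
  have : 0 < 1 / Y := by positivity
  linarith

lemma summ1 (z : ℕ) (Y y : ℝ) (hY : 0 < Y) :
    LSeriesSummable (LSeries.logMul (fun n => ch0 z (n : ZMod (QQ z)))) (1 + ((1 / Y : ℝ) : ℂ) + Complex.I * y) := by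
  apply LSeriesSummable_logMul_of_lt_re
  rw [DirichletCharacter.absicssaOfAbsConv_eq_one (QQ_ne z), ← EReal.coe_one, EReal.coe_lt_coe_iff, re_s]
  have : 0 < 1 / Y := by positivity
  linarith

/-- the numerical step -/
lemma fourth {a F0 F2 A B C D : ℝ} (ha : 0 ≤ a) (h0 : 0 ≤ F0) (h2 : 0 ≤ F2) (hA : a ≤ A) (hB : F0 ≤ B) (hC : F2 ≤ C)
    (hD : A ^ 4 * (B ^ 3 * C) ≤ D) : a ^ 4 * (F0 ^ 3 * F2) ≤ D := by
  refine le_trans ?_ hD
  have hB0 : 0 ≤ B := h0.trans hB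
  have hA0 : 0 ≤ A := ha.trans hA
  gcongr

/-- the logarithmic derivative of the series of rough numbers -/
theorem L_bound : ∃ (C0 : ℕ) (C : ℝ), 1 ≤ C0 ∧ 1 ≤ C ∧ ∀ M b u : ℕ, C0 ≤ b → b ≤ u →
    6 * (u : ℝ) ^ 2 * (1 / 2 : ℝ) ^ b ≤ 1 → ∃ L₁ : ℝ, 1 ≤ L₁ ∧ ∀ z : ℕ, 2 ≤ z → L₁ ≤ Real.log z → ∀ Y : ℝ,
    u * Real.log z ≤ Y → Y ≤ 2 * u * Real.log z → ∀ y : ℝ, 16 * (u : ℝ) ^ 2 ≤ |y| → 2 * |y| ≤ Real.exp (M * Y) →
    ‖LL z Y y‖ ^ 4 ≤ C * (b ^ 9 / u) * Y ^ 4 := by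
  obtain ⟨C0, hC0, hmain⟩ := main_win
  obtain ⟨z₁, Cr, hz₁, hCr, htot⟩ := rough_total
  obtain ⟨z₂, Cu, hz₂, hCu, hunit⟩ := rough_unit
  obtain ⟨c1, c2, hc1, hc12, hcz⟩ := cz_bounds
  have hc2 : 0 < c2 := hc1.trans_le hc12
  have hC0r : (1 : ℝ) ≤ C0 := by exact_mod_cast hC0
  -- constants
  obtain ⟨K, hK⟩ : ∃ K : ℝ, K = 200 * C0 ^ 2 * Cr + 352 * c2 + 352 * Cu := ⟨_, rfl⟩
  have hK1 : 1 ≤ K := by
    rw [hK]
    nlinarith
  refine ⟨C0, K ^ 8, hC0, one_le_pow₀ hK1, fun M b u hb hbu hu6 => ?_⟩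
  have hbr : (1 : ℝ) ≤ b := by exact_mod_cast hC0.trans hb
  have hbur : (b : ℝ) ≤ u := by exact_mod_cast hbu
  have hur : (1 : ℝ) ≤ u := hbr.trans hbur
  obtain ⟨L₁, hL₁⟩ := hmain M b u hb ((hC0.trans hb).trans hbu)
  refine ⟨max (max L₁ 1) (max (Real.log z₁) (Real.log z₂)), (le_max_right L₁ 1).trans (le_max_left _ _), fun z hz hzL Y hY1 hY2 y hy1 hy2 => ?_⟩
  obtain ⟨L, hL⟩ : ∃ L : ℝ, L = Real.log z := ⟨_, rfl⟩
  rw [← hL] at hzL hY1 hY2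
  have hLL1 : L₁ ≤ L := ((le_max_left _ _).trans (le_max_left _ _)).trans hzL
  have hL1 : 1 ≤ L := ((le_max_right _ _).trans (le_max_left _ _)).trans hzL
  have hz0 : (0 : ℝ) < z := by exact_mod_cast (show 0 < z by omega)
  have hzz1 : z₁ ≤ z := by
    have h1 : Real.log z₁ ≤ Real.log z := by rw [← hL]; exact ((le_max_left _ _).trans (le_max_right _ _)).trans hzL
    have h2 : (z₁ : ℝ) ≤ z := (Real.log_le_log_iff (by exact_mod_cast (show 0 < z₁ by omega)) hz0).1 h1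
    exact_mod_cast h2
  have hzz2 : z₂ ≤ z := by
    have h1 : Real.log z₂ ≤ Real.log z := by rw [← hL]; exact ((le_max_right _ _).trans (le_max_right _ _)).trans hzL
    have h2 : (z₂ : ℝ) ≤ z := (Real.log_le_log_iff (by exact_mod_cast (show 0 < z₂ by omega)) hz0).1 h1
    exact_mod_cast h2
  have hYL : L ≤ Y := by nlinarith
  have hYone : 1 ≤ Y := hL1.trans hYL
  have hY0 : 0 < Y := by linarith
  have hL0 : 0 < L := by linarith
  -- the cut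
  obtain ⟨j₁, hj₁⟩ : ∃ j₁ : ℕ, j₁ = ⌈8 * C0 * b * L⌉₊ := ⟨_, rfl⟩
  have hcb : 1 ≤ (C0 : ℝ) * b := by nlinarith
  have hj2 : 8 * C0 * b * L ≤ j₁ := by rw [hj₁]; exact Nat.le_ceil _
  have hcbL : 1 ≤ (C0 : ℝ) * b * L := by nlinarith
  have hj3 : (j₁ : ℝ) ≤ 9 * (C0 * b * L) := by
    have := Nat.ceil_lt_add_one (show 0 ≤ 8 * C0 * b * L by positivity)
    rw [← hj₁] at this
    linarith
  have hj4 : 1 ≤ j₁ := by
    have : (1 : ℝ) ≤ j₁ := by linarith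
    exact_mod_cast this
  have hjL : L ≤ j₁ := by nlinarith
  -- rough numbers up to the cut
  obtain ⟨B0, hB0⟩ : ∃ B0 : ℝ, B0 = 11 * C0 * b * Cr := ⟨_, rfl⟩
  have hsmall : ∀ S : Finset ℕ, (∀ n ∈ S, 1 ≤ n ∧ Real.log n ≤ j₁ ∧ Rgh z n) → ∑ n ∈ S, 1 / (n : ℝ) ≤ B0 := by
    intro S hS
    refine (htot z hzz1 j₁ (Nat.cast_nonneg _) S hS).trans ?_
    rw [← hL, hB0]
    have h1 : Cr * ((j₁ : ℝ) + 1) / L ≤ Cr * (10 * (C0 * b)) := by
      rw [div_le_iff₀ hL0]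
      have : (j₁ : ℝ) + 1 ≤ 10 * (C0 * b) * L := by nlinarith
      nlinarith
    have h2 : 1 ≤ Cr * (C0 * b) := by nlinarith
    nlinarith
  -- rough windows
  have hVL : VV z ≤ c2 / L := by
    rw [le_div_iff₀ hL0, hL]; exact (hcz z hz).2
  have hρ : ∀ y' : ℝ, 16 * (u : ℝ) ^ 2 ≤ |y'| → |y'| ≤ Real.exp (M * Y) → ∀ v : ℝ, (j₁ : ℝ) ≤ v → ∀ g : ℝ → ℝ, Wd g →
      ‖SR z g v (-y')‖ ≤ c2 / L / u ^ 2 := by
    intro y' h1 h2 v hv g hg
    have hu2 : (1 : ℝ) ≤ (u : ℝ) ^ 2 := one_le_pow₀ hur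
    have h3 := hL₁ z hz (by rw [← hL]; exact hLL1) Y (by rw [← hL]; exact hY2) v (by rw [← hL]; linarith) (-y')
      (by rw [abs_neg]; linarith) (by rw [abs_neg]; exact h2) g hg
    rw [abs_neg] at h3
    refine h3.trans ?_
    have h4 : 8 / |y'| ≤ 1 / (2 * u ^ 2) := by
      rw [div_le_div_iff₀ (by linarith) (by positivity)]
      linarith
    have h5 : 3 * (1 / 2 : ℝ) ^ b ≤ 1 / (2 * u ^ 2) := by
      rw [le_div_iff₀ (by positivity)]
      linarith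
    have h6 : 8 / |y'| + 3 * (1 / 2 : ℝ) ^ b ≤ 1 / u ^ 2 := by
      have : 1 / (u : ℝ) ^ 2 = 1 / (2 * u ^ 2) + 1 / (2 * u ^ 2) := by field_simp; ring
      rw [this]; linarith
    have hVp := V_pos z
    calc VV z * (8 / |y'| + 3 * (1 / 2 : ℝ) ^ b) ≤ (c2 / L) * (1 / u ^ 2) := by gcongr
      _ = c2 / L / u ^ 2 := by ring
  have hyexp : |y| ≤ Real.exp (M * Y) := by linarith [abs_nonneg y]
  have hy2' : 16 * (u : ℝ) ^ 2 ≤ |2 * y| := by rw [abs_mul, abs_two]; linarith [abs_nonneg y]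
  have hy2'' : |2 * y| ≤ Real.exp (M * Y) := by rw [abs_mul, abs_two]; exact hy2
  have hρ0 : 0 ≤ c2 / L / (u : ℝ) ^ 2 := by positivity
  have hYuL : c2 / L / (u : ℝ) ^ 2 * Y ≤ 2 * c2 / u := by
    have : c2 / L / (u : ℝ) ^ 2 * Y = c2 * Y / (L * u ^ 2) := by field_simp
    rw [this, div_le_div_iff₀ (by positivity) (by positivity)]
    have h1 : c2 * Y * u ≤ c2 * (2 * u * L) * u := by gcongr
    refine h1.trans (le_of_eq ?_)
    ring
  have hcu : 2 * c2 / (u : ℝ) ≤ 2 * c2 := by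
    rw [div_le_iff₀ (by linarith)]
    nlinarith
  -- bound for F(2y)
  have hF2 : ‖LSeries (fun n => ch0 z (n : ZMod (QQ z))) (1 + ((1 / Y : ℝ) : ℂ) + Complex.I * (2 * y : ℝ))‖ ≤ K * b := by
    have h1 := Fi z Y (2 * y) hYone 0 (by omega) (fun n => ch0 z (n : ZMod (QQ z))) (hf1_0 z) (hf0_0 z) (summ0 z Y _ hY0) j₁ hj4 B0
      (c2 / L / u ^ 2) hρ0 hsmall (hρ (2 * y) hy2' hy2'')
    refine h1.trans ?_
    rw [pow_zero, one_mul, zero_add, pow_one, mul_assoc, hB0, hK]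
    have h2 : 176 * (c2 / L / (u : ℝ) ^ 2 * Y) ≤ 352 * c2 * b := by nlinarith
    have h3 : 11 * (C0 : ℝ) * b * Cr ≤ 200 * C0 ^ 2 * Cr * b := by
      have : (C0 : ℝ) ≤ C0 ^ 2 := by nlinarith
      have h4 : 0 ≤ (b : ℝ) * Cr := by positivity
      nlinarith
    have h4 : 0 ≤ 352 * Cu * b := by positivity
    nlinarith
  -- bound for F(0)
  have hF0 : ‖LSeries (fun n => ch0 z (n : ZMod (QQ z))) (1 + ((1 / Y : ℝ) : ℂ) + Complex.I * (0 : ℝ))‖ ≤ K * u := by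
    have h1 := Fi z Y 0 hYone 0 (by omega) (fun n => ch0 z (n : ZMod (QQ z))) (hf1_0 z) (hf0_0 z) (summ0 z Y _ hY0) j₁ hj4 B0
      (Cu / L) (by positivity) hsmall (by
        intro v hv g hg
        classical
        unfold SR
        refine (norm_sum_le _ _).trans ?_
        have h2 : ∀ n ∈ (Icc 1 ⌊Real.exp (v + 1)⌋₊).filter (fun n => Rgh z n),
            ‖((g (Real.log n - v) / n : ℝ) : ℂ) * er (-0) (Real.log n)‖ ≤ if |Real.log n - v| ≤ 1 then 1 / (n : ℝ) else 0 := by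
          intro n hn
          rw [mem_filter, mem_Icc] at hn
          have hn0 : (0 : ℝ) < n := by exact_mod_cast hn.1.1
          rw [norm_mul, kern_er_norm, mul_one, Complex.norm_real, Real.norm_eq_abs,
            abs_of_nonneg (div_nonneg (hg.nonneg _) (Nat.cast_nonneg _))]
          by_cases h : |Real.log n - v| ≤ 1
          · rw [if_pos h]
            have := hg.le_one (Real.log n - v)
            gcongr
          · rw [if_neg h, hg.supp _ (le_of_not_ge h), zero_div]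
        refine (sum_le_sum h2).trans ?_
        rw [← sum_filter, hL]
        apply hunit z hzz2 v (by rw [← hL]; linarith)
        intro n hn
        rw [mem_filter, mem_filter, mem_Icc] at hn
        exact ⟨hn.1.1.1, hn.2, hn.1.2⟩)
    refine h1.trans ?_
    rw [pow_zero, one_mul, zero_add, pow_one, mul_assoc, hB0, hK]
    have h2 : Cu / L * Y ≤ 2 * Cu * u := by
      rw [div_mul_eq_mul_div, div_le_iff₀ hL0]
      nlinarith
    have h3 : 11 * (C0 : ℝ) * b * Cr ≤ 200 * C0 ^ 2 * Cr * u := by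
      have : (C0 : ℝ) ≤ C0 ^ 2 := by nlinarith
      have h4 : 0 ≤ (u : ℝ) * Cr := by positivity
      have h5 : (b : ℝ) * Cr ≤ u * Cr := by gcongr
      have h6 : 0 ≤ (b : ℝ) * Cr := by positivity
      nlinarith
    have h4 : 0 ≤ 352 * c2 * u := by positivity
    nlinarith
  -- bound for F'(y)
  have hF1 : ‖LSeries (LSeries.logMul (fun n => ch0 z (n : ZMod (QQ z)))) (1 + ((1 / Y : ℝ) : ℂ) + Complex.I * y)‖ ≤
      K * (b ^ 2 * Y / u) := by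
    have h1 := Fi z Y y hYone 1 le_rfl (LSeries.logMul (fun n => ch0 z (n : ZMod (QQ z)))) (hf1_1 z) (hf0_1 z) (summ1 z Y _ hY0) j₁ hj4 B0
      (c2 / L / u ^ 2) hρ0 hsmall (hρ y hy1 hyexp)
    refine h1.trans ?_
    have hLY : L ≤ Y / u := by rw [le_div_iff₀ (by linarith)]; linarith
    have h2 : 176 * (c2 / L / (u : ℝ) ^ 2) * Y ^ 2 ≤ 352 * c2 * (Y / u) := by
      have : 176 * (c2 / L / (u : ℝ) ^ 2) * Y ^ 2 = 176 * Y * (c2 / L / (u : ℝ) ^ 2 * Y) := by ring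
      rw [this]
      calc 176 * Y * (c2 / L / (u : ℝ) ^ 2 * Y) ≤ 176 * Y * (2 * c2 / u) := by gcongr
        _ = 352 * c2 * (Y / u) := by ring
    have h3 : (j₁ : ℝ) * B0 ≤ 99 * C0 ^ 2 * Cr * (b ^ 2 * (Y / u)) := by
      rw [hB0]
      calc (j₁ : ℝ) * (11 * C0 * b * Cr) ≤ (9 * (C0 * b * L)) * (11 * C0 * b * Cr) := by gcongr
        _ = 99 * C0 ^ 2 * Cr * (b ^ 2 * L) := by ring
        _ ≤ 99 * C0 ^ 2 * Cr * (b ^ 2 * (Y / u)) := by gcongr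
    have hb2 : (1 : ℝ) ≤ (b : ℝ) ^ 2 := one_le_pow₀ hbr
    have hYu : 0 ≤ Y / u := by positivity
    have h4 : Y / u ≤ b ^ 2 * (Y / u) := by nlinarith
    have h5 : 0 ≤ (b : ℝ) ^ 2 * (Y / u) := by positivity
    rw [pow_one, show b ^ 2 * Y / (u : ℝ) = b ^ 2 * (Y / u) by ring, hK]
    have h6 : 0 ≤ C0 ^ 2 * Cr * ((b : ℝ) ^ 2 * (Y / u)) := by positivity
    have h7 : 0 ≤ Cu * ((b : ℝ) ^ 2 * (Y / u)) := by positivity
    have h8 : 352 * c2 * (Y / u) ≤ 352 * c2 * (b ^ 2 * (Y / u)) := by gcongr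
    have h9 : (176 : ℝ) * (c2 / L / (u : ℝ) ^ 2) * Y ^ (1 + 1) = 176 * (c2 / L / (u : ℝ) ^ 2) * Y ^ 2 := by norm_num
    rw [h9]
    nlinarith
  refine (LL_pow z Y y hYone).trans ?_
  refine fourth (norm_nonneg _) (norm_nonneg _) (norm_nonneg _) hF1 hF0 hF2 (le_of_eq ?_)
  have hu0 : (u : ℝ) ≠ 0 := by positivity
  field_simp

end Pool.Agent.Y851.HZ
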