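import Pool.Agent.H336R2.V.SepSharp
import Pool.Agent.H376R2.MR.Defs
import Pool.Agent.H376R2.MR.Kern

/-! The tent function as a Fourier transform; mean squares of trigonometric polynomials. -/

set_option autoImplicit false

namespace Pool.Agent.Y851.HZ
open Finset MeasureTheory
open Pool.Agent.H376R2.MR (er kern_er_cont kern_er_norm kern_er_add)
open Pool.Agent.H376R2.MR renaming w → tw

/-- the kernel `sinc(πξ)²` -/
noncomputable def kap (ξ : ℝ) : ℝ := Real.sinc (Real.pi * ξ) ^ 2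

lemma kap_nonneg (ξ : ℝ) : 0 ≤ kap ξ := sq_nonneg _

lemma kap_cont : Continuous kap := by
  unfold kap
  have := Real.continuous_sinc
  fun_prop

lemma kap_eq (ξ : ℝ) : H336V.SepSharp.gg 0 1 ξ = kap ξ := by
  unfold H336V.SepSharp.gg H336V.SepSharp.th kap
  simp

lemma kap_int : Integrable kap := by
  have h := (H336V.SepSharp.gg_int (a := 0) (b := 1) le_rfl (by norm_num) (by norm_num)).1
  refine h.congr (Filter.Eventually.of_forall fun ξ => ?_)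
  simp only
  rw [kap_eq, abs_of_nonneg (kap_nonneg ξ)]

lemma kap_le_one (ξ : ℝ) : kap ξ ≤ 1 := by
  unfold kap
  have h1 := Real.abs_sinc_le_one (Real.pi * ξ)
  rw [← sq_abs]
  exact pow_le_one₀ (abs_nonneg _) h1

lemma kap_le_inv (ξ : ℝ) (hξ : ξ ≠ 0) : kap ξ ≤ 1 / (Real.pi * ξ) ^ 2 := by
  unfold kap
  have hpi := Real.pi_pos
  rw [Real.sinc_of_ne_zero (by positivity), div_pow]
  have h1 : Real.sin (Real.pi * ξ) ^ 2 ≤ 1 := Real.sin_sq_le_one _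
  gcongr

lemma kap_ge (ξ : ℝ) (hξ : |ξ| ≤ 1 / 2) : 2 / 5 ≤ kap ξ := by
  have hpi := Real.pi_pos
  have hpi2 := Real.pi_lt_d2
  have h0 : kap ξ = kap |ξ| := by
    rcases abs_choice ξ with h | h
    · rw [h]
    · rw [h]
      unfold kap
      rw [mul_neg, Real.sinc_neg]
  rw [h0]
  rcases (abs_nonneg ξ).eq_or_lt with h | h
  · rw [← h]
    unfold kap
    simp
    norm_num
  · unfold kap
    rw [Real.sinc_of_ne_zero (by positivity)]
    have h1 := Real.mul_le_sin (x := Real.pi * |ξ|) (by positivity) (by nlinarith)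
    have h2 : 2 / Real.pi ≤ Real.sin (Real.pi * |ξ|) / (Real.pi * |ξ|) := by
      rw [le_div_iff₀ (by positivity)]
      exact h1
    have h3 : (0.634 : ℝ) ≤ 2 / Real.pi := by
      rw [le_div_iff₀ hpi]; nlinarith
    nlinarith

/-- the Fourier transform of the kernel -/
lemma kap_fourier (v : ℝ) : ∫ ξ, (kap ξ : ℂ) * er (2 * Real.pi * ξ) v = (tw v : ℂ) := by
  have h := H336V.SepSharp.inversion (a := 0) (b := 1) le_rfl (by norm_num) (by norm_num) v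
  have h2 : H336V.SepSharp.TT 0 1 v = tw v := by
    unfold H336V.SepSharp.TT H336V.SepSharp.tent Pool.Agent.H376R2.MR.w
    have : max (0 - |v|) 0 = 0 := max_eq_right (by linarith [abs_nonneg v])
    rw [this, max_comm]
    ring
  rw [h2] at h
  rw [← h]
  congr 1
  funext ξ
  rw [kap_eq]
  congr 1
  unfold Pool.Agent.H376R2.MR.er H343.ex
  congr 2
  push_cast
  ring

lemma er_sub' (τ x y : ℝ) : er τ x * (starRingEnd ℂ) (er τ y) = er τ (x - y) := by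
  unfold Pool.Agent.H376R2.MR.er
  rw [← Complex.exp_conj, ← Complex.exp_add]
  congr 1
  simp only [map_mul, Complex.conj_ofReal, Complex.conj_I]
  push_cast
  ring

lemma er_cont2 (x : ℝ) : Continuous (fun ξ : ℝ => er (2 * Real.pi * ξ) x) := by
  unfold Pool.Agent.H376R2.MR.er
  fun_prop

lemma kap_term_int (c : ℂ) (x : ℝ) : Integrable (fun ξ : ℝ => (kap ξ : ℂ) * (c * er (2 * Real.pi * ξ) x)) := by
  have h1 : Integrable (fun ξ : ℝ => (kap ξ : ℂ)) := kap_int.ofReal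
  have h2 : Continuous (fun ξ : ℝ => c * er (2 * Real.pi * ξ) x) := continuous_const.mul (er_cont2 x)
  have h3 := h1.bdd_mul (c := ‖c‖) h2.aestronglyMeasurable (Filter.Eventually.of_forall fun ξ => by
    rw [norm_mul, kern_er_norm, mul_one])
  refine h3.congr (Filter.Eventually.of_forall fun ξ => ?_)
  simp only
  ring

lemma kap_poly {ι : Type} (I : Finset ι) (c : ι → ℂ) (l : ι → ℝ) :
    ∫ ξ : ℝ, (kap ξ : ℂ) * ∑ i ∈ I, c i * er (2 * Real.pi * ξ) (l i) = ∑ i ∈ I, c i * (tw (l i) : ℂ) := by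
  have h1 : ∀ ξ : ℝ, (kap ξ : ℂ) * ∑ i ∈ I, c i * er (2 * Real.pi * ξ) (l i) =
      ∑ i ∈ I, (kap ξ : ℂ) * (c i * er (2 * Real.pi * ξ) (l i)) := fun ξ => by rw [mul_sum]
  simp_rw [h1]
  rw [integral_finsetSum _ (fun i _ => kap_term_int (c i) (l i))]
  apply sum_congr rfl
  intro i _
  rw [← kap_fourier (l i), ← integral_const_mul]
  congr 1
  funext ξ
  ring

/-- trigonometric polynomial -/
noncomputable def TP (S : Finset ℕ) (c : ℕ → ℂ) (l : ℕ → ℝ) (ξ : ℝ) : ℂ := ∑ n ∈ S, c n * er (2 * Real.pi * ξ) (l n)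

lemma TP_cont (S : Finset ℕ) (c : ℕ → ℂ) (l : ℕ → ℝ) : Continuous (TP S c l) := by
  unfold TP
  apply continuous_finsetSum
  intro n _
  exact continuous_const.mul (er_cont2 _)

lemma TP_le (S : Finset ℕ) (c : ℕ → ℂ) (l : ℕ → ℝ) (a : ℕ → ℝ) (hca : ∀ n ∈ S, ‖c n‖ ≤ a n) (ξ : ℝ) :
    ‖TP S c l ξ‖ ≤ ∑ n ∈ S, a n := by
  unfold TP
  refine (norm_sum_le _ _).trans (sum_le_sum fun n hn => ?_)
  rw [norm_mul, kern_er_norm, mul_one]
  exact hca n hn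

lemma kap_bdd_int (f : ℝ → ℝ) (hf : Continuous f) (C : ℝ) (hC : ∀ ξ, |f ξ| ≤ C) :
    Integrable (fun ξ => kap ξ * f ξ) := by
  have h3 := kap_int.bdd_mul (c := C) hf.aestronglyMeasurable (Filter.Eventually.of_forall fun ξ => by
    rw [Real.norm_eq_abs]; exact hC ξ)
  refine h3.congr (Filter.Eventually.of_forall fun ξ => ?_)
  simp only
  ring

lemma TP_pow_int (S : Finset ℕ) (c : ℕ → ℂ) (l : ℕ → ℝ) (k : ℕ) : Integrable (fun ξ => kap ξ * ‖TP S c l ξ‖ ^ k) := by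
  apply kap_bdd_int (fun ξ => ‖TP S c l ξ‖ ^ k) ((TP_cont S c l).norm.pow k) ((∑ n ∈ S, ‖c n‖) ^ k)
  intro ξ
  show |‖TP S c l ξ‖ ^ k| ≤ (∑ n ∈ S, ‖c n‖) ^ k
  rw [abs_of_nonneg (by positivity)]
  have := TP_le S c l (fun n => ‖c n‖) (fun _ _ => le_rfl) ξ
  gcongr

lemma tw_even (x : ℝ) : tw (-x) = tw x := by
  unfold Pool.Agent.H376R2.MR.w
  rw [abs_neg]

/-- mean square -/
theorem ms (S : Finset ℕ) (c : ℕ → ℂ) (l : ℕ → ℝ) (a : ℕ → ℝ) (hca : ∀ n ∈ S, ‖c n‖ ≤ a n) (Q : ℝ)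
    (hQ : ∑ n ∈ S, a n * ∑ m ∈ S, a m * tw (l n - l m) ≤ Q) :
    ∫ ξ, kap ξ * ‖TP S c l ξ‖ ^ 2 ≤ Q := by
  have h1 : ((∫ ξ, kap ξ * ‖TP S c l ξ‖ ^ 2 : ℝ) : ℂ) =
      ∑ p ∈ S ×ˢ S, (c p.1 * (starRingEnd ℂ) (c p.2)) * (tw (l p.1 - l p.2) : ℂ) := by
    rw [← kap_poly, ← integral_complex_ofReal]
    congr 1
    funext ξ
    have h2 : ((‖TP S c l ξ‖ ^ 2 : ℝ) : ℂ) = TP S c l ξ * (starRingEnd ℂ) (TP S c l ξ) := by
      rw [Complex.mul_conj, Complex.normSq_eq_norm_sq]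
    rw [Complex.ofReal_mul, h2]
    congr 1
    unfold TP
    rw [map_sum, sum_mul_sum, ← sum_product']
    apply sum_congr rfl
    intro p _
    rw [map_mul]
    rw [← er_sub']
    ring
  have h3 : ‖((∫ ξ, kap ξ * ‖TP S c l ξ‖ ^ 2 : ℝ) : ℂ)‖ ≤ Q := by
    rw [h1]
    refine ((norm_sum_le _ _).trans ?_).trans hQ
    rw [sum_product]
    apply sum_le_sum
    intro n hn
    rw [mul_sum]
    apply sum_le_sum
    intro m hm
    rw [norm_mul, norm_mul, Complex.norm_conj, Complex.norm_real, Real.norm_eq_abs]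
    have h4 : 0 ≤ tw (l n - l m) := le_max_left _ _
    rw [abs_of_nonneg h4, ← mul_assoc]
    have h5 := hca n hn
    have h6 := hca m hm
    have h7 : 0 ≤ a n := (norm_nonneg _).trans h5
    gcongr
  rw [Complex.norm_real, Real.norm_eq_abs] at h3
  exact (le_abs_self _).trans h3

/-- the cube -/
theorem cube_eq (S : Finset ℕ) (c : ℕ → ℂ) (l : ℕ → ℝ) (V : ℝ) :
    ∑ n₁ ∈ S, ∑ n₂ ∈ S, ∑ n₃ ∈ S, c n₁ * c n₂ * c n₃ * (tw (l n₁ + l n₂ + l n₃ - V) : ℂ) =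
      ∫ ξ : ℝ, (kap ξ : ℂ) * (TP S c l ξ ^ 3 * er (2 * Real.pi * ξ) (-V)) := by
  have h1 : ∑ n₁ ∈ S, ∑ n₂ ∈ S, ∑ n₃ ∈ S, c n₁ * c n₂ * c n₃ * (tw (l n₁ + l n₂ + l n₃ - V) : ℂ) =
      ∑ p ∈ S ×ˢ (S ×ˢ S), (c p.1 * c p.2.1 * c p.2.2) * (tw (l p.1 + l p.2.1 + l p.2.2 - V) : ℂ) := by
    rw [sum_product]
    apply sum_congr rfl
    intro n₁ _
    rw [sum_product]
  rw [h1, ← kap_poly]
  congr 1
  funext ξ
  congr 1
  unfold TP
  rw [pow_succ, pow_two, sum_mul_sum, ← sum_product', sum_mul_sum, ← sum_product', sum_mul]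
  rw [sum_product, sum_product, sum_product]
  apply sum_congr rfl
  intro n₁ _
  rw [sum_product]
  apply sum_congr rfl
  intro n₂ _
  apply sum_congr rfl
  intro n₃ _
  simp only
  rw [show l n₁ + l n₂ + l n₃ - V = l n₁ + (l n₂ + (l n₃ + -V)) by ring, kern_er_add, kern_er_add, kern_er_add]
  ring

theorem cube_le (S : Finset ℕ) (c : ℕ → ℂ) (l : ℕ → ℝ) (V : ℝ) :
    ‖∑ n₁ ∈ S, ∑ n₂ ∈ S, ∑ n₃ ∈ S, c n₁ * c n₂ * c n₃ * (tw (l n₁ + l n₂ + l n₃ - V) : ℂ)‖ ≤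
      ∫ ξ : ℝ, kap ξ * ‖TP S c l ξ‖ ^ 3 := by
  rw [cube_eq]
  refine (norm_integral_le_integral_norm _).trans (le_of_eq ?_)
  congr 1
  funext ξ
  rw [norm_mul, norm_mul, kern_er_norm, mul_one, norm_pow, Complex.norm_real, Real.norm_eq_abs,
    abs_of_nonneg (kap_nonneg ξ)]

end Pool.Agent.Y851.HZ
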