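import Pool.Agent.H20R2.EN.FLem
import Pool.Agent.W41.Sieve
import Pool.Agent.W333.MH.FL

/-! The fundamental lemma for all primes up to `z`, with weights and relative errors `E / d`. -/

set_option autoImplicit false

namespace Pool.Agent.Y851.HZ
open Finset
open Pool.Agent.H318R2.Cr (Rgh Pz mem_Pz one_sub_inv_pos V_pos V_le_one)
open Pool.Agent.H318R2.Cr renaming V → VV
open Pool.Agent.W41 (JJ JJ_lt JJ_le)

lemma small_primes (Ω : Finset ℕ) (w : ℕ → ℝ) (A E : ℝ) (hE : 0 ≤ E) (D : ℕ)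
    (h : ∀ T : Finset ℕ, (∀ p ∈ T, p.Prime) → ∏ p ∈ T, p ≤ D →
      |∑ m ∈ Ω.filter (fun m => ∀ p ∈ T, p ∣ m), w m - A * ∏ p ∈ T, (1 / (p : ℝ))| ≤
        E * ∏ p ∈ T, (1 / (p : ℝ))) (P0 : Finset ℕ) :
    (∀ p ∈ P0, p.Prime) → ∀ T : Finset ℕ, (∀ p ∈ T, p.Prime) → Disjoint P0 T →
      (∏ p ∈ P0, p) * ∏ p ∈ T, p ≤ D →
      |∑ m ∈ Ω.filter (fun m => (∀ p ∈ P0, ¬ p ∣ m) ∧ ∀ p ∈ T, p ∣ m), w m -
        A * (∏ p ∈ P0, (1 - 1 / (p : ℝ))) * ∏ p ∈ T, (1 / (p : ℝ))| ≤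
        2 ^ P0.card * E * ∏ p ∈ T, (1 / (p : ℝ)) := by
  induction P0 using Finset.induction_on with
  | empty =>
    intro _ T hT _ hD
    simpa using h T hT (by simpa using hD)
  | insert q P0 hq ih =>
    intro hP T hT hdis hD
    have hqp : q.Prime := hP q (mem_insert_self _ _)
    have hP0 : ∀ p ∈ P0, p.Prime := fun p hp => hP p (mem_insert_of_mem hp)
    have hqT : q ∉ T := fun hqT => (disjoint_left.1 hdis) (mem_insert_self _ _) hqT
    have hdis0 : Disjoint P0 T := disjoint_of_subset_left (subset_insert _ _) hdis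
    rw [prod_insert hq] at hD
    have hD1 : (∏ p ∈ P0, p) * ∏ p ∈ T, p ≤ D := by
      refine le_trans ?_ hD
      rw [mul_assoc]
      exact Nat.le_mul_of_pos_left _ hqp.pos
    have hD2 : (∏ p ∈ P0, p) * ∏ p ∈ insert q T, p ≤ D := by
      rw [prod_insert hqT]
      refine le_trans (le_of_eq ?_) hD
      ring
    have h1 := ih hP0 T hT hdis0 hD1
    have h2 := ih hP0 (insert q T) (fun p hp => by
      rcases mem_insert.1 hp with rfl | hp
      · exact hqp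
      · exact hT p hp) (by
      rw [disjoint_insert_right]
      exact ⟨hq, hdis0⟩) hD2
    rw [prod_insert hqT] at h2
    have hsplit : ∑ m ∈ Ω.filter (fun m => (∀ p ∈ insert q P0, ¬ p ∣ m) ∧ ∀ p ∈ T, p ∣ m), w m =
        ∑ m ∈ Ω.filter (fun m => (∀ p ∈ P0, ¬ p ∣ m) ∧ ∀ p ∈ T, p ∣ m), w m -
        ∑ m ∈ Ω.filter (fun m => (∀ p ∈ P0, ¬ p ∣ m) ∧ ∀ p ∈ insert q T, p ∣ m), w m := by
      rw [eq_sub_iff_add_eq]
      rw [← sum_filter_add_sum_filter_not (Ω.filter (fun m => (∀ p ∈ P0, ¬ p ∣ m) ∧ ∀ p ∈ T, p ∣ m)) (fun m => ¬ q ∣ m)]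
      rw [filter_filter, filter_filter]
      congr 1
      · apply sum_congr _ (fun _ _ => rfl)
        apply filter_congr
        intro m _
        simp only [forall_mem_insert]
        tauto
      · apply sum_congr _ (fun _ _ => rfl)
        apply filter_congr
        intro m _
        simp only [forall_mem_insert]
        tauto
    rw [hsplit, prod_insert hq, card_insert_of_notMem hq]
    have hq0 : (0 : ℝ) < q := by exact_mod_cast hqp.pos
    have hq1 : 1 / (q : ℝ) ≤ 1 := by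
      rw [div_le_one hq0]; exact_mod_cast hqp.one_lt.le
    set R := ∏ p ∈ T, (1 / (p : ℝ)) with hR
    have hR0 : 0 ≤ R := prod_nonneg fun p _ => by positivity
    set V0 := ∏ p ∈ P0, (1 - 1 / (p : ℝ)) with hV0
    set S1 := ∑ m ∈ Ω.filter (fun m => (∀ p ∈ P0, ¬ p ∣ m) ∧ ∀ p ∈ T, p ∣ m), w m with hS1
    set S2 := ∑ m ∈ Ω.filter (fun m => (∀ p ∈ P0, ¬ p ∣ m) ∧ ∀ p ∈ insert q T, p ∣ m), w m with hS2
    have e1 : S1 - S2 - A * ((1 - 1 / (q : ℝ)) * V0) * R =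
        (S1 - A * V0 * R) - (S2 - A * V0 * (1 / (q : ℝ) * R)) := by ring
    rw [e1]
    refine (abs_sub _ _).trans ?_
    have h3 : 2 ^ P0.card * E * (1 / (q : ℝ) * R) ≤ 2 ^ P0.card * E * R := by
      apply mul_le_mul_of_nonneg_left _ (by positivity)
      calc 1 / (q : ℝ) * R ≤ 1 * R := by gcongr
        _ = R := one_mul R
    rw [pow_succ]
    linarith

lemma inv_sum (P : Finset ℕ) (hP : ∀ p ∈ P, p.Prime) (D : ℕ) :
    ∑ T ∈ P.powerset.filter (fun T : Finset ℕ => ∏ p ∈ T, p ≤ D), ∏ p ∈ T, (1 / (p : ℝ)) ≤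
      1 + Real.log D := by
  have h1 : ∀ T ∈ P.powerset.filter (fun T : Finset ℕ => ∏ p ∈ T, p ≤ D), ∏ p ∈ T, (1 / (p : ℝ)) =
      (fun d : ℕ => 1 / (d : ℝ)) (∏ p ∈ T, p) := by
    intro T _
    simp only [one_div, prod_inv_distrib]
    push_cast
    rfl
  rw [sum_congr rfl h1]
  have hinj : Set.InjOn (fun T : Finset ℕ => ∏ p ∈ T, p)
      (P.powerset.filter (fun T : Finset ℕ => ∏ p ∈ T, p ≤ D) : Set (Finset ℕ)) := by
    intro T hT T' hT' he
    rw [mem_coe, mem_filter, mem_powerset] at hT hT'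
    have h2 := Nat.primeFactors_prod (fun p hp => hP p (hT.1 hp))
    have h3 := Nat.primeFactors_prod (fun p hp => hP p (hT'.1 hp))
    rw [← h2, ← h3]
    exact congrArg Nat.primeFactors he
  rw [← sum_image (f := fun d : ℕ => 1 / (d : ℝ)) hinj]
  have h4 : ((P.powerset.filter (fun T : Finset ℕ => ∏ p ∈ T, p ≤ D)).image
      (fun T : Finset ℕ => ∏ p ∈ T, p)) ⊆ Icc 1 D := by
    intro d hd
    rw [mem_image] at hd
    obtain ⟨T, hT, rfl⟩ := hd
    rw [mem_filter, mem_powerset] at hT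
    rw [mem_Icc]
    exact ⟨Nat.one_le_iff_ne_zero.2 (prod_ne_zero_iff.2 fun p hp => (hP p (hT.1 hp)).ne_zero), hT.2⟩
  refine (sum_le_sum_of_subset_of_nonneg h4 (fun _ _ _ => by positivity)).trans ?_
  have h := harmonic_le_one_add_log D
  rw [harmonic_eq_sum_Icc] at h
  push_cast at h
  refine le_trans (le_of_eq ?_) h
  exact Finset.sum_congr rfl (fun i _ => by rw [one_div])

open Classical in
/-- the sieve with all primes up to `z` -/
theorem sieve_all : ∃ C0 K0 : ℕ, 1 ≤ C0 ∧ 1 ≤ K0 ∧ ∀ b : ℕ, C0 ≤ b → ∀ z : ℕ, 2 ≤ z →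
    ∀ (Ω : Finset ℕ) (w : ℕ → ℝ) (A E : ℝ), (∀ m ∈ Ω, 0 ≤ w m) → 0 ≤ A → 0 ≤ E →
    (∀ d : ℕ, 1 ≤ d → d ≤ K0 * z ^ (2 * (C0 * b)) →
      |∑ m ∈ Ω.filter (fun m => d ∣ m), w m - A / d| ≤ E / d) →
    |∑ m ∈ Ω.filter (fun m => Rgh z m), w m - A * VV z| ≤
      (1 / 2 : ℝ) ^ b * (A * VV z) + K0 * b * E * Real.log z ^ 2 := by
  obtain ⟨C0, hC0, hFL⟩ := Pool.Agent.H20R2.fLem 1
  set P00 : Finset ℕ := (Icc 1 C0).filter Nat.Prime with hP00
  set Kp : ℕ := ∏ p ∈ P00, p with hKp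
  have hKp1 : 1 ≤ Kp := Nat.pos_of_ne_zero (prod_ne_zero_iff.2 fun p hp => (mem_filter.1 hp).2.ne_zero)
  refine ⟨C0, 24 * 2 ^ C0 * C0 * Kp, hC0, ?_, ?_⟩
  · have : 0 < 24 * 2 ^ C0 * C0 * Kp := by positivity
    exact this
  intro b hb z hz Ω w A E hw hA hE hyp
  set P0 : Finset ℕ := (Pz z).filter (fun p => p ≤ C0) with hP0
  set P1 : Finset ℕ := (Pz z).filter (fun p => ¬ p ≤ C0) with hP1
  have hPu : Pz z = P0 ∪ P1 := (filter_union_filter_not_eq _ _).symm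
  have hdisj : Disjoint P0 P1 := disjoint_filter_filter_not _ _ _
  have hPp0 : ∀ p ∈ P0, p.Prime := fun p hp => (mem_Pz.1 (mem_filter.1 hp).1).1
  have hJ := JJ_lt z
  have hPp1 : ∀ p ∈ P1, p.Prime ∧ C0 < p ∧ p ≤ 2 ^ 2 ^ JJ z := by
    intro p hp
    rw [hP1, mem_filter] at hp
    have := mem_Pz.1 hp.1
    exact ⟨this.1, by omega, this.2.trans hJ.le⟩
  have hP0K : ∏ p ∈ P0, p ≤ Kp := by
    rw [hKp]
    apply Nat.le_of_dvd hKp1
    apply prod_dvd_prod_of_subset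
    intro p hp
    rw [hP0, mem_filter] at hp
    rw [hP00, mem_filter, mem_Icc]
    exact ⟨⟨(mem_Pz.1 hp.1).1.one_lt.le, hp.2⟩, (mem_Pz.1 hp.1).1⟩
  have hP0c : P0.card ≤ C0 := by
    have : P0 ⊆ Icc 1 C0 := by
      intro p hp
      rw [hP0, mem_filter] at hp
      rw [mem_Icc]
      exact ⟨(mem_Pz.1 hp.1).1.one_lt.le, hp.2⟩
    simpa using card_le_card this
  set D1 : ℕ := (2 ^ 2 ^ JJ z) ^ (C0 * b) with hD1
  have hD1z : D1 ≤ z ^ (2 * (C0 * b)) := by
    rw [hD1, pow_mul z 2]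
    exact Nat.pow_le_pow_left (JJ_le z hz) _
  have hsmall := small_primes Ω w A E hE (24 * 2 ^ C0 * C0 * Kp * z ^ (2 * (C0 * b))) (by
    intro T hT hTD
    have h1 := hyp (∏ p ∈ T, p) (Nat.one_le_iff_ne_zero.2 (prod_ne_zero_iff.2 fun p hp => (hT p hp).ne_zero)) hTD
    have h2 : ∏ p ∈ T, (1 / (p : ℝ)) = 1 / ((∏ p ∈ T, p : ℕ) : ℝ) := by
      simp only [one_div, prod_inv_distrib]
      push_cast
      rfl
    rw [h2, mul_one_div, mul_one_div]
    refine le_trans (le_of_eq ?_) h1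
    congr 2
    apply sum_congr _ (fun _ _ => rfl)
    apply filter_congr
    intro m _
    constructor
    · intro h3
      exact Finset.prod_primes_dvd m (fun p hp => (hT p hp).prime) h3
    · intro h3 p hp
      exact (dvd_prod_of_mem _ hp).trans h3) P0 hPp0
  have key := hFL b (JJ z) C0 P1 (fun p => 1 / (p : ℝ)) hb le_rfl hPp1 (fun p hp => by
      have hp0 : (0 : ℝ) < p := by exact_mod_cast (hPp1 p hp).1.pos
      have hp1 : (1 : ℝ) < p := by exact_mod_cast (hPp1 p hp).1.one_lt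
      refine ⟨by positivity, ?_⟩
      push_cast
      apply one_div_le_one_div_of_le (by linarith) (by linarith))
    (Ω.filter (fun m => ∀ p ∈ P0, ¬ p ∣ m)) w (fun p m => p ∣ m) (A * ∏ p ∈ P0, (1 - 1 / (p : ℝ)))
    (fun T => 2 ^ P0.card * E * ∏ p ∈ T, (1 / (p : ℝ)))
    (fun m hm => hw m (mem_filter.1 hm).1)
    (mul_nonneg hA (prod_nonneg fun p hp => (one_sub_inv_pos (hPp0 p hp)).le)) (by
      intro T hT hTD
      have h1 := hsmall T (fun p hp => (hPp1 p (hT hp)).1) (disjoint_of_subset_right hT hdisj) (by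
        calc (∏ p ∈ P0, p) * ∏ p ∈ T, p ≤ Kp * z ^ (2 * (C0 * b)) := Nat.mul_le_mul hP0K (hTD.trans hD1z)
          _ ≤ 24 * 2 ^ C0 * C0 * Kp * z ^ (2 * (C0 * b)) := by
            apply Nat.mul_le_mul_right
            have : 0 < 24 * 2 ^ C0 * C0 := by positivity
            exact Nat.le_mul_of_pos_left _ this)
      rw [filter_filter]
      refine le_trans (le_of_eq ?_) h1
      congr 2
      exact sum_congr (by ext m; simp only [mem_filter]) (fun _ _ => rfl))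
  have hVV : (∏ p ∈ P0, (1 - 1 / (p : ℝ))) * ∏ p ∈ P1, (1 - 1 / (p : ℝ)) = VV z := by
    unfold Pool.Agent.H318R2.Cr.V
    rw [hPu, prod_union hdisj]
  rw [mul_assoc A, hVV] at key
  have hset : ∑ m ∈ (Ω.filter (fun m => ∀ p ∈ P0, ¬ p ∣ m)).filter (fun m => ∀ p ∈ P1, ¬ p ∣ m), w m =
      ∑ m ∈ Ω.filter (fun m => Rgh z m), w m := by
    rw [filter_filter]
    apply sum_congr _ (fun _ _ => rfl)
    apply filter_congr
    intro m _
    constructor
    · rintro ⟨h1, h2⟩ p hp hpz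
      have : p ∈ Pz z := mem_Pz.2 ⟨hp, hpz⟩
      rw [hPu, mem_union] at this
      rcases this with h | h
      · exact h1 p h
      · exact h2 p h
    · intro h
      constructor
      · intro p hp
        have := mem_Pz.1 (mem_filter.1 hp).1
        exact h p this.1 this.2
      · intro p hp
        have := mem_Pz.1 (mem_filter.1 hp).1
        exact h p this.1 this.2
  have key2 : |∑ m ∈ Ω.filter (fun m => Rgh z m), w m - A * VV z| ≤ (1 / 2 : ℝ) ^ b * (A * VV z) +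
      ((JJ z : ℝ) + 2) * ∑ T ∈ P1.powerset.filter (fun T : Finset ℕ => ∏ p ∈ T, p ≤ D1),
        2 ^ P0.card * E * ∏ p ∈ T, (1 / (p : ℝ)) := by
    rw [← hset]
    refine le_trans (le_of_eq ?_) key
    congr 2
    exact sum_congr (by ext m; simp only [mem_filter]) (fun _ _ => rfl)
  refine key2.trans ?_
  apply add_le_add_right
  rw [← mul_sum]
  have hJ2 := Pool.Agent.W333.MH.JJ_log hz
  have hsum := inv_sum P1 (fun p hp => (hPp1 p hp).1) D1
  have hz1 : (2 : ℝ) ≤ z := by exact_mod_cast hz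
  have hlz : (0.6931471803 : ℝ) < Real.log z :=
    lt_of_lt_of_le Real.log_two_gt_d9 (Real.log_le_log (by norm_num) hz1)
  have hlD : 1 + Real.log D1 ≤ 4 * C0 * b * Real.log z := by
    have hD10 : (1 : ℝ) ≤ D1 := by
      have : 1 ≤ D1 := Nat.one_le_pow _ _ (by positivity)
      exact_mod_cast this
    have h1 : Real.log D1 ≤ 2 * (C0 * b) * Real.log z := by
      have h2 : (D1 : ℝ) ≤ (z : ℝ) ^ (2 * (C0 * b)) := by exact_mod_cast hD1z
      have h3 := Real.log_le_log (by linarith) h2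
      rw [Real.log_pow] at h3
      push_cast at h3
      exact h3
    have h4 : (1 : ℝ) ≤ C0 * b := by
      have : 1 ≤ C0 * b := Nat.mul_pos hC0 (hC0.trans hb)
      exact_mod_cast this
    nlinarith
  have hc2 : (2 : ℝ) ^ P0.card ≤ 2 ^ C0 := pow_le_pow_right₀ (by norm_num) hP0c
  have hs0 : 0 ≤ ∑ T ∈ P1.powerset.filter (fun T : Finset ℕ => ∏ p ∈ T, p ≤ D1), ∏ p ∈ T, (1 / (p : ℝ)) :=
    sum_nonneg fun T _ => prod_nonneg fun p _ => by positivity
  calc ((JJ z : ℝ) + 2) * (2 ^ P0.card * E * ∑ T ∈ P1.powerset.filter (fun T : Finset ℕ => ∏ p ∈ T, p ≤ D1), ∏ p ∈ T, (1 / (p : ℝ)))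
      ≤ (6 * Real.log z) * (2 ^ C0 * E * (4 * C0 * b * Real.log z)) := by
        gcongr
        exact hsum.trans hlD
    _ = 24 * 2 ^ C0 * C0 * 1 * b * E * Real.log z ^ 2 := by ring
    _ ≤ 24 * 2 ^ C0 * C0 * (Kp : ℝ) * b * E * Real.log z ^ 2 := by
        have : (1 : ℝ) ≤ Kp := by exact_mod_cast hKp1
        gcongr
    _ = ((24 * 2 ^ C0 * C0 * Kp : ℕ) : ℝ) * b * E * Real.log z ^ 2 := by push_cast; ring

end Pool.Agent.Y851.HZ
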