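import Pool.Agent.Y851.HZ.T1
import Pool.Agent.Y851.HZ.Sv

/-! Twisted sums over rough numbers in windows. -/

set_option autoImplicit false

namespace Pool.Agent.Y851.HZ
open Finset
open Pool.Agent.H376R2.MR (er kern_er_cont kern_er_norm kern_er_add)
open Pool.Agent.H318R2.Cr (Rgh Pz mem_Pz one_sub_inv_pos V_pos V_le_one)
open Pool.Agent.H318R2.Cr renaming V → VV

open Classical in
/-- sums over rough numbers in windows -/
noncomputable def SR (z : ℕ) (g : ℝ → ℝ) (v τ : ℝ) : ℂ :=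
  ∑ n ∈ (Icc 1 ⌊Real.exp (v + 1)⌋₊).filter (fun n => Rgh z n),
    ((g (Real.log n - v) / n : ℝ) : ℂ) * er τ (Real.log n)

lemma er_zero (x : ℝ) : er 0 x = 1 := by
  unfold Pool.Agent.H376R2.MR.er
  simp

lemma mult_sum (g : ℝ → ℝ) (v τ : ℝ) {d : ℕ} (hd : 1 ≤ d) :
    ∑ n ∈ (Icc 1 ⌊Real.exp (v + 1)⌋₊).filter (fun n => d ∣ n),
      ((g (Real.log n - v) / n : ℝ) : ℂ) * er τ (Real.log n) =
      (1 / (d : ℂ)) * er τ (Real.log d) * SS g (v - Real.log d) τ := by
  have hd0 : (0 : ℝ) < d := by exact_mod_cast hd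
  have hfl : ⌊Real.exp (v - Real.log d + 1)⌋₊ = ⌊Real.exp (v + 1)⌋₊ / d := by
    rw [← Nat.floor_div_natCast]
    congr 1
    rw [show v - Real.log d + 1 = v + 1 - Real.log d by ring, Real.exp_sub, Real.exp_log hd0]
  unfold SS
  rw [hfl, mul_sum]
  refine sum_bij' (fun n _ => n / d) (fun m _ => d * m) ?_ ?_ ?_ ?_ ?_
  · intro n hn
    rw [mem_filter, mem_Icc] at hn
    rw [mem_Icc]
    obtain ⟨⟨h1, h2⟩, c, rfl⟩ := hn
    rw [Nat.mul_div_cancel_left _ hd]
    have hc : c ≠ 0 := by rintro rfl; simp at h1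
    refine ⟨by omega, ?_⟩
    rw [Nat.le_div_iff_mul_le hd, mul_comm]
    exact h2
  · intro m hm
    rw [mem_Icc] at hm
    rw [mem_filter, mem_Icc]
    refine ⟨⟨Nat.mul_pos hd hm.1, ?_⟩, dvd_mul_right _ _⟩
    have := (Nat.le_div_iff_mul_le hd).1 hm.2
    rw [mul_comm]; exact this
  · intro n hn
    rw [mem_filter] at hn
    exact Nat.mul_div_cancel' hn.2
  · intro m _
    exact Nat.mul_div_cancel_left _ hd
  · intro n hn
    rw [mem_filter, mem_Icc] at hn
    obtain ⟨⟨h1, h2⟩, c, rfl⟩ := hn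
    rw [Nat.mul_div_cancel_left _ hd]
    have hc : c ≠ 0 := by rintro rfl; simp at h1
    have hc0 : (0 : ℝ) < c := by exact_mod_cast Nat.pos_of_ne_zero hc
    have hl : Real.log ((d * c : ℕ) : ℝ) = Real.log d + Real.log c := by
      push_cast
      rw [Real.log_mul hd0.ne' hc0.ne']
    rw [hl, kern_er_add, show Real.log d + Real.log c - v = Real.log c - (v - Real.log d) by ring]
    push_cast
    have hdc : (d : ℂ) ≠ 0 := by exact_mod_cast hd0.ne'
    have hcc : (c : ℂ) ≠ 0 := by exact_mod_cast hc0.ne'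
    field_simp

lemma II_shift (g : ℝ → ℝ) (v τ L : ℝ) : er τ L * II g (v - L) τ = II g v τ := by
  unfold II
  rw [← intervalIntegral.integral_const_mul]
  have h := intervalIntegral.integral_comp_add_right (a := v - L - 1) (b := v - L + 1)
    (fun y : ℝ => (g (y - v) : ℂ) * er τ y) L
  rw [show v - L - 1 + L = v - 1 by ring, show v - L + 1 + L = v + 1 by ring] at h
  rw [← h]
  apply intervalIntegral.integral_congr
  intro y _
  simp only
  rw [kern_er_add, show y - (v - L) = y + L - v by ring]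
  ring

lemma II_norm_le {g : ℝ → ℝ} (hg : Wd g) (v τ : ℝ) : ‖II g v τ‖ ≤ (II g v 0).re := by
  have h0 : II g v 0 = ((∫ y in (v - 1)..(v + 1), g (y - v) : ℝ) : ℂ) := by
    unfold II
    rw [← intervalIntegral.integral_ofReal]
    apply intervalIntegral.integral_congr
    intro y _
    simp [er_zero]
  rw [h0, Complex.ofReal_re]
  unfold II
  refine (intervalIntegral.norm_integral_le_integral_norm (by linarith)).trans (le_of_eq ?_)
  apply intervalIntegral.integral_congr
  intro y _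
  simp only
  rw [norm_mul, kern_er_norm, mul_one, Complex.norm_real, Real.norm_eq_abs, abs_of_nonneg (hg.nonneg _)]

theorem rough_win : ∃ C0 K0 : ℕ, 1 ≤ C0 ∧ 1 ≤ K0 ∧ ∀ M : ℕ, ∃ η C : ℝ, 0 < η ∧ η ≤ 1 / 2 ∧ 0 < C ∧
    ∀ b : ℕ, C0 ≤ b → ∀ z : ℕ, 2 ≤ z → ∀ v : ℝ, 8 ≤ v → ((K0 * z ^ (2 * (C0 * b)) : ℕ) : ℝ) ≤ Real.exp (v / 2) →
    ∀ τ : ℝ, |τ| ≤ Real.exp (M * (v / 2)) → ∀ g : ℝ → ℝ, Wd g →
    ‖SR z g v τ - (VV z : ℂ) * II g v τ‖ ≤
      2 * (1 / 2 : ℝ) ^ b * VV z + K0 * b * (C * Real.exp (-(η * v))) * Real.log z ^ 2 := by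
  classical
  obtain ⟨C0, K0, hC0, hK0, hS⟩ := sieve_all
  refine ⟨C0, K0, hC0, hK0, fun M => ?_⟩
  obtain ⟨η, C, hη, hη1, hC, hT⟩ := type_one M
  refine ⟨η / 2, 2 * C, by positivity, by linarith, by positivity, ?_⟩
  intro b hb z hz v hv hD τ hτ g hg
  set N := ⌊Real.exp (v + 1)⌋₊ with hN
  set E : ℝ := 2 * C * Real.exp (-(η / 2 * v)) with hE
  have hE0 : 0 ≤ E := by positivity
  set a0 := (II g v 0).re with ha0
  have hII0 : II g v 0 = (a0 : ℂ) := by
    apply Complex.ext
    · simp [ha0]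
    · unfold II
      have : ∫ y in (v - 1)..(v + 1), (g (y - v) : ℂ) * er 0 y = ((∫ y in (v - 1)..(v + 1), g (y - v) : ℝ) : ℂ) := by
        rw [← intervalIntegral.integral_ofReal]
        apply intervalIntegral.integral_congr
        intro y _
        simp [er_zero]
      rw [this]
      simp
  have ha00 : 0 ≤ a0 := (norm_nonneg _).trans (II_norm_le hg v τ)
  have ha02 : a0 ≤ 2 := by
    have := II_le hg v 0
    rw [hII0, Complex.norm_real, Real.norm_eq_abs, abs_of_nonneg ha00] at this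
    exact this
  -- divisor sums
  have hdiv : ∀ σ : ℝ, |σ| ≤ Real.exp (M * (v / 2)) → ∀ d : ℕ, 1 ≤ d → d ≤ K0 * z ^ (2 * (C0 * b)) →
      ‖∑ n ∈ (Icc 1 N).filter (fun n => d ∣ n), ((g (Real.log n - v) / n : ℝ) : ℂ) * er σ (Real.log n) -
        (1 / (d : ℂ)) * II g v σ‖ ≤ E / 2 / d := by
    intro σ hσ d hd hdD
    have hd0 : (0 : ℝ) < d := by exact_mod_cast hd
    have hdv : (d : ℝ) ≤ Real.exp (v / 2) := le_trans (by exact_mod_cast hdD) hD
    have hld : Real.log d ≤ v / 2 := by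
      rw [Real.log_le_iff_le_exp hd0]; exact hdv
    have h1 := hT g hg (v - Real.log d) σ (by linarith) (hσ.trans (Real.exp_le_exp.2 (by
      apply mul_le_mul_of_nonneg_left _ (Nat.cast_nonneg M)
      linarith)))
    rw [mult_sum g v σ hd, ← II_shift g v σ (Real.log d)]
    rw [show 1 / (d : ℂ) * er σ (Real.log d) * SS g (v - Real.log d) σ -
      1 / (d : ℂ) * (er σ (Real.log d) * II g (v - Real.log d) σ) =
      1 / (d : ℂ) * er σ (Real.log d) * (SS g (v - Real.log d) σ - II g (v - Real.log d) σ) by ring]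
    rw [norm_mul, norm_mul, kern_er_norm, mul_one]
    have h2 : ‖1 / (d : ℂ)‖ = 1 / d := by
      rw [norm_div, norm_one]
      simp
    rw [h2]
    have h3 : Real.exp (-(η * (v - Real.log d))) ≤ Real.exp (-(η / 2 * v)) := by
      apply Real.exp_le_exp.2
      nlinarith
    calc 1 / (d : ℝ) * ‖SS g (v - Real.log d) σ - II g (v - Real.log d) σ‖
        ≤ 1 / (d : ℝ) * (C * Real.exp (-(η / 2 * v))) := by
          apply mul_le_mul_of_nonneg_left _ (by positivity)
          exact h1.trans (by gcongr)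
      _ = E / 2 / d := by rw [hE]; ring
  have habs0 : |(0 : ℝ)| ≤ Real.exp (M * (v / 2)) := by rw [abs_zero]; exact (Real.exp_pos _).le
  -- the sieve
  have key : ∀ c : ℂ, ‖c‖ ≤ 1 → |(SR z g v 0).re + (c * SR z g v τ).re - (a0 + (c * II g v τ).re) * VV z| ≤
      (1 / 2 : ℝ) ^ b * ((a0 + (c * II g v τ).re) * VV z) + K0 * b * E * Real.log z ^ 2 := by
    intro c hc
    have hwn : ∀ n : ℕ, g (Real.log n - v) / n * (1 + (c * er τ (Real.log n)).re) =
        (((g (Real.log n - v) / n : ℝ) : ℂ) * er 0 (Real.log n)).re +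
        (c * (((g (Real.log n - v) / n : ℝ) : ℂ) * er τ (Real.log n))).re := by
      intro n
      rw [er_zero, mul_one, Complex.ofReal_re]
      rw [show c * (((g (Real.log n - v) / n : ℝ) : ℂ) * er τ (Real.log n)) =
        ((g (Real.log n - v) / n : ℝ) : ℂ) * (c * er τ (Real.log n)) by ring, Complex.re_ofReal_mul]
      ring
    have hsumw : ∀ s : Finset ℕ, ∑ n ∈ s, g (Real.log n - v) / n * (1 + (c * er τ (Real.log n)).re) =
        (∑ n ∈ s, ((g (Real.log n - v) / n : ℝ) : ℂ) * er 0 (Real.log n)).re +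
        (c * ∑ n ∈ s, ((g (Real.log n - v) / n : ℝ) : ℂ) * er τ (Real.log n)).re := by
      intro s
      rw [mul_sum, Complex.re_sum, Complex.re_sum, ← sum_add_distrib]
      exact sum_congr rfl fun n _ => hwn n
    have hcre : ∀ x : ℂ, ‖x‖ ≤ 1 → -1 ≤ (c * x).re := by
      intro x hx
      have h1 := Complex.abs_re_le_norm (c * x)
      rw [norm_mul] at h1
      have h2 : ‖c‖ * ‖x‖ ≤ 1 := by
        calc ‖c‖ * ‖x‖ ≤ 1 * 1 := by gcongr
          _ = 1 := one_mul 1
      have := (abs_le.1 (h1.trans h2)).1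
      exact this
    have hA : 0 ≤ a0 + (c * II g v τ).re := by
      have h1 := Complex.abs_re_le_norm (c * II g v τ)
      rw [norm_mul] at h1
      have h2 : ‖c‖ * ‖II g v τ‖ ≤ a0 := by
        calc ‖c‖ * ‖II g v τ‖ ≤ 1 * a0 := by
              gcongr
              exact II_norm_le hg v τ
          _ = a0 := one_mul _
      have := (abs_le.1 (h1.trans h2)).1
      linarith
    have h := hS b hb z hz (Icc 1 N) (fun n => g (Real.log n - v) / n * (1 + (c * er τ (Real.log n)).re))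
      (a0 + (c * II g v τ).re) E (fun n _ => by
        apply mul_nonneg (div_nonneg (hg.nonneg _) (Nat.cast_nonneg _))
        have := hcre (er τ (Real.log n)) (kern_er_norm _ _).le
        linarith) hA hE0 (by
      intro d hd hdD
      have hd0 : (0 : ℝ) < d := by exact_mod_cast hd
      have h1 := hdiv 0 habs0 d hd hdD
      have h2 := hdiv τ hτ d hd hdD
      rw [hsumw]
      set S0 := ∑ n ∈ (Icc 1 N).filter (fun n => d ∣ n), ((g (Real.log n - v) / n : ℝ) : ℂ) * er 0 (Real.log n) with hS0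
      set S1 := ∑ n ∈ (Icc 1 N).filter (fun n => d ∣ n), ((g (Real.log n - v) / n : ℝ) : ℂ) * er τ (Real.log n) with hS1
      have h3 : S0.re + (c * S1).re - (a0 + (c * II g v τ).re) / d =
          (S0 - (1 / (d : ℂ)) * II g v 0).re + (c * (S1 - (1 / (d : ℂ)) * II g v τ)).re := by
        have e1 : (1 / (d : ℂ)) * II g v 0 = ((a0 / d : ℝ) : ℂ) := by
          rw [hII0]; push_cast; ring
        have e2 : c * (S1 - (1 / (d : ℂ)) * II g v τ) = c * S1 - ((1 / d : ℝ) : ℂ) * (c * II g v τ) := by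
          push_cast; ring
        rw [e1, e2, Complex.sub_re, Complex.sub_re, Complex.ofReal_re, Complex.re_ofReal_mul]
        ring
      rw [h3]
      refine (abs_add_le _ _).trans ?_
      have h4 := (Complex.abs_re_le_norm (S0 - (1 / (d : ℂ)) * II g v 0)).trans h1
      have h5 : |(c * (S1 - (1 / (d : ℂ)) * II g v τ)).re| ≤ E / 2 / d := by
        refine (Complex.abs_re_le_norm _).trans ?_
        rw [norm_mul]
        calc ‖c‖ * ‖S1 - (1 / (d : ℂ)) * II g v τ‖ ≤ 1 * (E / 2 / d) := by gcongr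
          _ = E / 2 / d := one_mul _
      have h6 : E / d = E / 2 / d + E / 2 / d := by ring
      rw [h6]
      exact add_le_add h4 h5)
    rw [hsumw] at h
    exact h
  -- both signs
  set D := SR z g v τ - (VV z : ℂ) * II g v τ with hDd
  have hVz := (V_pos z).le
  have hre : ∀ c : ℂ, ‖c‖ ≤ 1 → (c * D).re ≤ 2 * (1 / 2 : ℝ) ^ b * VV z + K0 * b * E * Real.log z ^ 2 := by
    intro c hc
    have h1 := (abs_le.1 (key c hc)).2
    have h2 := (abs_le.1 (key (-c) (by rwa [norm_neg]))).1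
    have e1 : (c * D).re = (c * SR z g v τ).re - VV z * (c * II g v τ).re := by
      rw [hDd, mul_sub, Complex.sub_re, show c * ((VV z : ℂ) * II g v τ) = (VV z : ℂ) * (c * II g v τ) by ring,
        Complex.re_ofReal_mul]
    rw [neg_mul, neg_mul, Complex.neg_re, Complex.neg_re] at h2
    rw [e1]
    have h3 : 0 ≤ (1 / 2 : ℝ) ^ b * VV z := by positivity
    nlinarith
  by_cases hD0 : D = 0
  · rw [hD0, norm_zero]
    have : 0 ≤ Real.log z ^ 2 := sq_nonneg _
    positivity
  · have hDn : 0 < ‖D‖ := norm_pos_iff.2 hD0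
    have h1 := hre ((starRingEnd ℂ) D / ‖D‖) (by
      rw [norm_div, Complex.norm_conj, Complex.norm_real, norm_norm, div_self hDn.ne'])
    have h2 : (starRingEnd ℂ) D / ‖D‖ * D = (‖D‖ : ℂ) := by
      have h3 : (starRingEnd ℂ) D * D = ((‖D‖ ^ 2 : ℝ) : ℂ) := by
        rw [mul_comm, Complex.mul_conj, Complex.normSq_eq_norm_sq]
      have h4 : (‖D‖ : ℂ) ≠ 0 := by exact_mod_cast hDn.ne'
      rw [div_mul_eq_mul_div, h3]
      push_cast
      field_simp
    rw [h2, Complex.ofReal_re] at h1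
    exact h1

end Pool.Agent.Y851.HZ
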