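import Pool.Agent.Y851.HZ.E2

/-! The inequality for the windows of the twisted von Mangoldt function. -/

set_option autoImplicit false

namespace Pool.Agent.Y851.HZ
open Finset
open Pool.Agent.H376R2.MR (er kern_er_cont kern_er_norm kern_er_add)
open Pool.Agent.H376R2.MR renaming w → tw
open Pool.Agent.H318R2.Cr (Rgh Pz mem_Pz one_sub_inv_pos V_pos V_le_one cz_bounds)
open Pool.Agent.H318R2.Cr renaming V → VV
open ArithmeticFunction (vonMangoldt)

lemma lam_range (S : Finset ℕ) (x h : ℝ) (hx : 0 ≤ x) (hh : 0 ≤ h) (hS : ∀ n ∈ S, 1 ≤ n ∧ x ≤ Real.log n ∧ Real.log n ≤ x + h) :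
    ∑ n ∈ S, vonMangoldt n / n ≤ 48 * (h + 2) := by
  have h0 := win_cover S (Icc ⌊x⌋₊ ⌊x + h⌋₊) (fun n => vonMangoldt n / n)
    (fun n _ => div_nonneg ArithmeticFunction.vonMangoldt_nonneg (Nat.cast_nonneg _))
    (fun n hn => (hS n hn).1) (fun n hn => by
      rw [mem_Icc]
      exact ⟨Nat.floor_le_floor (hS n hn).2.1, Nat.floor_le_floor (hS n hn).2.2⟩) (fun _ => 1) (fun n => vonMangoldt n / n)
    (fun _ _ => zero_le_one) (fun _ _ _ _ _ _ => by rw [one_mul]) 48 (fun j _ => by
      apply lam_win j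
      intro n hn
      have hnn := mem_filter.1 hn
      refine ⟨(hS n hnn.1).1, ?_⟩
      rw [abs_le]
      constructor <;> linarith [hnn.2.1, hnn.2.2])
  rw [sum_const, nsmul_eq_mul, mul_one, Nat.card_Icc] at h0
  have h1 : ⌊x⌋₊ ≤ ⌊x + h⌋₊ + 1 := (Nat.floor_le_floor (by linarith)).trans (Nat.le_succ _)
  rw [Nat.cast_sub h1] at h0
  push_cast at h0
  have h2 := Nat.floor_le (show 0 ≤ x + h by linarith)
  have h3 := Nat.lt_floor_add_one x
  linarith

/-- the norm of the window functional for nonnegative functions and `τ = 0` -/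
lemma WF_re (N : ℕ) (Y τ V : ℝ) (f : ArithmeticFunction ℝ) (hf : ∀ n, 0 ≤ f n) :
    ∑ n ∈ Icc 1 N, f n * (‖th Y τ n‖ * tw (Real.log n - V)) = ‖WF N Y 0 V f‖ := by
  have h1 : WF N Y 0 V f = ((∑ n ∈ Icc 1 N, f n * (‖th Y τ n‖ * tw (Real.log n - V)) : ℝ) : ℂ) := by
    unfold WF
    rw [Complex.ofReal_sum]
    apply sum_congr rfl
    intro n _
    rw [th_norm]
    unfold th
    rw [er_zero, mul_one]
    push_cast
    ring
  rw [h1, Complex.norm_real, Real.norm_eq_abs, abs_of_nonneg]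
  apply sum_nonneg
  intro n _
  have := hf n
  have := tw_nonneg (Real.log n - V)
  positivity

theorem star_ineq (z N : ℕ) (Y τ ν η W3 : ℝ) (hY : 1 ≤ Y) (hν0 : 0 ≤ ν) (hνY : ν ≤ Y) (hN : Real.exp (Y + 1) ≤ N)
    (hη0 : 0 ≤ η) (hη : ∀ V : ℝ, ν ≤ V → V ≤ Y → ‖WF N Y τ V (ER z)‖ ≤ η * Y)
    (hW3 : ‖WF N Y τ Y (LR z * LR z * LR z)‖ ≤ W3) :
    Y ^ 2 * ‖WF N Y τ Y (LR z)‖ ≤ 48 * (2 * Y + 1) + 2 * (96 * η * Y ^ 2 + 115200 * (ν + 3) ^ 2) + 2 * W3 +
      η * Y ^ 2 + 2400 * (Y + 2) := by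
  have hY0 : 0 < Y := by linarith
  have hid : WF N Y τ Y (DD (DD (LR z))) + 2 * WF N Y τ Y (LR z * ER z) =
      2 * WF N Y τ Y (LR z * LR z * LR z) + WF N Y τ Y (DD (ER z)) := by
    have h := congrArg (WF N Y τ Y) (cubic z)
    rw [WF_add, WF_add, WF_two, WF_two] at h
    exact h
  -- first term
  have h1 : ‖WF N Y τ Y (DD (DD (LR z))) - (Y ^ 2 : ℝ) * WF N Y τ Y (LR z)‖ ≤ 48 * (2 * Y + 1) := by
    have e1 : WF N Y τ Y (DD (DD (LR z))) - (Y ^ 2 : ℝ) * WF N Y τ Y (LR z) =
        ∑ n ∈ Icc 1 N, ((LR z n * (Real.log n ^ 2 - Y ^ 2) : ℝ) : ℂ) * (th Y τ n * (tw (Real.log n - Y) : ℂ)) := by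
      unfold WF
      rw [mul_sum, ← sum_sub_distrib]
      apply sum_congr rfl
      intro n _
      rw [DD_apply, DD_apply]
      push_cast
      ring
    rw [e1]
    refine (norm_sum_le _ _).trans ?_
    calc ∑ n ∈ Icc 1 N, ‖((LR z n * (Real.log n ^ 2 - Y ^ 2) : ℝ) : ℂ) * (th Y τ n * (tw (Real.log n - Y) : ℂ))‖
        ≤ ∑ n ∈ Icc 1 N, (2 * Y + 1) * (vonMangoldt n * (1 / n * tw (Real.log n - Y))) := by
          apply sum_le_sum
          intro n _
          have t0 := tw_nonneg (Real.log n - Y)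
          rw [norm_mul, norm_mul, Complex.norm_real, Complex.norm_real, Real.norm_eq_abs, Real.norm_eq_abs,
            abs_of_nonneg t0, abs_mul, abs_of_nonneg (LR_nonneg z n)]
          have e2 := LR_le z n
          have e3 := th_norm_le Y τ hY0 n
          have e4 := LR_nonneg z n
          by_cases hw : |Real.log n - Y| ≤ 1
          · have e5 : |Real.log n ^ 2 - Y ^ 2| ≤ 2 * Y + 1 := by
              rw [show Real.log n ^ 2 - Y ^ 2 = (Real.log n - Y) * (Real.log n + Y) by ring, abs_mul]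
              have e6 : |Real.log n + Y| ≤ 2 * Y + 1 := by
                rw [abs_of_nonneg (by linarith [Real.log_natCast_nonneg n])]
                linarith [(abs_le.1 hw).2]
              calc |Real.log n - Y| * |Real.log n + Y| ≤ 1 * (2 * Y + 1) := by gcongr
                _ = 2 * Y + 1 := one_mul _
            calc LR z n * |Real.log n ^ 2 - Y ^ 2| * (‖th Y τ n‖ * tw (Real.log n - Y))
                ≤ vonMangoldt n * (2 * Y + 1) * (1 / n * tw (Real.log n - Y)) := by
                  have : 0 ≤ vonMangoldt n := ArithmeticFunction.vonMangoldt_nonneg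
                  gcongr
              _ = _ := by ring
          · rw [tw_supp _ (le_of_not_ge hw)]
            simp
      _ = (2 * Y + 1) * ∑ n ∈ Icc 1 N, (vonMangoldt n * (1 / n * tw (Real.log n - Y))) := by rw [mul_sum]
      _ ≤ (2 * Y + 1) * 48 := by
          apply mul_le_mul_of_nonneg_left (lam_tent (Icc 1 N) (fun n hn => (mem_Icc.1 hn).1) Y) (by linarith)
      _ = 48 * (2 * Y + 1) := by ring
  -- last term
  have h2 : ‖WF N Y τ Y (DD (ER z))‖ ≤ η * Y ^ 2 + 2400 * (Y + 2) := by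
    have e1 : WF N Y τ Y (DD (ER z)) = (Y : ℂ) * WF N Y τ Y (ER z) +
        ∑ n ∈ Icc 1 N, ((ER z n * (Real.log n - Y) : ℝ) : ℂ) * (th Y τ n * (tw (Real.log n - Y) : ℂ)) := by
      unfold WF
      rw [mul_sum, ← sum_add_distrib]
      apply sum_congr rfl
      intro n _
      rw [DD_apply]
      push_cast
      ring
    rw [e1]
    refine (norm_add_le _ _).trans ?_
    have e2 : ‖(Y : ℂ) * WF N Y τ Y (ER z)‖ ≤ η * Y ^ 2 := by
      rw [norm_mul, Complex.norm_real, Real.norm_eq_abs, abs_of_pos hY0]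
      have := hη Y hνY le_rfl
      calc Y * ‖WF N Y τ Y (ER z)‖ ≤ Y * (η * Y) := by gcongr
        _ = η * Y ^ 2 := by ring
    have e3 : ‖∑ n ∈ Icc 1 N, ((ER z n * (Real.log n - Y) : ℝ) : ℂ) * (th Y τ n * (tw (Real.log n - Y) : ℂ))‖ ≤ 2400 * (Y + 2) := by
      refine (norm_sum_le _ _).trans ?_
      refine le_trans (sum_le_sum (g := fun n : ℕ => ER z n * (‖th Y τ n‖ * tw (Real.log n - Y))) ?_) ?_
      · intro n _
        have t0 := tw_nonneg (Real.log n - Y)
        rw [norm_mul, norm_mul, Complex.norm_real, Complex.norm_real, Real.norm_eq_abs, Real.norm_eq_abs,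
          abs_of_nonneg t0, abs_mul, abs_of_nonneg (ER_nonneg z n)]
        by_cases hw : |Real.log n - Y| ≤ 1
        · have e4 := ER_nonneg z n
          have e5 := norm_nonneg (th Y τ n)
          calc ER z n * |Real.log n - Y| * (‖th Y τ n‖ * tw (Real.log n - Y))
              ≤ ER z n * 1 * (‖th Y τ n‖ * tw (Real.log n - Y)) := by gcongr
            _ = _ := by ring
        · rw [tw_supp _ (le_of_not_ge hw)]
          simp
      · rw [WF_re N Y τ Y (ER z) (ER_nonneg z)]
        exact WF_ER z N Y 0 Y hY0 hN (by linarith)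
    exact add_le_add e2 e3
  -- the convolution
  have h3 : ‖WF N Y τ Y (LR z * ER z)‖ ≤ 96 * η * Y ^ 2 + 115200 * (ν + 3) ^ 2 := by
    rw [WF_mul N Y τ Y hN]
    refine (norm_sum_le _ _).trans ?_
    rw [← sum_filter_add_sum_filter_not (Icc 1 N) (fun d : ℕ => Real.log d ≤ Y - ν)]
    apply add_le_add
    · calc ∑ d ∈ (Icc 1 N).filter (fun d : ℕ => Real.log d ≤ Y - ν), ‖(LR z d : ℂ) * (th Y τ d * WF N Y τ (Y - Real.log d) (ER z))‖
          ≤ ∑ d ∈ (Icc 1 N).filter (fun d : ℕ => Real.log d ≤ Y - ν), η * Y * (vonMangoldt d / d * Real.exp (-(Real.log d / Y))) := by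
            apply sum_le_sum
            intro d hd
            rw [mem_filter] at hd
            have hld := Real.log_natCast_nonneg d
            rw [norm_mul, norm_mul, Complex.norm_real, Real.norm_eq_abs, abs_of_nonneg (LR_nonneg z d), th_norm]
            have e1 := LR_le z d
            have e2 := hη (Y - Real.log d) (by linarith [hd.2]) (by linarith)
            have e3 := LR_nonneg z d
            calc LR z d * (Real.exp (-(Real.log d / Y)) / d * ‖WF N Y τ (Y - Real.log d) (ER z)‖)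
                ≤ vonMangoldt d * (Real.exp (-(Real.log d / Y)) / d * (η * Y)) := by
                  have : 0 ≤ vonMangoldt d := ArithmeticFunction.vonMangoldt_nonneg
                  gcongr
              _ = _ := by ring
        _ = η * Y * ∑ d ∈ (Icc 1 N).filter (fun d : ℕ => Real.log d ≤ Y - ν), (vonMangoldt d / d * Real.exp (-(Real.log d / Y))) := by
            rw [mul_sum]
        _ ≤ η * Y * (96 * Y) := by
            apply mul_le_mul_of_nonneg_left _ (by positivity)
            exact lam_total Y hY _ (fun n hn => (mem_Icc.1 (mem_filter.1 hn).1).1)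
        _ = 96 * η * Y ^ 2 := by ring
    · calc ∑ d ∈ (Icc 1 N).filter (fun d : ℕ => ¬ Real.log d ≤ Y - ν), ‖(LR z d : ℂ) * (th Y τ d * WF N Y τ (Y - Real.log d) (ER z))‖
          ≤ ∑ d ∈ ((Icc 1 N).filter (fun d : ℕ => ¬ Real.log d ≤ Y - ν)).filter (fun d : ℕ => Real.log d ≤ Y + 1),
              2400 * (ν + 2) * (vonMangoldt d / d) := by
            rw [sum_filter (p := fun d : ℕ => Real.log d ≤ Y + 1)]
            apply sum_le_sum
            intro d hd
            rw [mem_filter, not_le] at hd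
            split_ifs with hw
            · rw [norm_mul, norm_mul, Complex.norm_real, Real.norm_eq_abs, abs_of_nonneg (LR_nonneg z d)]
              have e1 := LR_le z d
              have e2 := WF_ER z N Y τ (Y - Real.log d) hY0 ((Real.exp_le_exp.2 (by linarith [Real.log_natCast_nonneg d])).trans hN) (by linarith)
              have e3 := LR_nonneg z d
              have e4 := th_norm_le Y τ hY0 d
              have e5 : ‖WF N Y τ (Y - Real.log d) (ER z)‖ ≤ 2400 * (ν + 2) := e2.trans (by linarith [hd.2])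
              calc LR z d * (‖th Y τ d‖ * ‖WF N Y τ (Y - Real.log d) (ER z)‖)
                  ≤ vonMangoldt d * (1 / d * (2400 * (ν + 2))) := by
                    have : 0 ≤ vonMangoldt d := ArithmeticFunction.vonMangoldt_nonneg
                    gcongr
                _ = _ := by ring
            · rw [WF_zero N Y τ (Y - Real.log d) (by linarith [not_le.1 hw])]
              simp
        _ = 2400 * (ν + 2) * ∑ d ∈ ((Icc 1 N).filter (fun d : ℕ => ¬ Real.log d ≤ Y - ν)).filter (fun d : ℕ => Real.log d ≤ Y + 1),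
              vonMangoldt d / d := by rw [mul_sum]
        _ ≤ 2400 * (ν + 2) * (48 * ((ν + 1) + 2)) := by
            apply mul_le_mul_of_nonneg_left _ (by positivity)
            apply lam_range _ (Y - ν) (ν + 1) (by linarith) (by linarith)
            intro n hn
            rw [mem_filter, mem_filter, mem_Icc, not_le] at hn
            exact ⟨hn.1.1.1, hn.1.2.le, by linarith [hn.2]⟩
        _ ≤ 115200 * (ν + 3) ^ 2 := by nlinarith
  -- combine
  have e1 : ((Y ^ 2 : ℝ) : ℂ) * WF N Y τ Y (LR z) = -(WF N Y τ Y (DD (DD (LR z))) - (Y ^ 2 : ℝ) * WF N Y τ Y (LR z)) -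
      2 * WF N Y τ Y (LR z * ER z) + 2 * WF N Y τ Y (LR z * LR z * LR z) + WF N Y τ Y (DD (ER z)) := by
    linear_combination hid
  have e2 : Y ^ 2 * ‖WF N Y τ Y (LR z)‖ = ‖((Y ^ 2 : ℝ) : ℂ) * WF N Y τ Y (LR z)‖ := by
    rw [norm_mul, Complex.norm_real, Real.norm_eq_abs, abs_of_nonneg (by positivity : 0 ≤ Y ^ 2)]
  rw [e2, e1]
  have n2 : ‖(2 : ℂ)‖ = 2 := by simp
  have f1 := norm_add_le (-(WF N Y τ Y (DD (DD (LR z))) - (Y ^ 2 : ℝ) * WF N Y τ Y (LR z)) -
      2 * WF N Y τ Y (LR z * ER z) + 2 * WF N Y τ Y (LR z * LR z * LR z)) (WF N Y τ Y (DD (ER z)))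
  have f2 := norm_add_le (-(WF N Y τ Y (DD (DD (LR z))) - (Y ^ 2 : ℝ) * WF N Y τ Y (LR z)) -
      2 * WF N Y τ Y (LR z * ER z)) (2 * WF N Y τ Y (LR z * LR z * LR z))
  have f3 := norm_sub_le (-(WF N Y τ Y (DD (DD (LR z))) - (Y ^ 2 : ℝ) * WF N Y τ Y (LR z))) (2 * WF N Y τ Y (LR z * ER z))
  rw [norm_neg] at f3
  rw [norm_mul, n2] at f2 f3
  linarith

end Pool.Agent.Y851.HZ
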