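import Pool.Agent.Y851.HZ.S1

/-! The truncated series and the cube. -/

set_option autoImplicit false

namespace Pool.Agent.Y851.HZ
open Finset
open Pool.Agent.H376R2.MR (er kern_er_cont kern_er_norm kern_er_add)
open Pool.Agent.H376R2.MR renaming w → tw
open Pool.Agent.H318R2.Cr (Rgh Pz mem_Pz one_sub_inv_pos V_pos V_le_one cz_bounds)
open Pool.Agent.H318R2.Cr renaming V → VV
open ArithmeticFunction (vonMangoldt)

/-- the truncated series -/
lemma A_close (z : ℕ) (Y y B : ℝ) (hY : 1 ≤ Y) (hB : 0 ≤ B) (N : ℕ) (hN : Real.exp (B * Y) ≤ N) :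
    ‖∑ n ∈ Icc 1 N, (LR z n : ℂ) * th Y y n - LL z Y (-y)‖ ≤ 192 * Real.exp (-(B / 2)) * Y := by
  classical
  have hY0 : 0 < Y := by linarith
  set s : ℂ := 1 + ((1 / Y : ℝ) : ℂ) + Complex.I * ((-y : ℝ) : ℂ) with hs
  set f : ℕ → ℂ := fun n => ch0 z (n : ZMod (QQ z)) * (vonMangoldt n : ℂ) with hf
  have hterm : ∀ n : ℕ, 1 ≤ n → LSeries.term f s n = (LR z n : ℂ) * th Y y n := by
    intro n hn
    rw [LSeries.term_of_ne_zero (show n ≠ 0 by omega), div_eq_mul_one_div, hs, cpow_eq n hn, neg_neg]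
    have h1 : f n = (LR z n : ℂ) := by
      simp only [hf]
      unfold LR
      rw [res_apply]
      by_cases hr : Rgh z n
      · rw [ch0_one hr, if_pos hr, one_mul]
      · rw [ch0_zero hr, if_neg hr]; simp
    have h2 : 1 / Y * Real.log n = Real.log n / Y := by ring
    rw [h1, h2]
    rfl
  have hsum : Summable (fun n => LSeries.term f s n) := by
    have h1 : 1 < s.re := by
      rw [hs, re_s]
      have : 0 < 1 / Y := by positivity
      linarith
    exact DirichletCharacter.LSeriesSummable_twist_vonMangoldt (ch0 z) h1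
  have hLL : LL z Y (-y) = ∑' n, LSeries.term f s n := rfl
  rw [hLL]
  have hlim := hsum.hasSum
  have hlim2 : Filter.Tendsto (fun T : Finset ℕ => ∑ n ∈ Icc 1 N, (LR z n : ℂ) * th Y y n - ∑ n ∈ T, LSeries.term f s n)
      Filter.atTop (nhds (∑ n ∈ Icc 1 N, (LR z n : ℂ) * th Y y n - ∑' n, LSeries.term f s n)) :=
    tendsto_const_nhds.sub hlim
  refine le_of_tendsto hlim2.norm ?_
  filter_upwards [Filter.eventually_ge_atTop (Icc 1 N)] with T hT
  have h1 : ∑ n ∈ T, LSeries.term f s n = ∑ n ∈ T \ Icc 1 N, LSeries.term f s n + ∑ n ∈ Icc 1 N, LSeries.term f s n :=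
    (sum_sdiff hT).symm
  have h2 : ∑ n ∈ Icc 1 N, LSeries.term f s n = ∑ n ∈ Icc 1 N, (LR z n : ℂ) * th Y y n :=
    sum_congr rfl fun n hn => hterm n (mem_Icc.1 hn).1
  rw [h1, h2, sub_add_cancel_right, norm_neg]
  have h3 : ∑ n ∈ T \ Icc 1 N, LSeries.term f s n = ∑ n ∈ (T \ Icc 1 N).filter (fun n => 1 ≤ n), LSeries.term f s n := by
    symm
    apply sum_subset (filter_subset _ _)
    intro n hn hn2
    rw [mem_filter, not_and] at hn2
    have : n = 0 := by have := hn2 hn; omega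
    rw [this, LSeries.term_zero]
  rw [h3]
  refine (norm_sum_le _ _).trans ?_
  refine le_trans (sum_le_sum (g := fun n : ℕ => vonMangoldt n / n * Real.exp (-(Real.log n / Y))) ?_)
    (lam_tail Y hY B _ ?_)
  · intro n hn
    rw [mem_filter] at hn
    rw [hterm n hn.2, norm_mul, Complex.norm_real, Real.norm_eq_abs, abs_of_nonneg (LR_nonneg z n), th_norm]
    have := LR_le z n
    calc LR z n * (Real.exp (-(Real.log n / Y)) / n) ≤ vonMangoldt n * (Real.exp (-(Real.log n / Y)) / n) := by gcongr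
      _ = _ := by ring
  · intro n hn
    rw [mem_filter, mem_sdiff, mem_Icc] at hn
    refine ⟨hn.2, ?_⟩
    have h4 : N < n := by
      by_contra h
      exact hn.1.2 ⟨hn.2, by omega⟩
    have hn0 : (0 : ℝ) < n := by exact_mod_cast hn.2
    rw [Real.le_log_iff_exp_le hn0]
    exact hN.trans (by exact_mod_cast h4.le)

lemma WF_cube (z N : ℕ) (Y τ : ℝ) (hY : 1 ≤ Y) (hN : Real.exp (Y + 1) ≤ N) (D T₁ T₂ : ℝ) (hD : 0 ≤ D)
    (hT₁ : 4 ≤ T₁) (ht₁ : 2 * T₁ ≤ |τ|) (ht₂ : 2 * |τ| ≤ T₂)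
    (hsup : ∀ y : ℝ, T₁ ≤ |y| → |y| ≤ T₂ → ‖∑ n ∈ Icc 1 N, (LR z n : ℂ) * th Y y n‖ ≤ D) :
    ‖WF N Y τ Y (LR z * LR z * LR z)‖ ≤ D * (4608 * Y) + 13 * T₁ / τ ^ 2 * (96 * Y * (4608 * Y)) + 8 * (96 * Y) ^ 3 / T₂ := by
  have hY0 : 0 < Y := by linarith
  obtain ⟨a, ha⟩ : ∃ a : ℕ → ℝ, ∀ n, a n = LR z n * (Real.exp (-(Real.log n / Y)) / n) := ⟨_, fun _ => rfl⟩
  have ha0 : ∀ n, 0 ≤ a n := by
    intro n
    rw [ha]
    have := LR_nonneg z n
    positivity
  have hath : ∀ (y : ℝ) (n : ℕ), (LR z n : ℂ) * th Y y n = (a n : ℂ) * er y (Real.log n) := by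
    intro y n
    rw [ha]
    unfold th
    push_cast
    ring
  have hcube : WF N Y τ Y (LR z * LR z * LR z) =
      ∑ n₁ ∈ Icc 1 N, ∑ n₂ ∈ Icc 1 N, ∑ n₃ ∈ Icc 1 N, ((a n₁ : ℂ) * er τ (Real.log n₁)) * ((a n₂ : ℂ) * er τ (Real.log n₂)) *
        ((a n₃ : ℂ) * er τ (Real.log n₃)) * (tw (Real.log n₁ + Real.log n₂ + Real.log n₃ - Y) : ℂ) := by
    rw [mul_assoc, WF_mul N Y τ Y hN]
    apply sum_congr rfl
    intro d hd
    rw [WF_mul N Y τ (Y - Real.log d) ((Real.exp_le_exp.2 (by linarith [Real.log_natCast_nonneg d])).trans hN)]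
    rw [← mul_assoc, hath, mul_sum]
    apply sum_congr rfl
    intro e _
    unfold WF
    rw [← mul_assoc (LR z e : ℂ), hath, mul_sum, mul_sum]
    apply sum_congr rfl
    intro n _
    rw [← mul_assoc (LR z n : ℂ), hath]
    rw [show Real.log n - (Y - Real.log d - Real.log e) = Real.log d + Real.log e + Real.log n - Y by ring]
    ring
  rw [hcube]
  refine (cube_le (Icc 1 N) (fun n => (a n : ℂ) * er τ (Real.log n)) (fun n : ℕ => Real.log n) Y).trans ?_
  apply cube_bound (Icc 1 N) a (fun n _ => ha0 n) (fun n : ℕ => Real.log n) (96 * Y) (4608 * Y) D T₁ T₂ τ _ _ (by positivity)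
    hT₁ ht₁ ht₂ hD
  · intro y h1 h2
    have := hsup y h1 h2
    rw [sum_congr rfl (fun n _ => hath y n)] at this
    exact this
  · refine le_trans (sum_le_sum (g := fun n : ℕ => vonMangoldt n / n * Real.exp (-(Real.log n / Y))) ?_)
      (lam_total Y hY (Icc 1 N) (fun n hn => (mem_Icc.1 hn).1))
    intro n _
    rw [ha]
    have := LR_le z n
    calc LR z n * (Real.exp (-(Real.log n / Y)) / n) ≤ vonMangoldt n * (Real.exp (-(Real.log n / Y)) / n) := by gcongr
      _ = _ := by ring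
  · have hinner : ∀ n : ℕ, ∑ m ∈ Icc 1 N, a m * tw (Real.log n - Real.log m) ≤ 48 := by
      intro n
      refine le_trans (sum_le_sum fun m _ => ?_) (lam_tent (Icc 1 N) (fun n hn => (mem_Icc.1 hn).1) (Real.log n))
      have h1 : tw (Real.log n - Real.log m) = tw (Real.log m - Real.log n) := by
        rw [← tw_even, neg_sub]
      rw [h1, ha]
      have h2 := LR_le z m
      have h3 := tw_nonneg (Real.log m - Real.log n)
      have h4 : Real.exp (-(Real.log m / Y)) ≤ 1 := Real.exp_le_one_iff.2 (by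
        rw [neg_nonpos]
        exact div_nonneg (Real.log_natCast_nonneg m) hY0.le)
      have h5 := LR_nonneg z m
      calc LR z m * (Real.exp (-(Real.log m / Y)) / m) * tw (Real.log m - Real.log n)
          ≤ vonMangoldt m * (1 / m) * tw (Real.log m - Real.log n) := by
            have : 0 ≤ vonMangoldt m := ArithmeticFunction.vonMangoldt_nonneg
            gcongr
        _ = _ := by ring
    have hP : ∑ n ∈ Icc 1 N, a n ≤ 96 * Y := by
      refine le_trans (sum_le_sum (g := fun n : ℕ => vonMangoldt n / n * Real.exp (-(Real.log n / Y))) ?_)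
        (lam_total Y hY (Icc 1 N) (fun n hn => (mem_Icc.1 hn).1))
      intro n _
      rw [ha]
      have := LR_le z n
      calc LR z n * (Real.exp (-(Real.log n / Y)) / n) ≤ vonMangoldt n * (Real.exp (-(Real.log n / Y)) / n) := by gcongr
        _ = _ := by ring
    calc ∑ n ∈ Icc 1 N, a n * ∑ m ∈ Icc 1 N, a m * tw (Real.log n - Real.log m) ≤ ∑ n ∈ Icc 1 N, a n * 48 := by
          apply sum_le_sum
          intro n _
          exact mul_le_mul_of_nonneg_left (hinner n) (ha0 n)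
      _ = (∑ n ∈ Icc 1 N, a n) * 48 := by rw [sum_mul]
      _ ≤ 96 * Y * 48 := by gcongr
      _ = 4608 * Y := by ring

end Pool.Agent.Y851.HZ
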