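import Pool.Agent.Y851.HZ.S2

/-! The windows of the twisted von Mangoldt function on rough numbers are small. -/

set_option autoImplicit false

namespace Pool.Agent.Y851.HZ
open Finset
open Pool.Agent.H376R2.MR (er kern_er_cont kern_er_norm kern_er_add)
open Pool.Agent.H376R2.MR renaming w → tw
open Pool.Agent.H318R2.Cr (Rgh Pz mem_Pz one_sub_inv_pos V_pos V_le_one cz_bounds)
open Pool.Agent.H318R2.Cr renaming V → VV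
open ArithmeticFunction (vonMangoldt)

lemma WF_indep (N N' : ℕ) (Y τ V : ℝ) (h : Real.exp (V + 1) ≤ N) (hNN : N ≤ N') (f : ArithmeticFunction ℝ) :
    WF N' Y τ V f = WF N Y τ V f := by
  unfold WF
  symm
  apply sum_subset (Icc_subset_Icc le_rfl hNN)
  intro n hn hn2
  rw [mem_Icc] at hn hn2
  have h3 : N < n := by omega
  have hn0 : (0 : ℝ) < n := by exact_mod_cast hn.1
  have h4 : Real.exp (V + 1) < n := lt_of_le_of_lt h (by exact_mod_cast h3)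
  have h5 : V + 1 < Real.log n := by rwa [Real.lt_log_iff_exp_lt hn0]
  rw [tw_supp _ (by rw [abs_of_nonneg (by linarith)]; linarith)]
  simp

/-- the numerical combination -/
lemma comb {Y W η ν δ T₁ t2 T₂ κ c ε : ℝ} (hY : 1 ≤ Y) (_hε : 0 < ε) (_hW : 0 ≤ W)
    (hκ : 0 ≤ κ) (hc : 1 ≤ c)
    (h : Y ^ 2 * W ≤ 48 * (2 * Y + 1) + 2 * (96 * η * Y ^ 2 + 115200 * (ν + 3) ^ 2) +
      2 * (2 * δ * Y * (4608 * Y) + 13 * T₁ / t2 * (96 * Y * (4608 * Y)) + 8 * (96 * Y) ^ 3 / T₂) + η * Y ^ 2 + 2400 * (Y + 2))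
    (h1 : T₁ / t2 ≤ κ) (h2 : Y ^ 3 / T₂ ≤ 4 * Y) (h3 : η ≤ 31 * c * κ) (h4 : (ν + 3) ^ 2 ≤ 169 * c ^ 2 * (9 * κ) * Y ^ 2)
    (h5 : 18432 * δ ≤ ε / 4) (h6 : (2000000000 * c ^ 2) * κ ≤ ε / 4) (h7 : 60000000 / Y ≤ ε / 4) : W ≤ ε := by
  have hY0 : 0 < Y := by linarith
  have hY2 : 0 < Y ^ 2 := by positivity
  have e1 : 13 * T₁ / t2 * (96 * Y * (4608 * Y)) = 5750784 * (T₁ / t2) * Y ^ 2 := by ring
  have e2 : 8 * (96 * Y) ^ 3 / T₂ = 7077888 * (Y ^ 3 / T₂) := by ring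
  rw [e1, e2] at h
  have hcc : c ≤ c ^ 2 := by nlinarith
  have hc2 : 1 ≤ c ^ 2 := hc.trans hcc
  have g1 : 5750784 * (T₁ / t2) * Y ^ 2 ≤ 5750784 * κ * Y ^ 2 := by gcongr
  have g3 : 96 * η * Y ^ 2 ≤ 96 * (31 * c * κ) * Y ^ 2 := by gcongr
  have g4 : η * Y ^ 2 ≤ (31 * c * κ) * Y ^ 2 := by gcongr
  have g5 : (7344 + 2 * 7077888 * 4) * Y ≤ ε / 4 * Y ^ 2 := by
    rw [div_le_iff₀ hY0] at h7
    nlinarith
  have g6 : 18432 * δ * Y ^ 2 ≤ ε / 4 * Y ^ 2 := by gcongr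
  have g7 : (2000000000 * c ^ 2) * κ * Y ^ 2 ≤ ε / 4 * Y ^ 2 := by gcongr
  have g8 : c * κ * Y ^ 2 ≤ c ^ 2 * κ * Y ^ 2 := by gcongr
  have g9 : κ * Y ^ 2 ≤ c ^ 2 * κ * Y ^ 2 := by
    have : 0 ≤ κ * Y ^ 2 := by positivity
    nlinarith
  have g10 : 0 ≤ c ^ 2 * κ * Y ^ 2 := by positivity
  have hfin : Y ^ 2 * W ≤ Y ^ 2 * ε := by nlinarith
  exact le_of_mul_le_mul_left hfin hY2

structure Par (ε : ℝ) (C0 C0' : ℕ) (C1 c δ : ℝ) (b u : ℕ) (κ : ℝ) : Prop where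
  κ0 : 0 < κ
  u6 : (6 : ℝ) ≤ u
  b1 : 1 ≤ b
  bu : b ≤ u
  hC0 : C0 ≤ b
  hC0' : C0' ≤ b
  hpow : (1 / 2 : ℝ) ^ b = 1 / (u : ℝ) ^ 3
  hcond : 6 * (u : ℝ) ^ 2 * (1 / 2 : ℝ) ^ b ≤ 1
  inv : 1 / (u : ℝ) ≤ κ
  b3 : (b : ℝ) ^ 3 / u ≤ 27 * κ
  b2 : (b : ℝ) ^ 2 / u ^ 2 ≤ 9 * κ
  b1c : 13 * (C0' : ℝ) * b ≤ u
  κ2 : C1 * ((b : ℝ) ^ 9 / u) ≤ δ ^ 4
  κ3 : 2000000000 * c ^ 2 * κ ≤ ε / 4

lemma par_exists (ε : ℝ) (hε : 0 < ε) (C0 C0' : ℕ) (C1 c δ : ℝ) (hC1 : 0 < C1) (hc : 1 ≤ c) (hcC : (C0' : ℝ) ≤ c)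
    (hδ : 0 < δ) : ∃ (b u : ℕ) (κ : ℝ), Par ε C0 C0' C1 c δ b u κ := by
  have hlim := tendsto_pow_const_div_const_pow_of_one_lt 9 (show (1 : ℝ) < 2 by norm_num)
  have hc0 : 0 < c := by linarith
  have hκ0 : 0 < min (min (1 / (100 * c) : ℝ) (δ ^ 4 / (19683 * C1))) (ε / 4 / (2000000000 * c ^ 2)) := by
    apply lt_min (lt_min (by positivity) (by positivity)) (by positivity)
  obtain ⟨k₀, hk₀⟩ := Filter.eventually_atTop.1 (hlim.eventually (gt_mem_nhds hκ0))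
  obtain ⟨k, hk⟩ : ∃ k : ℕ, k = max (max k₀ 1) (max C0 C0') := ⟨_, rfl⟩
  have hkk : (k : ℝ) ^ 9 / 2 ^ k < min (min (1 / (100 * c) : ℝ) (δ ^ 4 / (19683 * C1))) (ε / 4 / (2000000000 * c ^ 2)) :=
    hk₀ k (by rw [hk]; exact (le_max_left _ _).trans (le_max_left _ _))
  have hk1 : 1 ≤ k := by rw [hk]; exact (le_max_right _ _).trans (le_max_left _ _)
  have hkC0 : C0 ≤ k := by rw [hk]; exact (le_max_left _ _).trans (le_max_right _ _)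
  have hkC0' : C0' ≤ k := by rw [hk]; exact (le_max_right _ _).trans (le_max_right _ _)
  obtain ⟨κ, hκ⟩ : ∃ κ : ℝ, κ = (k : ℝ) ^ 9 / 2 ^ k := ⟨_, rfl⟩
  rw [← hκ] at hkk
  have hκ1 : κ ≤ 1 / (100 * c) := (hkk.le.trans (min_le_left _ _)).trans (min_le_left _ _)
  have hκ2 : κ ≤ δ ^ 4 / (19683 * C1) := (hkk.le.trans (min_le_left _ _)).trans (min_le_right _ _)
  have hκ3 : κ ≤ ε / 4 / (2000000000 * c ^ 2) := hkk.le.trans (min_le_right _ _)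
  clear hkk hκ0 hlim hk₀
  have hk1r : (1 : ℝ) ≤ k := by exact_mod_cast hk1
  obtain ⟨u, hu⟩ : ∃ u : ℕ, u = 2 ^ k := ⟨_, rfl⟩
  obtain ⟨b, hb⟩ : ∃ b : ℕ, b = 3 * k := ⟨_, rfl⟩
  have hur : (u : ℝ) = 2 ^ k := by rw [hu]; push_cast; rfl
  have hbr : (b : ℝ) = 3 * k := by rw [hb]; push_cast; rfl
  have hu0 : (0 : ℝ) < u := by rw [hur]; positivity
  have hκu : (k : ℝ) ^ 9 = κ * u := by rw [hκ, hur]; field_simp
  have hκpos : 0 < κ := by rw [hκ]; positivity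
  have hk9 : (k : ℝ) ≤ (k : ℝ) ^ 9 := le_self_pow₀ hk1r (by norm_num)
  have hk29 : (k : ℝ) ^ 2 ≤ (k : ℝ) ^ 9 := pow_le_pow_right₀ hk1r (by norm_num)
  have hk39 : (k : ℝ) ^ 3 ≤ (k : ℝ) ^ 9 := pow_le_pow_right₀ hk1r (by norm_num)
  have hk19 : (1 : ℝ) ≤ (k : ℝ) ^ 9 := one_le_pow₀ hk1r
  have hinvu : 1 / (u : ℝ) ≤ κ := by
    rw [div_le_iff₀ hu0, ← hκu]; exact hk19
  have hκc : 100 * c * κ ≤ 1 := by
    rw [le_div_iff₀ (by positivity)] at hκ1; linarith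
  have hκ100 : 100 * κ ≤ 1 := by nlinarith
  have hu6 : (6 : ℝ) ≤ u := by
    rw [div_le_iff₀ hu0] at hinvu
    nlinarith
  have hbu' : (b : ℝ) ≤ u := by
    rw [hbr]
    nlinarith
  have hpow : (1 / 2 : ℝ) ^ b = 1 / (u : ℝ) ^ 3 := by
    rw [hur, hb, one_div_pow, pow_mul, ← pow_mul, ← pow_mul, mul_comm 3 k]
  have hcond : 6 * (u : ℝ) ^ 2 * (1 / 2 : ℝ) ^ b ≤ 1 := by
    rw [hpow]
    have : 6 * (u : ℝ) ^ 2 * (1 / (u : ℝ) ^ 3) = 6 / u := by field_simp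
    rw [this, div_le_one hu0]
    exact hu6
  refine ⟨b, u, κ, hκpos, hu6, by omega, by exact_mod_cast hbu', by omega, by omega, hpow, hcond, hinvu, ?_, ?_, ?_, ?_, ?_⟩
  · rw [div_le_iff₀ hu0, hbr]
    nlinarith
  · rw [div_le_iff₀ (by positivity), hbr]
    have h1 : κ * u ≤ κ * u ^ 2 := by
      apply mul_le_mul_of_nonneg_left _ hκpos.le
      nlinarith
    nlinarith
  · have h1 : (C0' : ℝ) * k ≤ c * (κ * u) := by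
      rw [← hκu]
      gcongr
    have h2 : c * (κ * u) = (c * κ) * u := by ring
    have h3 : (c * κ) * u ≤ 1 / 100 * u := by
      apply mul_le_mul_of_nonneg_right _ hu0.le
      linarith
    rw [hbr]
    nlinarith
  · have h5 : (b : ℝ) ^ 9 / u = 19683 * κ := by
      rw [hbr, mul_pow, hκu]
      field_simp
      norm_num
    rw [h5]
    rw [le_div_iff₀ (by positivity)] at hκ2
    linarith
  · rw [le_div_iff₀ (by positivity)] at hκ3; linarith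

lemma exp_two_ge : (4 : ℝ) ≤ Real.exp 2 := by
  have h1 : Real.exp 2 = Real.exp 1 ^ 2 := by rw [← Real.exp_nat_mul]; norm_num
  have := Real.exp_one_gt_d9
  rw [h1]; nlinarith

lemma z_facts (Y : ℝ) (u : ℕ) (hu6 : (6 : ℝ) ≤ u) (hYu : 2 * (u : ℝ) ≤ Y) : ∃ z : ℕ, 2 ≤ z ∧ u * Real.log z ≤ Y ∧
    Y ≤ 2 * u * Real.log z ∧ Real.log z ≤ Y / 2 ∧ Real.log z ≤ Y / u := by
  have hu0 : (0 : ℝ) < u := by linarith
  obtain ⟨z, hz⟩ : ∃ z : ℕ, z = ⌊Real.exp (Y / u)⌋₊ := ⟨_, rfl⟩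
  have hYu2 : 2 ≤ Y / u := by rw [le_div_iff₀ hu0]; linarith
  have hexp : (4 : ℝ) ≤ Real.exp (Y / u) := exp_two_ge.trans (Real.exp_le_exp.2 hYu2)
  have hz1 : (z : ℝ) ≤ Real.exp (Y / u) := by rw [hz]; exact Nat.floor_le (Real.exp_pos _).le
  have hz2 : Real.exp (Y / u) < z + 1 := by rw [hz]; exact Nat.lt_floor_add_one _
  have hz3 : (3 : ℝ) < z := by linarith
  have hz4 : 2 ≤ z := by
    have : 3 < z := by exact_mod_cast hz3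
    omega
  have hz0 : (0 : ℝ) < z := by linarith
  obtain ⟨L, hL⟩ : ∃ L : ℝ, L = Real.log z := ⟨_, rfl⟩
  have hLle : L ≤ Y / u := by rw [hL, Real.log_le_iff_le_exp hz0]; exact hz1
  have hLge : Y / u / 2 ≤ L := by
    have h1 : Real.exp (Y / u) / 2 ≤ z := by linarith
    have h2 : Real.log (Real.exp (Y / u) / 2) ≤ Real.log z := Real.log_le_log (by positivity) h1
    rw [Real.log_div (Real.exp_pos _).ne' (by norm_num), Real.log_exp, ← hL] at h2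
    linarith [Real.log_two_lt_d9]
  refine ⟨z, hz4, ?_, ?_, ?_, ?_⟩
  · rw [← hL]
    rw [le_div_iff₀ hu0] at hLle; linarith
  · rw [← hL]
    have : Y / u ≤ 2 * L := by linarith
    rw [div_le_iff₀ hu0] at this
    linarith
  · rw [← hL]
    refine hLle.trans ?_
    rw [div_le_div_iff₀ hu0 (by norm_num)]
    nlinarith
  · rw [← hL]; exact hLle

lemma B_exists (δ : ℝ) (hδ0 : 0 < δ) : ∃ B : ℝ, 2 ≤ B ∧ 192 * Real.exp (-(B / 2)) ≤ δ := by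
  have h1 : Filter.Tendsto (fun B : ℝ => 192 * Real.exp (-(B / 2))) Filter.atTop (nhds (192 * 0)) := by
    apply Filter.Tendsto.const_mul
    apply Real.tendsto_exp_atBot.comp
    apply Filter.tendsto_neg_atTop_atBot.comp
    exact Filter.tendsto_id.atTop_div_const (by norm_num)
  rw [mul_zero] at h1
  obtain ⟨B, hB⟩ := Filter.eventually_atTop.1 (h1.eventually (gt_mem_nhds hδ0))
  exact ⟨max B 2, le_max_right _ _, (hB _ (le_max_left _ _)).le⟩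

lemma sup_bd (z : ℕ) (Y y B δ C : ℝ) (hY1 : 1 ≤ Y) (hδ : 0 < δ) (hB0 : 0 ≤ B) (N : ℕ) (hNB : Real.exp (B * Y) ≤ N)
    (hB : 192 * Real.exp (-(B / 2)) ≤ δ) (hC : C ≤ δ ^ 4)
    (h2 : ‖LL z Y (-y)‖ ^ 4 ≤ C * Y ^ 4) : ‖∑ n ∈ Icc 1 N, (LR z n : ℂ) * th Y y n‖ ≤ 2 * δ * Y := by
  have h1 := A_close z Y y B hY1 hB0 N hNB
  have h3 : ‖LL z Y (-y)‖ ≤ δ * Y := by
    have h4 : ‖LL z Y (-y)‖ ^ 4 ≤ (δ * Y) ^ 4 := by
      refine h2.trans ?_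
      rw [mul_pow]
      exact mul_le_mul_of_nonneg_right hC (by positivity)
    exact (pow_le_pow_iff_left₀ (norm_nonneg _) (by positivity) (by norm_num)).1 h4
  have h4 : ‖∑ n ∈ Icc 1 N, (LR z n : ℂ) * th Y y n‖ ≤ ‖∑ n ∈ Icc 1 N, (LR z n : ℂ) * th Y y n - LL z Y (-y)‖ + ‖LL z Y (-y)‖ := by
    have := norm_add_le (∑ n ∈ Icc 1 N, (LR z n : ℂ) * th Y y n - LL z Y (-y)) (LL z Y (-y))
    rwa [sub_add_cancel] at this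
  have h5 : 192 * Real.exp (-(B / 2)) * Y ≤ δ * Y := by gcongr
  linarith

lemma eta_bd (C2 c κ t : ℝ) (b u : ℕ) (hu6 : (6 : ℝ) ≤ u) (hκpos : 0 < κ) (hC2 : 0 ≤ C2) (hCc : C2 ≤ c)
    (hτ1 : 16 * (u : ℝ) ^ 4 ≤ t) (hpow : (1 / 2 : ℝ) ^ b = 1 / (u : ℝ) ^ 3) (hinvu : 1 / (u : ℝ) ≤ κ)
    (b3 : (b : ℝ) ^ 3 / u ≤ 27 * κ) :
    C2 * (u ^ 2 * (8 / t + 3 * (1 / 2 : ℝ) ^ b) + b ^ 3 / u) ≤ 31 * c * κ := by
  have hu0 : (0 : ℝ) < u := by linarith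
  have e1 : (u : ℝ) ^ 2 * (8 / t) ≤ κ := by
    have h1 : (u : ℝ) ^ 2 * (8 / t) ≤ (u : ℝ) ^ 2 * (8 / (16 * (u : ℝ) ^ 4)) := by gcongr
    have h2 : (u : ℝ) ^ 2 * (8 / (16 * (u : ℝ) ^ 4)) = 1 / u * (1 / (2 * u)) := by field_simp; norm_num
    have h3 : 1 / (2 * (u : ℝ)) ≤ 1 := by rw [div_le_one (by positivity)]; linarith
    have h4 : 1 / (u : ℝ) * (1 / (2 * u)) ≤ κ * 1 := by gcongr
    linarith
  have e2 : (u : ℝ) ^ 2 * (3 * (1 / 2 : ℝ) ^ b) ≤ 3 * κ := by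
    rw [hpow]
    have : (u : ℝ) ^ 2 * (3 * (1 / (u : ℝ) ^ 3)) = 3 * (1 / u) := by field_simp
    rw [this]
    linarith
  have e4 : u ^ 2 * (8 / t + 3 * (1 / 2 : ℝ) ^ b) + (b : ℝ) ^ 3 / u ≤ 31 * κ := by
    rw [mul_add]; linarith
  have e5 : (0 : ℝ) ≤ 31 * κ := by linarith
  calc C2 * (u ^ 2 * (8 / t + 3 * (1 / 2 : ℝ) ^ b) + b ^ 3 / u) ≤ C2 * (31 * κ) := mul_le_mul_of_nonneg_left e4 hC2
    _ ≤ c * (31 * κ) := mul_le_mul_of_nonneg_right hCc e5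
    _ = 31 * c * κ := by ring

lemma nu_bd (C0' b u : ℕ) (c κ L Y : ℝ) (hC : 1 ≤ C0') (hb : 1 ≤ b) (hu6 : (6 : ℝ) ≤ u) (hYu : 2 * (u : ℝ) ≤ Y)
    (hL : L ≤ Y / u) (hCc : (C0' : ℝ) ≤ c) (b2 : (b : ℝ) ^ 2 / u ^ 2 ≤ 9 * κ)
    (b1c : 13 * (C0' : ℝ) * b ≤ u) : (8 * C0' * b + 1) * L + 1 ≤ Y ∧
    ((8 * C0' * b + 1) * L + 1 + 3) ^ 2 ≤ 169 * c ^ 2 * (9 * κ) * Y ^ 2 ∨ L < 0 := by
  by_cases hL0 : L < 0
  · exact Or.inr hL0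
  left
  push Not at hL0
  have hu0 : (0 : ℝ) < u := by linarith
  have hY0 : 0 < Y := by linarith
  have hYu2 : 2 ≤ Y / u := by rw [le_div_iff₀ hu0]; linarith
  have hcb : (1 : ℝ) ≤ C0' * b := by
    have : 1 ≤ C0' * b := Nat.mul_pos hC (by omega)
    exact_mod_cast this
  have hν13 : (8 * (C0' : ℝ) * b + 1) * L + 1 + 3 ≤ 13 * (C0' * b * (Y / u)) := by
    have h1 : (8 * (C0' : ℝ) * b + 1) * L ≤ 9 * (C0' * b) * (Y / u) := by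
      calc (8 * (C0' : ℝ) * b + 1) * L ≤ (9 * (C0' * b)) * (Y / u) := by
            apply mul_le_mul _ hL hL0 (by positivity)
            linarith
        _ = _ := by ring
    have h2 : (4 : ℝ) ≤ 4 * (C0' * b * (Y / u)) := by nlinarith
    linarith
  constructor
  · have h1 : 13 * (C0' * b * (Y / u)) = (13 * C0' * b) * Y / u := by ring
    have h2 : (13 * C0' * b) * Y / u ≤ Y := by
      rw [div_le_iff₀ hu0]
      nlinarith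
    linarith
  · have h0 : 0 ≤ (8 * (C0' : ℝ) * b + 1) * L + 1 + 3 := by positivity
    have h1 : ((8 * (C0' : ℝ) * b + 1) * L + 1 + 3) ^ 2 ≤ (13 * (C0' * b * (Y / u))) ^ 2 := pow_le_pow_left₀ h0 hν13 2
    refine h1.trans ?_
    have h2 : (13 * ((C0' : ℝ) * b * (Y / u))) ^ 2 = 169 * (C0' : ℝ) ^ 2 * ((b : ℝ) ^ 2 / u ^ 2) * Y ^ 2 := by
      field_simp; ring
    rw [h2]
    have h4 : (C0' : ℝ) ^ 2 ≤ c ^ 2 := pow_le_pow_left₀ (by positivity) hCc 2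
    gcongr

lemma t1_bd (u : ℕ) (κ τ : ℝ) (hu6 : (6 : ℝ) ≤ u) (hinvu : 1 / (u : ℝ) ≤ κ) (hτ : 16 * (u : ℝ) ^ 4 ≤ |τ|) :
    16 * (u : ℝ) ^ 2 / τ ^ 2 ≤ κ := by
  have hu0 : (0 : ℝ) < u := by linarith
  have h1 : 16 * (u : ℝ) ^ 2 / τ ^ 2 ≤ 16 * (u : ℝ) ^ 2 / (16 * (u : ℝ) ^ 4) ^ 2 := by
    rw [← sq_abs τ]
    gcongr
  refine h1.trans ?_
  have h2 : 16 * (u : ℝ) ^ 2 / (16 * (u : ℝ) ^ 4) ^ 2 = 1 / u * (1 / (16 * (u : ℝ) ^ 5)) := by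
    field_simp
  rw [h2]
  have h3 : 1 / (16 * (u : ℝ) ^ 5) ≤ 1 := by
    rw [div_le_one (by positivity)]
    have : (1 : ℝ) ≤ (u : ℝ) ^ 5 := one_le_pow₀ (by linarith)
    linarith
  have hκ0 : 0 ≤ κ := le_trans (by positivity) hinvu
  calc 1 / (u : ℝ) * (1 / (16 * (u : ℝ) ^ 5)) ≤ κ * 1 := by gcongr
    _ = κ := mul_one _

lemma t2_bd (Y T₂ : ℝ) (hY0 : 0 < Y) (hT2e : Real.exp Y / 2 ≤ T₂) : Y ^ 3 / T₂ ≤ 4 * Y := by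
  have h1 : Y ^ 2 ≤ 2 * Real.exp Y := by
    have := Real.quadratic_le_exp_of_nonneg hY0.le
    nlinarith
  rw [div_le_iff₀ (by linarith [Real.exp_pos Y])]
  have h2 : Y * Y ^ 2 ≤ Y * (2 * Real.exp Y) := mul_le_mul_of_nonneg_left h1 hY0.le
  have h3 : 4 * Y * (Real.exp Y / 2) ≤ 4 * Y * T₂ := mul_le_mul_of_nonneg_left hT2e (by linarith)
  calc Y ^ 3 = Y * Y ^ 2 := by ring
    _ ≤ Y * (2 * Real.exp Y) := h2
    _ = 4 * Y * (Real.exp Y / 2) := by ring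
    _ ≤ 4 * Y * T₂ := h3

lemma T2_facts (M : ℕ) (Y T₂ : ℝ) (hY2 : 2 ≤ Y) (hT₂ : T₂ = Real.exp (((M + 1 : ℕ) : ℝ) * Y) / 2) :
    Real.exp Y / 2 ≤ T₂ ∧ ∀ τ : ℝ, |τ| ≤ Real.exp (M * Y) → 2 * |τ| ≤ T₂ := by
  have hexpY : (4 : ℝ) ≤ Real.exp Y := exp_two_ge.trans (Real.exp_le_exp.2 hY2)
  have hT₂e : T₂ = Real.exp (M * Y) * Real.exp Y / 2 := by
    rw [hT₂, ← Real.exp_add]; congr 2; push_cast; ring
  constructor
  · rw [hT₂e]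
    have h1 : 1 ≤ Real.exp (M * Y) := Real.one_le_exp (by positivity)
    have h2 := Real.exp_pos Y
    nlinarith
  · intro τ hτ
    rw [hT₂e]
    have := Real.exp_pos (M * Y)
    nlinarith

theorem star_R (M : ℕ) (ε : ℝ) (hε : 0 < ε) : ∃ T₀ Y₀ : ℝ, 4 ≤ T₀ ∧ 2 ≤ Y₀ ∧ ∀ Y : ℝ, Y₀ ≤ Y → ∃ z : ℕ, 2 ≤ z ∧
    Real.log z ≤ Y / 2 ∧ ∀ τ : ℝ, T₀ ≤ |τ| → |τ| ≤ Real.exp (M * Y) → ∀ N : ℕ, Real.exp (Y + 1) ≤ N →
    ‖WF N Y τ Y (LR z)‖ ≤ ε := by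
  obtain ⟨C0, C1, hC0, hC1, hLB⟩ := L_bound
  obtain ⟨C0', C2, hC0', hC2, hEW⟩ := ER_win
  obtain ⟨c, hc⟩ : ∃ c : ℝ, c = C2 + C0' := ⟨_, rfl⟩
  have hC0r : (1 : ℝ) ≤ C0' := by exact_mod_cast hC0'
  have hc1 : 1 ≤ c := by linarith
  obtain ⟨δ, hδ⟩ : ∃ δ : ℝ, δ = ε / 100000 := ⟨_, rfl⟩
  have hδ0 : 0 < δ := by rw [hδ]; positivity
  obtain ⟨b, u, κ, hP⟩ := par_exists ε hε C0 C0' C1 c δ (by linarith) hc1 (by linarith) hδ0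
  have hu6 := hP.u6
  have hu0 : (0 : ℝ) < u := by linarith
  have hu1 : 1 ≤ u := by
    have : (1 : ℝ) ≤ u := by linarith
    exact_mod_cast this
  obtain ⟨L₁, hL₁1, hLB1⟩ := hLB (M + 1) b u hP.hC0 hP.bu hP.hcond
  obtain ⟨L₂, hL₂1, hEW1⟩ := hEW M b u hP.hC0' hu1
  clear hLB hEW
  obtain ⟨B, hB2, hB⟩ := B_exists δ hδ0
  have hu41 : (1 : ℝ) ≤ (u : ℝ) ^ 4 := one_le_pow₀ (by linarith)
  refine ⟨16 * (u : ℝ) ^ 4, max (max 2 (2 * u)) (max (2 * u * max L₁ L₂) (60000000 / (ε / 4))), by linarith,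
    (le_max_left _ _).trans (le_max_left _ _), ?_⟩
  intro Y hY
  have hY2 : 2 ≤ Y := ((le_max_left _ _).trans (le_max_left _ _)).trans hY
  have hYu : 2 * u ≤ Y := ((le_max_right _ _).trans (le_max_left _ _)).trans hY
  have hYL : 2 * u * max L₁ L₂ ≤ Y := ((le_max_left _ _).trans (le_max_right _ _)).trans hY
  have hYε : 60000000 / (ε / 4) ≤ Y := ((le_max_right _ _).trans (le_max_right _ _)).trans hY
  clear hY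
  have hY1 : 1 ≤ Y := by linarith
  have hY0 : 0 < Y := by linarith
  obtain ⟨z, hz4, huL, hYuL, hL2, hLu⟩ := z_facts Y u hu6 hYu
  have hLmax : max L₁ L₂ ≤ Real.log z := by
    have h1 : 2 * u * max L₁ L₂ ≤ 2 * u * Real.log z := hYL.trans hYuL
    exact le_of_mul_le_mul_left h1 (by positivity)
  have hLL1 : L₁ ≤ Real.log z := (le_max_left _ _).trans hLmax
  have hLL2 : L₂ ≤ Real.log z := (le_max_right _ _).trans hLmax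
  have hL0 : 0 ≤ Real.log z := Real.log_natCast_nonneg z
  refine ⟨z, hz4, hL2, ?_⟩
  intro τ hτ1 hτ2
  obtain ⟨N, hN⟩ : ∃ N : ℕ, N = ⌈Real.exp (B * Y)⌉₊ := ⟨_, rfl⟩
  have hNB : Real.exp (B * Y) ≤ N := by rw [hN]; exact Nat.le_ceil _
  have hBY : Y + 1 ≤ B * Y := by
    have : 2 * Y ≤ B * Y := mul_le_mul_of_nonneg_right hB2 hY0.le
    linarith
  have hNY : Real.exp (Y + 1) ≤ N := (Real.exp_le_exp.2 hBY).trans hNB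
  clear hN hBY
  have hτ4 : 4 ≤ |τ| := by linarith
  obtain ⟨T₂, hT₂⟩ : ∃ T₂ : ℝ, T₂ = Real.exp (((M + 1 : ℕ) : ℝ) * Y) / 2 := ⟨_, rfl⟩
  obtain ⟨hT2a, hT2b⟩ := T2_facts M Y T₂ hY2 hT₂
  have hsup : ∀ y : ℝ, 16 * (u : ℝ) ^ 2 ≤ |y| → |y| ≤ T₂ → ‖∑ n ∈ Icc 1 N, (LR z n : ℂ) * th Y y n‖ ≤ 2 * δ * Y := by
    intro y hy1 hy2
    apply sup_bd z Y y B δ _ hY1 hδ0 (by linarith) N hNB hB hP.κ2
    apply hLB1 z hz4 hLL1 Y huL hYuL (-y) (by rw [abs_neg]; exact hy1)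
    rw [abs_neg]; rw [hT₂] at hy2
    have := Real.exp_pos (((M + 1 : ℕ) : ℝ) * Y)
    linarith
  have hT1le : 2 * (16 * (u : ℝ) ^ 2) ≤ |τ| := by
    refine le_trans ?_ hτ1
    have h1 : (2 : ℝ) ≤ u ^ 2 := by
      have : (6 : ℝ) ^ 2 ≤ u ^ 2 := pow_le_pow_left₀ (by norm_num) hu6 2
      linarith
    have h2 : 2 * (u : ℝ) ^ 2 ≤ u ^ 2 * u ^ 2 := mul_le_mul_of_nonneg_right h1 (by positivity)
    have h3 : (u : ℝ) ^ 4 = u ^ 2 * u ^ 2 := by ring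
    rw [h3]; linarith
  have hT1ge : 4 ≤ 16 * (u : ℝ) ^ 2 := by
    have : (6 : ℝ) ^ 2 ≤ u ^ 2 := pow_le_pow_left₀ (by norm_num) hu6 2
    linarith
  have hW3 := WF_cube z N Y τ hY1 hNY (2 * δ * Y) (16 * (u : ℝ) ^ 2) T₂ (by positivity) hT1ge
    hT1le (hT2b τ hτ2) hsup
  clear hsup hLB1
  obtain ⟨η, hη⟩ : ∃ η : ℝ, η = C2 * (u ^ 2 * (8 / |τ| + 3 * (1 / 2 : ℝ) ^ b) + b ^ 3 / u) := ⟨_, rfl⟩
  have hη0 : 0 ≤ η := by rw [hη]; positivity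
  have hηκ : η ≤ 31 * c * κ := by
    rw [hη]
    exact eta_bd C2 c κ |τ| b u hu6 hP.κ0 (by linarith) (by linarith) hτ1 hP.hpow hP.inv hP.b3
  obtain ⟨ν, hν⟩ : ∃ ν : ℝ, ν = (8 * C0' * b + 1) * Real.log z + 1 := ⟨_, rfl⟩
  have hν0 : 0 ≤ ν := by rw [hν]; positivity
  obtain ⟨hνY, hνsq⟩ : ν ≤ Y ∧ (ν + 3) ^ 2 ≤ 169 * c ^ 2 * (9 * κ) * Y ^ 2 := by
    rw [hν]
    rcases nu_bd C0' b u c κ (Real.log z) Y hC0' hP.b1 hu6 hYu hLu (by linarith) hP.b2 hP.b1c with h | h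
    · exact h
    · exact absurd h (not_lt.2 hL0)
  have hEW2 : ∀ V : ℝ, ν ≤ V → V ≤ Y → ‖WF N Y τ V (ER z)‖ ≤ η * Y := by
    intro V hV1 hV2
    rw [hη]
    apply hEW1 z hz4 hLL2 Y huL hYuL τ hτ4 hτ2 V _ hV2 N hNY
    rw [← hν]
    exact hV1
  clear hEW1
  have hstar := star_ineq z N Y τ ν η _ hY1 hν0 hνY hNY hη0 hEW2 hW3
  clear hEW2 hW3
  have hfin : ‖WF N Y τ Y (LR z)‖ ≤ ε := by
    apply comb hY1 hε (norm_nonneg _) hP.κ0.le hc1 hstar (t1_bd u κ τ hu6 hP.inv hτ1) (t2_bd Y T₂ hY0 hT2a) hηκ hνsq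
    · rw [hδ]; linarith
    · exact hP.κ3
    · rw [div_le_iff₀ hY0]
      rw [div_le_iff₀ (by positivity)] at hYε
      linarith
  intro N' hN'
  rcases le_total N N' with h | h
  · rw [WF_indep N N' Y τ Y hNY h]; exact hfin
  · rw [← WF_indep N' N Y τ Y hN' h]; exact hfin

end Pool.Agent.Y851.HZ
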