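import Pool.Agent.Y851.HZ.S3

/-! Sums of `p ^ (i τ)` over the primes in windows are small. -/

set_option autoImplicit false

namespace Pool.Agent.Y851.HZ
open Finset
open Pool.Agent.H376R2.MR (er kern_er_cont kern_er_norm kern_er_add)
open Pool.Agent.H376R2.MR renaming w → tw
open Pool.Agent.H318R2.Cr (Rgh Pz mem_Pz one_sub_inv_pos V_pos V_le_one cz_bounds)
open ArithmeticFunction (vonMangoldt)

/-- the prime sum in a window -/
noncomputable def PW (N : ℕ) (τ V : ℝ) : ℂ :=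
  ∑ p ∈ (Icc 1 N).filter Nat.Prime, ((Real.log p / p : ℝ) : ℂ) * (er τ (Real.log p) * (tw (Real.log p - V) : ℂ))

lemma nonprime_win (V : ℝ) (hV : 1 ≤ V) (S : Finset ℕ) (hS : ∀ n ∈ S, 1 ≤ n ∧ |Real.log n - V| ≤ 1 ∧ ¬ n.Prime) :
    ∑ n ∈ S, vonMangoldt n / n ≤ 900 / V := by
  have h1 : ∀ n ∈ S, vonMangoldt n / n ≤ Real.exp (1 - V) * vonMangoldt n := by
    intro n hn
    obtain ⟨hn1, hn2, _⟩ := hS n hn
    have hn0 : (0 : ℝ) < n := by exact_mod_cast hn1
    have h2 : Real.exp (V - 1) ≤ n := by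
      rw [← Real.le_log_iff_exp_le hn0]
      linarith [(abs_le.1 hn2).1]
    rw [div_le_iff₀ hn0]
    have h3 : Real.exp (1 - V) * Real.exp (V - 1) = 1 := by rw [← Real.exp_add]; simp
    have h4 : 1 ≤ Real.exp (1 - V) * n := by
      have h5 := mul_le_mul_of_nonneg_left h2 (Real.exp_pos (1 - V)).le
      linarith
    have h5 : 0 ≤ vonMangoldt n := ArithmeticFunction.vonMangoldt_nonneg
    nlinarith
  set x := Real.exp (V + 1) with hx
  have hx1 : 1 ≤ x := Real.one_le_exp (by linarith)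
  have h2 : ∑ n ∈ S, vonMangoldt n ≤ Chebyshev.psi x - Chebyshev.theta x := by
    rw [Chebyshev.psi_sub_theta_eq_sum_not_prime]
    apply sum_le_sum_of_subset_of_nonneg
    · intro n hn
      obtain ⟨hn1, hn2, hn3⟩ := hS n hn
      have hn0 : (0 : ℝ) < n := by exact_mod_cast hn1
      rw [mem_filter, mem_Ioc]
      refine ⟨⟨hn1, Nat.le_floor ?_⟩, hn3⟩
      rw [← Real.log_le_iff_le_exp hn0]
      linarith [(abs_le.1 hn2).2]
    · intro n _ _
      exact ArithmeticFunction.vonMangoldt_nonneg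
  have h3 := Chebyshev.abs_psi_sub_theta_le_sqrt_mul_log hx1
  have h4 : ∑ n ∈ S, vonMangoldt n ≤ 2 * √x * Real.log x := h2.trans ((le_abs_self _).trans h3)
  have hlogx : Real.log x = V + 1 := by rw [hx, Real.log_exp]
  have hsx : √x = Real.exp ((V + 1) / 2) := by
    rw [hx, ← Real.exp_half]
  rw [hlogx, hsx] at h4
  have h5 : Real.exp (1 - V) * Real.exp ((V + 1) / 2) = Real.exp (3 / 2) * Real.exp (-(V / 2)) := by
    rw [← Real.exp_add, ← Real.exp_add]; congr 1; ring
  have h6 : Real.exp (3 / 2) ≤ 4.5 := by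
    have h7 : Real.exp (3 / 2) ^ 2 = Real.exp 1 ^ 3 := by
      rw [← Real.exp_nat_mul, ← Real.exp_nat_mul]; norm_num
    have h8 := Real.exp_one_lt_d9
    have h9 : Real.exp 1 ^ 3 ≤ 2.7182818286 ^ 3 := pow_le_pow_left₀ (Real.exp_pos _).le h8.le 3
    have h10 : Real.exp (3 / 2) ^ 2 ≤ 4.5 ^ 2 := by rw [h7]; exact h9.trans (by norm_num)
    exact (pow_le_pow_iff_left₀ (Real.exp_pos _).le (by norm_num) (by norm_num)).1 h10
  have h7 : (V / 2) ^ 3 / 6 ≤ Real.exp (V / 2) := by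
    have := Real.pow_div_factorial_le_exp (x := V / 2) (by linarith) 3
    have h8 : ((Nat.factorial 3 : ℕ) : ℝ) = 6 := by norm_num [Nat.factorial]
    rw [h8] at this
    exact this
  have h8 : Real.exp (-(V / 2)) * (V ^ 3 / 48) ≤ 1 := by
    have h9 : Real.exp (-(V / 2)) * Real.exp (V / 2) = 1 := by rw [← Real.exp_add]; simp
    calc Real.exp (-(V / 2)) * (V ^ 3 / 48) = Real.exp (-(V / 2)) * ((V / 2) ^ 3 / 6) := by ring
      _ ≤ Real.exp (-(V / 2)) * Real.exp (V / 2) := mul_le_mul_of_nonneg_left h7 (Real.exp_pos _).le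
      _ = 1 := h9
  have hV0 : 0 < V := by linarith
  have h9 : Real.exp (-(V / 2)) * (V + 1) ≤ 96 / V := by
    have h10 : Real.exp (-(V / 2)) ≤ 48 / V ^ 3 := by
      rw [le_div_iff₀ (by positivity)]; linarith
    calc Real.exp (-(V / 2)) * (V + 1) ≤ 48 / V ^ 3 * (2 * V ^ 2) := by
          apply mul_le_mul h10 _ (by linarith) (by positivity)
          nlinarith
      _ = 96 / V := by field_simp; norm_num
  calc ∑ n ∈ S, vonMangoldt n / n ≤ ∑ n ∈ S, Real.exp (1 - V) * vonMangoldt n := sum_le_sum h1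
    _ = Real.exp (1 - V) * ∑ n ∈ S, vonMangoldt n := by rw [mul_sum]
    _ ≤ Real.exp (1 - V) * (2 * Real.exp ((V + 1) / 2) * (V + 1)) := mul_le_mul_of_nonneg_left h4 (Real.exp_pos _).le
    _ = 2 * (Real.exp (1 - V) * Real.exp ((V + 1) / 2)) * (V + 1) := by ring
    _ = 2 * Real.exp (3 / 2) * (Real.exp (-(V / 2)) * (V + 1)) := by rw [h5]; ring
    _ ≤ 2 * 4.5 * (96 / V) := by
        apply mul_le_mul (by linarith) h9 (by positivity) (by norm_num)
    _ ≤ 900 / V := by
        rw [← mul_div_assoc]; gcongr; norm_num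

/-- comparison of the window of primes with the window of the von Mangoldt function on rough numbers -/
lemma PW_close (z N : ℕ) (Y τ : ℝ) (hY : 4 ≤ Y) (hz : Real.log z ≤ Y / 2) (hz2 : 2 ≤ z) :
    ‖PW N τ Y - (Real.exp 1 : ℂ) * WF N Y τ Y (LR z)‖ ≤ 3000 / Y := by
  classical
  have hY0 : 0 < Y := by linarith
  unfold PW WF
  rw [sum_filter, mul_sum, ← sum_sub_distrib]
  refine (norm_sum_le _ _).trans ?_
  -- pointwise
  have hpt : ∀ n ∈ Icc 1 N, ‖(if n.Prime then ((Real.log n / n : ℝ) : ℂ) * (er τ (Real.log n) * (tw (Real.log n - Y) : ℂ)) else 0) -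
      (Real.exp 1 : ℂ) * ((LR z n : ℂ) * (th Y τ n * (tw (Real.log n - Y) : ℂ)))‖ ≤
      (if |Real.log n - Y| < 1 then vonMangoldt n / n * (2 / Y) else 0) +
      (if |Real.log n - Y| < 1 ∧ ¬ n.Prime then 3 * (vonMangoldt n / n) else 0) := by
    intro n hn
    rw [mem_Icc] at hn
    have hn0 : (0 : ℝ) < n := by exact_mod_cast hn.1
    have hΛ : 0 ≤ vonMangoldt n := ArithmeticFunction.vonMangoldt_nonneg
    by_cases hw : |Real.log n - Y| < 1
    · rw [if_pos hw]
      have hw' := abs_lt.1 hw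
      have htw0 := tw_nonneg (Real.log n - Y)
      have htw1 := tw_le (Real.log n - Y)
      have he1 : Real.exp 1 * Real.exp (-(Real.log n / Y)) = Real.exp (1 - Real.log n / Y) := by
        rw [← Real.exp_add]; congr 1
      have hab : |1 - Real.log n / Y| ≤ 1 / Y := by
        have : 1 - Real.log n / Y = (Y - Real.log n) / Y := by field_simp
        rw [this, abs_div, abs_of_pos hY0]
        apply div_le_div_of_nonneg_right _ hY0.le
        rw [abs_sub_comm]; exact hw.le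
      have hY1 : 1 / Y ≤ 1 := by rw [div_le_one hY0]; linarith
      have hexp : |Real.exp (1 - Real.log n / Y) - 1| ≤ 2 / Y := by
        have := Real.abs_exp_sub_one_le (x := 1 - Real.log n / Y) (hab.trans hY1)
        calc |Real.exp (1 - Real.log n / Y) - 1| ≤ 2 * |1 - Real.log n / Y| := this
          _ ≤ 2 * (1 / Y) := by linarith
          _ = 2 / Y := by ring
      by_cases hp : n.Prime
      · rw [if_pos hp, if_neg (by tauto), add_zero]
        have hr : Rgh z n := by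
          intro q hq hqz hqd
          have h1 : q = n := (Nat.prime_dvd_prime_iff_eq hq hp).1 hqd
          rw [h1] at hqz
          have h2 : Real.log n ≤ Real.log z := Real.log_le_log hn0 (by exact_mod_cast hqz)
          linarith
        have hLR : LR z n = Real.log n := by
          unfold LR
          rw [res_apply, if_pos hr, ArithmeticFunction.vonMangoldt_apply_prime hp]
        rw [hLR, ArithmeticFunction.vonMangoldt_apply_prime hp]
        have e : ((Real.log n / n : ℝ) : ℂ) * (er τ (Real.log n) * (tw (Real.log n - Y) : ℂ)) -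
            (Real.exp 1 : ℂ) * ((Real.log n : ℂ) * (th Y τ n * (tw (Real.log n - Y) : ℂ))) =
            ((Real.log n / n * (1 - Real.exp 1 * Real.exp (-(Real.log n / Y))) * tw (Real.log n - Y) : ℝ) : ℂ) * er τ (Real.log n) := by
          unfold th
          push_cast
          ring
        rw [e, norm_mul, kern_er_norm, mul_one, Complex.norm_real, Real.norm_eq_abs, he1, abs_mul, abs_mul,
          abs_of_nonneg htw0, abs_sub_comm]
        have h3 : 0 ≤ Real.log n / n := div_nonneg (Real.log_natCast_nonneg n) hn0.le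
        rw [abs_of_nonneg h3]
        calc Real.log n / n * |Real.exp (1 - Real.log n / Y) - 1| * tw (Real.log n - Y)
            ≤ Real.log n / n * (2 / Y) * 1 := by gcongr
          _ = _ := mul_one _
      · rw [if_neg hp, if_pos ⟨hw, hp⟩, zero_sub, norm_neg]
        have h1 : 0 ≤ vonMangoldt n / n * (2 / Y) := by positivity
        have h2 : ‖(Real.exp 1 : ℂ) * ((LR z n : ℂ) * (th Y τ n * (tw (Real.log n - Y) : ℂ)))‖ ≤ 3 * (vonMangoldt n / n) := by
          rw [norm_mul, norm_mul, norm_mul, Complex.norm_real, Complex.norm_real, Complex.norm_real, Real.norm_eq_abs,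
            Real.norm_eq_abs, Real.norm_eq_abs, abs_of_nonneg htw0, abs_of_nonneg (LR_nonneg z n), abs_of_pos (Real.exp_pos 1)]
          have h3 := th_norm_le Y τ hY0 n
          have h4 := LR_le z n
          have h5 := Real.exp_one_lt_d9
          have h6 := LR_nonneg z n
          calc Real.exp 1 * (LR z n * (‖th Y τ n‖ * tw (Real.log n - Y))) ≤ 3 * (vonMangoldt n * (1 / n * 1)) := by
                gcongr
                linarith
            _ = 3 * (vonMangoldt n / n) := by ring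
        linarith
    · rw [if_neg hw, if_neg (fun h : |Real.log n - Y| < 1 ∧ ¬ n.Prime => hw h.1), add_zero]
      have h1 : tw (Real.log n - Y) = 0 := tw_supp _ (not_lt.1 hw)
      rw [h1]
      split_ifs <;> simp
  refine (sum_le_sum hpt).trans ?_
  rw [sum_add_distrib, ← sum_filter, ← sum_filter, ← sum_mul, ← mul_sum]
  have b1 := lam_win Y ((Icc 1 N).filter (fun n : ℕ => |Real.log n - Y| < 1)) (by
    intro n hn
    rw [mem_filter, mem_Icc] at hn
    exact ⟨hn.1.1, hn.2.le⟩)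
  have b2 := nonprime_win Y (by linarith) ((Icc 1 N).filter (fun n : ℕ => |Real.log n - Y| < 1 ∧ ¬ n.Prime)) (by
    intro n hn
    rw [mem_filter, mem_Icc] at hn
    exact ⟨hn.1.1, hn.2.1.le, hn.2.2⟩)
  calc (∑ n ∈ (Icc 1 N).filter (fun n : ℕ => |Real.log n - Y| < 1), vonMangoldt n / n) * (2 / Y) +
      3 * ∑ n ∈ (Icc 1 N).filter (fun n : ℕ => |Real.log n - Y| < 1 ∧ ¬ n.Prime), vonMangoldt n / n
      ≤ 48 * (2 / Y) + 3 * (900 / Y) := by gcongr
    _ = 2796 / Y := by ring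
    _ ≤ 3000 / Y := by gcongr; norm_num

/-- **Sums over primes in windows**: `∑ (log p / p) p ^ (i τ)` is small for `T₀ ≤ |τ| ≤ e ^ (M Y)`. -/
theorem star_P (M : ℕ) (ε : ℝ) (hε : 0 < ε) : ∃ T₀ Y₀ : ℝ, 4 ≤ T₀ ∧ 4 ≤ Y₀ ∧ ∀ Y : ℝ, Y₀ ≤ Y →
    ∀ τ : ℝ, T₀ ≤ |τ| → |τ| ≤ Real.exp (M * Y) → ∀ N : ℕ, Real.exp (Y + 1) ≤ N → ‖PW N τ Y‖ ≤ ε := by
  obtain ⟨T₀, Y₀, hT₀, hY₀, h⟩ := star_R M (ε / 6) (by positivity)
  refine ⟨T₀, max (max Y₀ 4) (6000 / ε), hT₀, (le_max_right _ _).trans (le_max_left _ _), ?_⟩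
  intro Y hY τ hτ1 hτ2 N hN
  have hY1 : Y₀ ≤ Y := ((le_max_left _ _).trans (le_max_left _ _)).trans hY
  have hY2 : 4 ≤ Y := ((le_max_right _ _).trans (le_max_left _ _)).trans hY
  have hY3 : 6000 / ε ≤ Y := (le_max_right _ _).trans hY
  obtain ⟨z, hz, hzl, hW⟩ := h Y hY1
  have h1 := hW τ hτ1 hτ2 N hN
  have h2 := PW_close z N Y τ hY2 hzl hz
  have h3 : 3000 / Y ≤ ε / 2 := by
    rw [div_le_iff₀ (by linarith)]
    rw [div_le_iff₀ hε] at hY3
    linarith
  have h4 : ‖(Real.exp 1 : ℂ) * WF N Y τ Y (LR z)‖ ≤ 3 * (ε / 6) := by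
    rw [norm_mul, Complex.norm_real, Real.norm_eq_abs, abs_of_pos (Real.exp_pos 1)]
    have := Real.exp_one_lt_d9
    gcongr
    linarith
  calc ‖PW N τ Y‖ = ‖(PW N τ Y - (Real.exp 1 : ℂ) * WF N Y τ Y (LR z)) + (Real.exp 1 : ℂ) * WF N Y τ Y (LR z)‖ := by
        rw [sub_add_cancel]
    _ ≤ ‖PW N τ Y - (Real.exp 1 : ℂ) * WF N Y τ Y (LR z)‖ + ‖(Real.exp 1 : ℂ) * WF N Y τ Y (LR z)‖ := norm_add_le _ _
    _ ≤ ε := by linarith

end Pool.Agent.Y851.HZ
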