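import Pool.Agent.H376R2.MR.Defs
import Pool.Agent.H376R2.MR.Phas
import Pool.Agent.H376R2.MR.Kern

/-! Sums of `n^{-1+iτ}` with Lipschitz windows against the integral. -/

set_option autoImplicit false

namespace Pool.Agent.Y851.HZ
open Finset
open Pool.Agent.H376R2.MR (er kernT kern_blocks kern_er_cont kern_er_norm kern_er_add phase_sum kernT_add)

/-- windows: values in `[0,1]`, Lipschitz with constant one, supported in `[-1,1]` -/
structure Wd (g : ℝ → ℝ) : Prop where
  nonneg : ∀ x, 0 ≤ g x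
  le_one : ∀ x, g x ≤ 1
  lip : ∀ x y, |g x - g y| ≤ |x - y|
  supp : ∀ x, 1 ≤ |x| → g x = 0

lemma Wd.cont {g : ℝ → ℝ} (hg : Wd g) : Continuous g := by
  have : LipschitzWith 1 g := LipschitzWith.of_dist_le_mul fun x y => by
    rw [Real.dist_eq, Real.dist_eq]
    simpa using hg.lip x y
  exact this.continuous

/-- summation by parts -/
lemma by_parts (G e : ℕ → ℂ) (a : ℕ) : ∀ b, a ≤ b →
    ∑ i ∈ Ico a b, G i * e i = G b * (∑ i ∈ Ico a b, e i) -
      ∑ i ∈ Ico a b, (G (i + 1) - G i) * ∑ j ∈ Ico a (i + 1), e j := by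
  intro b hab
  induction b, hab using Nat.le_induction with
  | base => simp
  | succ b hab ih =>
    rw [sum_Ico_succ_top hab, ih, sum_Ico_succ_top hab, sum_Ico_succ_top hab, sum_Ico_succ_top hab]
    ring

lemma by_parts_bd (G e : ℕ → ℂ) (a b : ℕ) (hab : a ≤ b) (B : ℝ) (hB : 0 ≤ B) (hG : G b = 0)
    (hS : ∀ k, a ≤ k → k ≤ b → ‖∑ j ∈ Ico a k, e j‖ ≤ B) :
    ‖∑ i ∈ Ico a b, G i * e i‖ ≤ B * ∑ i ∈ Ico a b, ‖G (i + 1) - G i‖ := by
  rw [by_parts G e a b hab, hG, zero_mul, zero_sub, norm_neg, mul_sum]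
  refine (norm_sum_le _ _).trans (sum_le_sum fun i hi => ?_)
  rw [mem_Ico] at hi
  rw [norm_mul, mul_comm]
  exact mul_le_mul_of_nonneg_right (hS (i + 1) (by omega) (by omega)) (norm_nonneg _)

lemma log_diff {m : ℕ} (hm : 1 ≤ m) : 0 ≤ Real.log ((m + 1 : ℕ) : ℝ) - Real.log m ∧
    Real.log ((m + 1 : ℕ) : ℝ) - Real.log m ≤ 1 / m := by
  have hm0 : (0 : ℝ) < m := by exact_mod_cast hm
  constructor
  · rw [sub_nonneg]
    exact Real.log_le_log hm0 (by push_cast; linarith)
  · rw [← Real.log_div (by positivity) hm0.ne']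
    have h := Real.log_le_sub_one_of_pos (show (0 : ℝ) < ((m + 1 : ℕ) : ℝ) / m by positivity)
    refine h.trans (le_of_eq ?_)
    push_cast
    field_simp
    ring

/-- the window integral -/
noncomputable def II (g : ℝ → ℝ) (v τ : ℝ) : ℂ := ∫ y in (v - 1)..(v + 1), (g (y - v) : ℂ) * er τ y

lemma II_eq {g : ℝ → ℝ} (hg : Wd g) (v τ : ℝ) {a b : ℝ} (ha : a ≤ v - 1) (hb : v + 1 ≤ b) :
    ∫ y in a..b, (g (y - v) : ℂ) * er τ y = II g v τ := by
  have hc : Continuous (fun y : ℝ => (g (y - v) : ℂ) * er τ y) := by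
    have h1 := hg.cont
    have h2 := kern_er_cont τ
    fun_prop
  have h1 : ∫ y in a..(v - 1), (g (y - v) : ℂ) * er τ y = 0 := by
    rw [intervalIntegral.integral_congr (g := fun _ => (0 : ℂ))]
    · simp
    · intro y hy
      rw [Set.uIcc_of_le ha] at hy
      have : g (y - v) = 0 := hg.supp _ (by rw [abs_of_nonpos (by linarith [hy.2])]; linarith [hy.2])
      simp [this]
  have h2 : ∫ y in (v + 1)..b, (g (y - v) : ℂ) * er τ y = 0 := by
    rw [intervalIntegral.integral_congr (g := fun _ => (0 : ℂ))]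
    · simp
    · intro y hy
      rw [Set.uIcc_of_le hb] at hy
      have : g (y - v) = 0 := hg.supp _ (by rw [abs_of_nonneg (by linarith [hy.1])]; linarith [hy.1])
      simp [this]
  have h3 := intervalIntegral.integral_add_adjacent_intervals (hc.intervalIntegrable a (v - 1)) (hc.intervalIntegrable (v - 1) (v + 1))
    (μ := MeasureTheory.volume)
  have h4 := intervalIntegral.integral_add_adjacent_intervals (hc.intervalIntegrable a (v + 1)) (hc.intervalIntegrable (v + 1) b)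
    (μ := MeasureTheory.volume)
  rw [← h4, ← h3, h1, h2]
  simp [II]

/-- the main term -/
lemma riem {g : ℝ → ℝ} (hg : Wd g) (v τ : ℝ) {a b : ℕ} (ha : 1 ≤ a) (hab : a ≤ b) :
    ‖(∑ m ∈ Ico a b, (g (Real.log m - v) : ℂ) * ∫ s in (Real.log m)..(Real.log ((m + 1 : ℕ) : ℝ)), er τ s) -
      ∫ y in (Real.log a)..(Real.log b), (g (y - v) : ℂ) * er τ y‖ ≤ (b - a : ℝ) / a ^ 2 := by
  have ha0 : (0 : ℝ) < a := by exact_mod_cast ha
  have hc : Continuous (fun y : ℝ => (g (y - v) : ℂ) * er τ y) := by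
    have h1 := hg.cont
    have h2 := kern_er_cont τ
    fun_prop
  have hce := kern_er_cont τ
  have h1 : ∫ y in (Real.log a)..(Real.log b), (g (y - v) : ℂ) * er τ y =
      ∑ m ∈ Ico a b, ∫ y in (Real.log m)..(Real.log ((m + 1 : ℕ) : ℝ)), (g (y - v) : ℂ) * er τ y := by
    rw [intervalIntegral.sum_integral_adjacent_intervals_Ico (a := fun m : ℕ => Real.log (m : ℝ)) hab]
    intro k _
    exact hc.intervalIntegrable _ _
  rw [h1, ← sum_sub_distrib]
  refine (norm_sum_le _ _).trans ?_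
  have h2 : ∀ m ∈ Ico a b, ‖(g (Real.log m - v) : ℂ) * (∫ s in (Real.log m)..(Real.log ((m + 1 : ℕ) : ℝ)), er τ s) -
      ∫ y in (Real.log m)..(Real.log ((m + 1 : ℕ) : ℝ)), (g (y - v) : ℂ) * er τ y‖ ≤ 1 / a ^ 2 := by
    intro m hm
    rw [mem_Ico] at hm
    have hm1 : 1 ≤ m := ha.trans hm.1
    have hm0 : (0 : ℝ) < m := by exact_mod_cast hm1
    obtain ⟨d0, d1⟩ := log_diff hm1
    rw [← intervalIntegral.integral_const_mul, ← intervalIntegral.integral_sub
      ((hce.const_mul _).intervalIntegrable _ _) (hc.intervalIntegrable _ _)]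
    have h3 : ∀ y ∈ Set.uIoc (Real.log m) (Real.log ((m + 1 : ℕ) : ℝ)),
        ‖(g (Real.log m - v) : ℂ) * er τ y - (g (y - v) : ℂ) * er τ y‖ ≤ 1 / m := by
      intro y hy
      rw [Set.uIoc_of_le (by linarith)] at hy
      rw [← sub_mul, norm_mul, kern_er_norm, mul_one, ← Complex.ofReal_sub, Complex.norm_real, Real.norm_eq_abs]
      refine (hg.lip _ _).trans ?_
      rw [show Real.log m - v - (y - v) = -(y - Real.log m) by ring, abs_neg, abs_of_nonneg (by linarith [hy.1])]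
      linarith [hy.2]
    have h4 := intervalIntegral.norm_integral_le_of_norm_le_const h3
    refine h4.trans ?_
    rw [abs_of_nonneg d0]
    calc 1 / (m : ℝ) * (Real.log ((m + 1 : ℕ) : ℝ) - Real.log m) ≤ 1 / m * (1 / m) := by gcongr
      _ = 1 / (m : ℝ) ^ 2 := by rw [sq, one_div_mul_one_div]
      _ ≤ 1 / (a : ℝ) ^ 2 := by
        have : (a : ℝ) ≤ m := by exact_mod_cast hm.1
        gcongr
  refine (sum_le_sum h2).trans ?_
  rw [sum_const, Nat.card_Ico, nsmul_eq_mul, Nat.cast_sub hab]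
  rw [mul_one_div]

/-- sums over windows -/
noncomputable def SS (g : ℝ → ℝ) (v τ : ℝ) : ℂ :=
  ∑ n ∈ Icc 1 ⌊Real.exp (v + 1)⌋₊, ((g (Real.log n - v) / n : ℝ) : ℂ) * er τ (Real.log n)

lemma exp_two_lt : Real.exp 2 < 7.4 := by
  have h1 : Real.exp 2 = Real.exp 1 ^ 2 := by rw [← Real.exp_nat_mul]; norm_num
  rw [h1]
  have := Real.exp_one_lt_d9
  have h0 := Real.exp_pos 1
  nlinarith

theorem type_one (M : ℕ) : ∃ η C : ℝ, 0 < η ∧ η ≤ 1 / 2 ∧ 0 < C ∧ ∀ g : ℝ → ℝ, Wd g → ∀ v τ : ℝ, 4 ≤ v →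
    |τ| ≤ Real.exp (M * v) → ‖SS g v τ - II g v τ‖ ≤ C * Real.exp (-(η * v)) := by
  obtain ⟨η, C, hη, hη1, hC, hph⟩ := phase_sum (2 * M)
  have hbl := kern_blocks (2 * M) η C hη hC hph 3
  refine ⟨η / 2, 12 * C * 4 + 27 * 8, by positivity, by linarith, by positivity, ?_⟩
  intro g hg v τ hv hτ
  set a : ℕ := ⌊Real.exp (v - 1)⌋₊ with ha
  set b : ℕ := ⌊Real.exp (v + 1)⌋₊ + 1 with hb
  have hev : Real.exp 2 ≤ Real.exp (v - 1) := Real.exp_le_exp.2 (by linarith)
  have he2 : (4 : ℝ) ≤ Real.exp 2 := by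
    have h1 : Real.exp 2 = Real.exp 1 ^ 2 := by rw [← Real.exp_nat_mul]; norm_num
    have := Real.exp_one_gt_d9
    rw [h1]; nlinarith
  have ha1 : (a : ℝ) ≤ Real.exp (v - 1) := Nat.floor_le (Real.exp_pos _).le
  have ha2 : Real.exp (v - 1) < a + 1 := Nat.lt_floor_add_one _
  have ha3 : Real.exp (v - 1) / 2 ≤ a := by linarith
  have ha4 : 1 ≤ a := by
    have : (1 : ℝ) ≤ a := by linarith
    exact_mod_cast this
  have ha0 : (0 : ℝ) < a := by exact_mod_cast ha4
  have hb1 : Real.exp (v + 1) < b := by rw [hb]; push_cast; exact Nat.lt_floor_add_one _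
  have hb2 : (b : ℝ) ≤ Real.exp (v + 1) + 1 := by
    rw [hb]; push_cast
    linarith [Nat.floor_le (Real.exp_pos (v + 1)).le]
  have hev2 : Real.exp (v + 1) = Real.exp 2 * Real.exp (v - 1) := by rw [← Real.exp_add]; congr 1; ring
  have hb3 : (b : ℝ) ≤ 27 * a := by
    have := exp_two_lt
    have h5 : Real.exp 2 * Real.exp (v - 1) ≤ 7.4 * Real.exp (v - 1) := by gcongr
    rw [hev2] at hb2
    linarith
  have hb4 : b ≤ 3 ^ 3 * a := by
    have : (b : ℝ) ≤ ((3 ^ 3 * a : ℕ) : ℝ) := by push_cast; linarith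
    exact_mod_cast this
  have hab : a ≤ b := by
    have : (a : ℝ) ≤ b := by
      have := Real.exp_le_exp.2 (show v - 1 ≤ v + 1 by linarith)
      linarith
    exact_mod_cast this
  -- size of τ
  have hτa : |τ| ≤ (a : ℝ) ^ (2 * M) := by
    refine hτ.trans ?_
    have h1 : Real.exp (v / 2) ≤ a := by
      have h2 : Real.exp (v / 2) ≤ Real.exp (v - 1) / 2 := by
        rw [le_div_iff₀ (by norm_num : (0 : ℝ) < 2)]
        have h3 : (2 : ℝ) ≤ Real.exp 1 := by linarith [Real.exp_one_gt_d9]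
        have h4 : Real.exp (v - 1) = Real.exp (v / 2) * Real.exp (v / 2 - 1) := by
          rw [← Real.exp_add]; congr 1; ring
        have h5 : Real.exp 1 ≤ Real.exp (v / 2 - 1) := Real.exp_le_exp.2 (by linarith)
        rw [h4]
        have h6 := Real.exp_pos (v / 2)
        nlinarith
      linarith
    have h7 : Real.exp (M * v) = Real.exp (v / 2) ^ (2 * M) := by
      rw [← Real.exp_nat_mul]; congr 1; push_cast; ring
    rw [h7]
    gcongr
  -- partial sums
  have hpart : ∀ k, a ≤ k → k ≤ b → ‖∑ j ∈ Ico a k, (er τ (Real.log j) / (j : ℂ) -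
      ∫ s in (Real.log j)..(Real.log ((j + 1 : ℕ) : ℝ)), er τ s)‖ ≤ 3 * C * (a : ℝ) ^ (-η) := by
    intro k hak hkb
    have h1 := hbl a k τ ha4 hak (hkb.trans hb4) hτa
    have h2 : kernT τ a k = ∑ j ∈ Ico a k, (er τ (Real.log j) / (j : ℂ) -
      ∫ s in (Real.log j)..(Real.log ((j + 1 : ℕ) : ℝ)), er τ s) := by
      rw [sum_sub_distrib, intervalIntegral.sum_integral_adjacent_intervals_Ico
        (a := fun m : ℕ => Real.log (m : ℝ)) hak (fun j _ => (kern_er_cont τ).intervalIntegrable _ _)]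
      rfl
    rw [← h2]
    simpa using h1
  have hanon : 0 ≤ 3 * C * (a : ℝ) ^ (-η) := by positivity
  have hgb : g (Real.log b - v) = 0 := by
    apply hg.supp
    have : v + 1 ≤ Real.log b := by
      rw [Real.le_log_iff_exp_le (by linarith [Real.exp_pos (v + 1)])]
      exact hb1.le
    rw [abs_of_nonneg (by linarith)]
    linarith
  have key := by_parts_bd (fun m => (g (Real.log m - v) : ℂ)) (fun j => er τ (Real.log j) / (j : ℂ) -
      ∫ s in (Real.log j)..(Real.log ((j + 1 : ℕ) : ℝ)), er τ s) a b hab _ hanon (by simp [hgb]) hpart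
  have hvar : ∑ i ∈ Ico a b, ‖(g (Real.log ((i + 1 : ℕ) : ℝ) - v) : ℂ) - (g (Real.log i - v) : ℂ)‖ ≤ 4 := by
    have h1 : ∀ i ∈ Ico a b, ‖(g (Real.log ((i + 1 : ℕ) : ℝ) - v) : ℂ) - (g (Real.log i - v) : ℂ)‖ ≤
        Real.log ((i + 1 : ℕ) : ℝ) - Real.log (i : ℝ) := by
      intro i hi
      rw [mem_Ico] at hi
      obtain ⟨d0, _⟩ := log_diff (ha4.trans hi.1)
      rw [← Complex.ofReal_sub, Complex.norm_real, Real.norm_eq_abs]
      refine (hg.lip _ _).trans ?_
      rw [show Real.log ((i + 1 : ℕ) : ℝ) - v - (Real.log i - v) =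
        Real.log ((i + 1 : ℕ) : ℝ) - Real.log i by ring, abs_of_nonneg d0]
    refine (sum_le_sum h1).trans ?_
    rw [Finset.sum_Ico_sub (fun i : ℕ => Real.log (i : ℝ)) hab]
    have hb0 : (0 : ℝ) < b := by linarith [Real.exp_pos (v + 1)]
    rw [← Real.log_div hb0.ne' ha0.ne']
    have h2 : (b : ℝ) / a ≤ Real.exp 4 := by
      rw [div_le_iff₀ ha0]
      have h3 : (27 : ℝ) ≤ Real.exp 4 := by
        have h4 : Real.exp 4 = Real.exp 1 ^ 4 := by rw [← Real.exp_nat_mul]; norm_num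
        have h5 := Real.exp_one_gt_d9
        have h6 : (2.7 : ℝ) ^ 4 ≤ Real.exp 1 ^ 4 := by gcongr; linarith
        rw [h4]
        have h7 : (27 : ℝ) ≤ 2.7 ^ 4 := by norm_num
        linarith
      nlinarith
    rw [Real.log_le_iff_le_exp (by positivity)]
    exact h2
  have hsum : SS g v τ = ∑ m ∈ Ico a b, (g (Real.log m - v) : ℂ) * (er τ (Real.log m) / (m : ℂ)) := by
    unfold SS
    have h1 : ∀ n : ℕ, ((g (Real.log n - v) / n : ℝ) : ℂ) * er τ (Real.log n) =
        (g (Real.log n - v) : ℂ) * (er τ (Real.log n) / (n : ℂ)) := by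
      intro n; push_cast; ring
    rw [sum_congr rfl (fun n _ => h1 n)]
    symm
    apply sum_subset
    · intro m hm
      rw [mem_Ico] at hm
      rw [mem_Icc]
      omega
    · intro m hm hm2
      rw [mem_Icc] at hm
      rw [mem_Ico] at hm2
      have hma : m < a := by omega
      have : g (Real.log m - v) = 0 := by
        apply hg.supp
        have hm0 : (0 : ℝ) < m := by exact_mod_cast hm.1
        have hlm : Real.log m ≤ v - 1 := by
          rw [Real.log_le_iff_le_exp hm0]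
          have : (m : ℝ) ≤ a := by exact_mod_cast hma.le
          linarith
        rw [abs_of_nonpos (by linarith)]
        linarith
      simp [this]
  have hri := riem hg v τ ha4 hab
  have hII := II_eq hg v τ (a := Real.log a) (b := Real.log b) (by
    rw [Real.log_le_iff_le_exp ha0]; exact ha1) (by
    rw [Real.le_log_iff_exp_le (by linarith [Real.exp_pos (v + 1)])]; exact hb1.le)
  rw [hII] at hri
  have hdec : SS g v τ - II g v τ = (∑ i ∈ Ico a b, (g (Real.log i - v) : ℂ) * (er τ (Real.log i) / (i : ℂ) -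
      ∫ s in (Real.log i)..(Real.log ((i + 1 : ℕ) : ℝ)), er τ s)) +
      ((∑ m ∈ Ico a b, (g (Real.log m - v) : ℂ) * ∫ s in (Real.log m)..(Real.log ((m + 1 : ℕ) : ℝ)), er τ s) -
        II g v τ) := by
    rw [hsum]
    simp only [mul_sub, sum_sub_distrib]
    ring
  rw [hdec]
  refine (norm_add_le _ _).trans ?_
  have k1 : ‖∑ i ∈ Ico a b, (g (Real.log i - v) : ℂ) * (er τ (Real.log i) / (i : ℂ) -
      ∫ s in (Real.log i)..(Real.log ((i + 1 : ℕ) : ℝ)), er τ s)‖ ≤ 3 * C * (a : ℝ) ^ (-η) * 4 :=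
    key.trans (mul_le_mul_of_nonneg_left hvar hanon)
  -- powers of a
  have hea : Real.exp (v / 2) ≤ a := by
    have h4 : Real.exp (v - 1) = Real.exp (v / 2) * Real.exp (v / 2 - 1) := by
      rw [← Real.exp_add]; congr 1; ring
    have h5 : Real.exp 1 ≤ Real.exp (v / 2 - 1) := Real.exp_le_exp.2 (by linarith)
    have h3 : (2 : ℝ) ≤ Real.exp 1 := by linarith [Real.exp_one_gt_d9]
    have h6 := Real.exp_pos (v / 2)
    nlinarith
  have k2 : (a : ℝ) ^ (-η) ≤ Real.exp (-(η / 2 * v)) := by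
    have h1 : (a : ℝ) ^ (-η) ≤ (Real.exp (v / 2)) ^ (-η) :=
      Real.rpow_le_rpow_of_nonpos (Real.exp_pos _) hea (by linarith)
    refine h1.trans (le_of_eq ?_)
    rw [← Real.exp_mul]
    congr 1
    ring
  have k3 : ((b : ℝ) - a) / a ^ 2 ≤ 27 * 8 * Real.exp (-(η / 2 * v)) := by
    have h1 : ((b : ℝ) - a) / a ^ 2 ≤ 27 / a := by
      rw [div_le_div_iff₀ (by positivity) ha0]
      nlinarith
    have h2 : 27 / (a : ℝ) ≤ 27 / Real.exp (v / 2) := by gcongr
    have h3 : 27 / Real.exp (v / 2) = 27 * Real.exp (-(v / 2)) := by rw [Real.exp_neg]; ring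
    have h4 : Real.exp (-(v / 2)) ≤ Real.exp (-(η / 2 * v)) := Real.exp_le_exp.2 (by nlinarith)
    have h5 := Real.exp_pos (-(η / 2 * v))
    linarith
  have k4 : 0 < Real.exp (-(η / 2 * v)) := Real.exp_pos _
  nlinarith [hri, k1, k2, k3]

/-- the integral is small for large frequencies -/
lemma II_bound {g : ℝ → ℝ} (hg : Wd g) (v τ : ℝ) (hτ : 4 ≤ |τ|) : ‖II g v τ‖ ≤ 8 / |τ| := by
  have hτ0 : τ ≠ 0 := by
    rintro rfl
    simp at hτ
    linarith
  have hτp : 0 < |τ| := abs_pos.2 hτ0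
  set h : ℝ := Real.pi / τ with hh
  have hpi := Real.pi_pos
  have hpi4 := Real.pi_lt_d2
  have habs : |h| = Real.pi / |τ| := by rw [hh, abs_div, abs_of_pos hpi]
  have hh1 : |h| ≤ 1 := by
    rw [habs, div_le_one hτp]; linarith
  have hc := hg.cont
  have hce := kern_er_cont τ
  have hF : Continuous (fun y : ℝ => (g (y - v) : ℂ) * er τ y) := by fun_prop
  have e1 : II g v τ = ∫ y in (v - 2)..(v + 2), (g (y - v) : ℂ) * er τ y :=
    (II_eq hg v τ (by linarith) (by linarith)).symm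
  have e2 : II g v τ = ∫ y in (v - 2 + h)..(v + 2 + h), (g (y - v) : ℂ) * er τ y :=
    (II_eq hg v τ (by linarith [(abs_le.1 hh1).2]) (by linarith [(abs_le.1 hh1).1])).symm
  have e3 : ∫ y in (v - 2 + h)..(v + 2 + h), (g (y - v) : ℂ) * er τ y =
      ∫ y in (v - 2)..(v + 2), -((g (y + h - v) : ℂ) * er τ y) := by
    rw [← intervalIntegral.integral_comp_add_right (fun y : ℝ => (g (y - v) : ℂ) * er τ y) h]
    apply intervalIntegral.integral_congr
    intro y _
    simp only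
    have : er τ h = -1 := by
      unfold Pool.Agent.H376R2.MR.er
      rw [hh, mul_div_cancel₀ _ hτ0, Complex.exp_pi_mul_I]
    rw [kern_er_add, this]
    ring
  have e4 : (2 : ℂ) * II g v τ = ∫ y in (v - 2)..(v + 2), ((g (y - v) : ℂ) - (g (y + h - v) : ℂ)) * er τ y := by
    have hF2 : Continuous (fun y : ℝ => -((g (y + h - v) : ℂ) * er τ y)) := by fun_prop
    have e5 : ∫ y in (v - 2)..(v + 2), ((g (y - v) : ℂ) - (g (y + h - v) : ℂ)) * er τ y =
        (∫ y in (v - 2)..(v + 2), (g (y - v) : ℂ) * er τ y) +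
        ∫ y in (v - 2)..(v + 2), -((g (y + h - v) : ℂ) * er τ y) := by
      rw [← intervalIntegral.integral_add (hF.intervalIntegrable _ _) (hF2.intervalIntegrable _ _)]
      apply intervalIntegral.integral_congr
      intro y _
      simp only
      ring
    rw [e5, ← e1, ← e3, ← e2]
    ring
  have e6 : ‖(2 : ℂ) * II g v τ‖ ≤ |h| * |(v + 2) - (v - 2)| := by
    rw [e4]
    apply intervalIntegral.norm_integral_le_of_norm_le_const
    intro y _
    rw [norm_mul, kern_er_norm, mul_one, ← Complex.ofReal_sub, Complex.norm_real, Real.norm_eq_abs]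
    refine (hg.lip _ _).trans (le_of_eq ?_)
    rw [show y - v - (y + h - v) = -h by ring, abs_neg]
  rw [norm_mul, show (v + 2) - (v - 2) = 4 by ring, habs] at e6
  have e7 : ‖(2 : ℂ)‖ = 2 := by simp
  rw [e7, abs_of_pos (by norm_num : (0 : ℝ) < 4)] at e6
  have e8 : Real.pi / |τ| ≤ 4 / |τ| := by gcongr; linarith
  have e9 : 8 / |τ| = 2 * (4 / |τ|) := by ring
  rw [e9]
  linarith

/-- trivial bound -/
lemma II_le {g : ℝ → ℝ} (hg : Wd g) (v τ : ℝ) : ‖II g v τ‖ ≤ 2 := by
  unfold II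
  have h := intervalIntegral.norm_integral_le_of_norm_le_const (a := v - 1) (b := v + 1) (C := 1)
    (f := fun y => (g (y - v) : ℂ) * er τ y) (by
      intro y _
      rw [norm_mul, kern_er_norm, mul_one, Complex.norm_real, Real.norm_eq_abs, abs_of_nonneg (hg.nonneg _)]
      exact hg.le_one _)
  refine h.trans (le_of_eq ?_)
  rw [show v + 1 - (v - 1) = 2 by ring, abs_of_pos (by norm_num : (0 : ℝ) < 2)]
  norm_num

end Pool.Agent.Y851.HZ
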