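import Pool.Agent.Y851.HZ.Ch

/-! The main window estimate for rough numbers, totals. -/

set_option autoImplicit false

namespace Pool.Agent.Y851.HZ
open Finset
open Pool.Agent.H376R2.MR (er kern_er_cont kern_er_norm kern_er_add)
open Pool.Agent.H376R2.MR renaming w → tw
open Pool.Agent.H318R2.Cr (Rgh Pz mem_Pz one_sub_inv_pos V_pos V_le_one cz_bounds)
open Pool.Agent.H318R2.Cr renaming V → VV
open ArithmeticFunction (vonMangoldt)

/-- a rough number is one or large -/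
lemma rough_gt {z n : ℕ} (hn : 2 ≤ n) (hr : Rgh z n) : z < n := by
  have h1 := Nat.minFac_prime (show n ≠ 1 by omega)
  have h2 := Nat.minFac_dvd n
  have h3 := Nat.minFac_le (show 0 < n by omega)
  by_contra h
  exact hr _ h1 (by omega) h2

lemma rough_total : ∃ (z₁ : ℕ) (C : ℝ), 2 ≤ z₁ ∧ 1 ≤ C ∧ ∀ z : ℕ, z₁ ≤ z → ∀ v : ℝ, 0 ≤ v →
    ∀ S : Finset ℕ, (∀ n ∈ S, 1 ≤ n ∧ Real.log n ≤ v ∧ Rgh z n) →
      ∑ n ∈ S, 1 / (n : ℝ) ≤ 1 + C * (v + 1) / Real.log z := by
  obtain ⟨z₁, C, hz₁, hC, h⟩ := rough_unit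
  refine ⟨z₁, C, hz₁, hC, fun z hz v hv S hS => ?_⟩
  have hz1 : (1 : ℝ) < z := by exact_mod_cast (show 1 < z by omega)
  have hlz : 0 < Real.log z := Real.log_pos hz1
  rw [← sum_filter_add_sum_filter_not S (fun n => n = 1)]
  have h1 : ∑ n ∈ S.filter (fun n => n = 1), 1 / (n : ℝ) ≤ 1 := by
    have : S.filter (fun n => n = 1) ⊆ {1} := by
      intro n hn
      rw [mem_filter] at hn
      rw [mem_singleton]; exact hn.2
    refine (sum_le_sum_of_subset_of_nonneg this (fun _ _ _ => by positivity)).trans (le_of_eq ?_)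
    simp
  have h2 : ∑ n ∈ S.filter (fun n => ¬ n = 1), 1 / (n : ℝ) ≤ C / Real.log z * ∑ j ∈ range (⌊v⌋₊ + 1), (1 : ℝ) := by
    apply win_cover (S.filter (fun n => ¬ n = 1)) (range (⌊v⌋₊ + 1)) (fun n => 1 / (n : ℝ)) (fun n _ => by positivity)
      (fun n hn => (hS n (mem_filter.1 hn).1).1) (fun n hn => by
        rw [mem_range, Nat.lt_succ_iff]
        exact Nat.floor_le_floor (hS n (mem_filter.1 hn).1).2.1) (fun _ => 1) (fun n => 1 / (n : ℝ))
      (fun _ _ => zero_le_one) (fun _ _ _ _ _ _ => by rw [one_mul])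
    intro j _
    rcases ((S.filter (fun n => ¬ n = 1)).filter (fun n : ℕ => (j : ℝ) ≤ Real.log n ∧ Real.log n < j + 1)).eq_empty_or_nonempty with he | ⟨m, hm⟩
    · rw [he]
      simp only [sum_empty]
      positivity
    · have hmm := mem_filter.1 hm
      have hm2 := mem_filter.1 hmm.1
      have hm1 := (hS m hm2.1).1
      have hmz := rough_gt (show 2 ≤ m by omega) (hS m hm2.1).2.2
      have hlm : Real.log z ≤ Real.log m := Real.log_le_log (by linarith) (by exact_mod_cast hmz.le)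
      apply h z hz (j + 1) (by linarith [hmm.2.2])
      intro n hn
      have hnn := mem_filter.1 hn
      have hn2 := mem_filter.1 hnn.1
      refine ⟨(hS n hn2.1).1, ?_, (hS n hn2.1).2.2⟩
      rw [abs_le]
      constructor <;> linarith [hnn.2.1, hnn.2.2]
  have h3 : ∑ j ∈ range (⌊v⌋₊ + 1), (1 : ℝ) ≤ v + 1 := by
    rw [sum_const, card_range, nsmul_eq_mul, mul_one]
    push_cast
    linarith [Nat.floor_le hv]
  have h4 : C / Real.log z * ∑ j ∈ range (⌊v⌋₊ + 1), (1 : ℝ) ≤ C / Real.log z * (v + 1) := by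
    gcongr
  have h5 : C * (v + 1) / Real.log z = C / Real.log z * (v + 1) := by ring
  rw [h5]
  linarith

lemma lam_total (Y : ℝ) (hY : 1 ≤ Y) (S : Finset ℕ) (hS : ∀ n ∈ S, 1 ≤ n) :
    ∑ n ∈ S, vonMangoldt n / n * Real.exp (-(Real.log n / Y)) ≤ 96 * Y := by
  have hY0 : 0 < Y := by linarith
  obtain ⟨N, hN⟩ : ∃ N : ℕ, ∀ n ∈ S, ⌊Real.log (n : ℝ)⌋₊ < N := by
    refine ⟨∑ n ∈ S, (⌊Real.log (n : ℝ)⌋₊ + 1), fun n hn => ?_⟩
    have := single_le_sum (f := fun n : ℕ => ⌊Real.log (n : ℝ)⌋₊ + 1) (fun _ _ => Nat.zero_le _) hn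
    omega
  have h := win_cover S (range N) (fun n => vonMangoldt n / n * Real.exp (-(Real.log n / Y)))
    (fun n _ => mul_nonneg (div_nonneg ArithmeticFunction.vonMangoldt_nonneg (Nat.cast_nonneg _)) (Real.exp_pos _).le)
    hS (fun n hn => mem_range.2 (hN n hn)) (fun j => Real.exp (-((j : ℝ) / Y))) (fun n => vonMangoldt n / n)
    (fun j _ => (Real.exp_pos _).le) (fun j _ n _ h1 _ => by
      rw [mul_comm]
      apply mul_le_mul_of_nonneg_right _ (div_nonneg ArithmeticFunction.vonMangoldt_nonneg (Nat.cast_nonneg _))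
      apply Real.exp_le_exp.2
      apply neg_le_neg
      gcongr) 48 (fun j _ => by
      apply lam_win j
      intro n hn
      have hnn := mem_filter.1 hn
      refine ⟨hS n hnn.1, ?_⟩
      rw [abs_le]
      constructor <;> linarith [hnn.2.1, hnn.2.2])
  have hg := geo_exp Y hY N
  linarith

lemma lam_tail (Y : ℝ) (hY : 1 ≤ Y) (B : ℝ) (S : Finset ℕ) (hS : ∀ n ∈ S, 1 ≤ n ∧ B * Y ≤ Real.log n) :
    ∑ n ∈ S, vonMangoldt n / n * Real.exp (-(Real.log n / Y)) ≤ 192 * Real.exp (-(B / 2)) * Y := by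
  have hY0 : 0 < Y := by linarith
  have h1 : ∀ n ∈ S, vonMangoldt n / n * Real.exp (-(Real.log n / Y)) ≤
      Real.exp (-(B / 2)) * (vonMangoldt n / n * Real.exp (-(Real.log n / (2 * Y)))) := by
    intro n hn
    have h2 : Real.exp (-(Real.log n / Y)) = Real.exp (-(Real.log n / (2 * Y))) * Real.exp (-(Real.log n / (2 * Y))) := by
      rw [← Real.exp_add]; congr 1; field_simp; ring
    have h3 : Real.exp (-(Real.log n / (2 * Y))) ≤ Real.exp (-(B / 2)) := by
      apply Real.exp_le_exp.2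
      apply neg_le_neg
      rw [div_le_div_iff₀ (by norm_num) (by positivity)]
      have := (hS n hn).2
      nlinarith
    have h4 : 0 ≤ vonMangoldt n / n := div_nonneg ArithmeticFunction.vonMangoldt_nonneg (Nat.cast_nonneg _)
    rw [h2]
    calc vonMangoldt n / n * (Real.exp (-(Real.log n / (2 * Y))) * Real.exp (-(Real.log n / (2 * Y))))
        = Real.exp (-(Real.log n / (2 * Y))) * (vonMangoldt n / n * Real.exp (-(Real.log n / (2 * Y)))) := by ring
      _ ≤ _ := by gcongr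
  refine (sum_le_sum h1).trans ?_
  rw [← mul_sum]
  have h5 := lam_total (2 * Y) (by linarith) S (fun n hn => (hS n hn).1)
  have h6 := Real.exp_pos (-(B / 2))
  nlinarith

lemma exp_lip {a b : ℝ} (ha : a ≤ 0) (hb : b ≤ 0) : |Real.exp a - Real.exp b| ≤ |a - b| := by
  wlog h : b ≤ a generalizing a b
  · rw [abs_sub_comm, abs_sub_comm a]
    exact this hb ha (le_of_not_ge h)
  · rw [abs_of_nonneg (sub_nonneg.2 (Real.exp_le_exp.2 h)), abs_of_nonneg (sub_nonneg.2 h)]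
    have h1 : Real.exp a ≤ 1 := Real.exp_le_one_iff.2 ha
    have h2 : 1 - (a - b) ≤ Real.exp (b - a) := by linarith [Real.add_one_le_exp (b - a)]
    have h3 : Real.exp b = Real.exp a * Real.exp (b - a) := by rw [← Real.exp_add]; congr 1; ring
    have h4 := Real.exp_pos a
    rw [h3]
    nlinarith

/-- the weighted windows are windows -/
lemma win_i (i : ℕ) (hi : i ≤ 2) (v Y : ℝ) (hv : 1 ≤ v) (hY : 1 ≤ Y) : ∃ g : ℝ → ℝ, Wd g ∧ ∀ n : ℕ,
    tw (Real.log n - v) * (Real.log n) ^ i * Real.exp (-(Real.log n / Y)) / n =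
      (4 * (2 * v) ^ i * Real.exp (-((v - 1) / Y))) * (g (Real.log n - v) / n) := by
  have hv0 : 0 < v := by linarith
  have hY0 : 0 < Y := by linarith
  set φ : ℝ → ℝ := fun x => ((v + x) / (2 * v)) ^ i * Real.exp (-((1 + x) / Y)) with hφ
  have hu : ∀ x, |x| ≤ 1 → 0 ≤ (v + x) / (2 * v) ∧ (v + x) / (2 * v) ≤ 1 := by
    intro x hx
    rw [abs_le] at hx
    constructor
    · apply div_nonneg <;> linarith
    · rw [div_le_one (by linarith)]; linarith
  have he : ∀ x, |x| ≤ 1 → -((1 + x) / Y) ≤ 0 := by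
    intro x hx
    rw [abs_le] at hx
    rw [neg_nonpos]
    apply div_nonneg <;> linarith
  refine ⟨fun x => 1 / 4 * (tw x * φ (clamp x)), wd_of φ ?_ ?_ ?_, ?_⟩
  · intro x hx
    have := (hu x hx).1
    simp only [hφ]
    positivity
  · intro x hx
    have h1 : ((v + x) / (2 * v)) ^ i ≤ 1 := pow_le_one₀ (hu x hx).1 (hu x hx).2
    have h2 : Real.exp (-((1 + x) / Y)) ≤ 1 := Real.exp_le_one_iff.2 (he x hx)
    have h3 : 0 ≤ ((v + x) / (2 * v)) ^ i := pow_nonneg (hu x hx).1 i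
    simp only [hφ]
    calc ((v + x) / (2 * v)) ^ i * Real.exp (-((1 + x) / Y)) ≤ 1 * 1 := by gcongr
      _ = 1 := one_mul 1
  · intro x y hx hy
    obtain ⟨hx0, hx1⟩ := hu x hx
    obtain ⟨hy0, hy1⟩ := hu y hy
    have h1 : |((v + x) / (2 * v)) ^ i - ((v + y) / (2 * v)) ^ i| ≤ |x - y| := by
      have hd : |(v + x) / (2 * v) - (v + y) / (2 * v)| ≤ |x - y| / 2 := by
        rw [← sub_div, abs_div, abs_of_pos (by linarith : 0 < 2 * v), show v + x - (v + y) = x - y by ring]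
        rw [div_le_div_iff₀ (by linarith) (by norm_num)]
        nlinarith [abs_nonneg (x - y)]
      interval_cases i
      · simp
      · simp only [pow_one]
        linarith [abs_nonneg (x - y)]
      · have e : ((v + x) / (2 * v)) ^ 2 - ((v + y) / (2 * v)) ^ 2 =
            ((v + x) / (2 * v) + (v + y) / (2 * v)) * ((v + x) / (2 * v) - (v + y) / (2 * v)) := by ring
        rw [e, abs_mul, abs_of_nonneg (by linarith)]
        have := abs_nonneg ((v + x) / (2 * v) - (v + y) / (2 * v))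
        nlinarith
    have h2 : |Real.exp (-((1 + x) / Y)) - Real.exp (-((1 + y) / Y))| ≤ |x - y| := by
      refine (exp_lip (he x hx) (he y hy)).trans ?_
      rw [show -((1 + x) / Y) - -((1 + y) / Y) = -((x - y) / Y) by ring, abs_neg, abs_div, abs_of_pos hY0,
        div_le_iff₀ hY0]
      nlinarith [abs_nonneg (x - y)]
    have h3 : Real.exp (-((1 + x) / Y)) ≤ 1 := Real.exp_le_one_iff.2 (he x hx)
    have h4 : ((v + y) / (2 * v)) ^ i ≤ 1 := pow_le_one₀ hy0 hy1
    have h5 : 0 ≤ ((v + y) / (2 * v)) ^ i := pow_nonneg hy0 i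
    have e : φ x - φ y = (((v + x) / (2 * v)) ^ i - ((v + y) / (2 * v)) ^ i) * Real.exp (-((1 + x) / Y)) +
        ((v + y) / (2 * v)) ^ i * (Real.exp (-((1 + x) / Y)) - Real.exp (-((1 + y) / Y))) := by
      simp only [hφ]; ring
    rw [e]
    refine (abs_add_le _ _).trans ?_
    rw [abs_mul, abs_mul, abs_of_pos (Real.exp_pos _), abs_of_nonneg h5]
    have k1 : |((v + x) / (2 * v)) ^ i - ((v + y) / (2 * v)) ^ i| * Real.exp (-((1 + x) / Y)) ≤ |x - y| * 1 := by
      gcongr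
    have k2 : ((v + y) / (2 * v)) ^ i * |Real.exp (-((1 + x) / Y)) - Real.exp (-((1 + y) / Y))| ≤ 1 * |x - y| := by
      gcongr
    linarith [abs_nonneg (x - y)]
  · intro n
    simp only [hφ]
    by_cases h : |Real.log n - v| ≤ 1
    · rw [clamp_eq h]
      have e1 : v + (Real.log n - v) = Real.log n := by ring
      have e2 : Real.exp (-((v - 1) / Y)) * Real.exp (-((1 + (Real.log n - v)) / Y)) = Real.exp (-(Real.log n / Y)) := by
        rw [← Real.exp_add]; congr 1; field_simp; ring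
      rw [e1, ← e2, div_pow]
      have h2v : (2 * v) ^ i ≠ 0 := pow_ne_zero _ (by positivity)
      field_simp
    · push Not at h
      rw [tw_supp _ h.le]
      ring

/-- the main window estimate: in the range where all divisors are small, windows of the twisted
rough numbers are small relative to the density -/
theorem main_win : ∃ C0 : ℕ, 1 ≤ C0 ∧ ∀ M b u : ℕ, C0 ≤ b → 1 ≤ u → ∃ L₁ : ℝ, ∀ z : ℕ, 2 ≤ z → L₁ ≤ Real.log z →
    ∀ Y : ℝ, Y ≤ 2 * u * Real.log z → ∀ v : ℝ, 8 * C0 * b * Real.log z ≤ v → ∀ τ : ℝ, 4 ≤ |τ| →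
    |τ| ≤ Real.exp (M * Y) → ∀ g : ℝ → ℝ, Wd g →
    ‖SR z g v τ‖ ≤ VV z * (8 / |τ| + 3 * (1 / 2 : ℝ) ^ b) := by
  classical
  obtain ⟨C0, K0, hC0, hK0, hR⟩ := rough_win
  obtain ⟨c1, c2, hc1, hc12, hcz⟩ := cz_bounds
  refine ⟨C0, hC0, fun M b u hb hu => ?_⟩
  obtain ⟨η, C, hη, hη1, hC, hW⟩ := hR (M * u)
  have hC0r : (1 : ℝ) ≤ C0 := by exact_mod_cast hC0
  have hK0r : (1 : ℝ) ≤ K0 := by exact_mod_cast hK0
  have hbr : (1 : ℝ) ≤ b := by exact_mod_cast hC0.trans hb
  have hur : (1 : ℝ) ≤ u := by exact_mod_cast hu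
  -- the decay
  obtain ⟨L0, hL00, hL0⟩ : ∃ L0 : ℝ, 0 ≤ L0 ∧ ∀ L : ℝ, L0 ≤ L →
      K0 * b * (C * Real.exp (-(η * L))) * L ^ 2 ≤ (1 / 2 : ℝ) ^ b * (c1 / L) := by
    have h1 := Real.tendsto_pow_mul_exp_neg_atTop_nhds_zero 3
    have h2 : Filter.Tendsto (fun L : ℝ => η * L) Filter.atTop Filter.atTop :=
      Filter.tendsto_id.const_mul_atTop hη
    have h3 := h1.comp h2
    have hε : 0 < (1 / 2 : ℝ) ^ b * c1 * η ^ 3 / (K0 * b * C) := by positivity
    obtain ⟨L0, hL0⟩ := Filter.eventually_atTop.1 (h3.eventually (gt_mem_nhds hε))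
    refine ⟨max L0 1, by linarith [le_max_right L0 1], fun L hL => ?_⟩
    have h4 := hL0 L ((le_max_left _ _).trans hL)
    have hL1 : 0 < L := by linarith [(le_max_right L0 1).trans hL]
    simp only [Function.comp] at h4
    rw [lt_div_iff₀ (by positivity)] at h4
    have hη3 : 0 < η ^ 3 := by positivity
    have h6 : (1 / 2 : ℝ) ^ b * (c1 / L) = ((1 / 2 : ℝ) ^ b * c1) / L := by ring
    rw [h6, le_div_iff₀ hL1]
    have h5 : (K0 * b * (C * Real.exp (-(η * L))) * L ^ 2 * L) * η ^ 3 ≤ ((1 / 2 : ℝ) ^ b * c1) * η ^ 3 := by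
      refine le_trans (le_of_eq ?_) h4.le
      ring
    exact le_of_mul_le_mul_right h5 hη3
  refine ⟨L0 + 8 + Real.log K0, fun z hz hzL Y hY v hv τ hτ4 hτ g hg => ?_⟩
  have hlK : 0 ≤ Real.log K0 := Real.log_nonneg hK0r
  obtain ⟨L, hL⟩ : ∃ L : ℝ, L = Real.log z := ⟨_, rfl⟩
  rw [← hL] at hzL hY hv
  have hL8 : 8 ≤ L := by linarith
  have hcb : (1 : ℝ) ≤ C0 * b := by nlinarith
  have hvL : 8 * L ≤ v := by nlinarith
  have hz0 : (0 : ℝ) < z := by exact_mod_cast (show 0 < z by omega)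
  have hzexp : (z : ℝ) = Real.exp L := by rw [hL, Real.exp_log hz0]
  have h1 := hW b hb z hz v (by linarith) (by
    push_cast
    have h2 : (K0 : ℝ) = Real.exp (Real.log K0) := (Real.exp_log (by linarith)).symm
    rw [h2, hzexp, ← Real.exp_nat_mul, ← Real.exp_add]
    apply Real.exp_le_exp.2
    push_cast
    nlinarith) τ (by
    refine hτ.trans (Real.exp_le_exp.2 ?_)
    push_cast
    have h3 : (M : ℝ) * Y ≤ M * (2 * u * L) := by gcongr
    have h4 : (M : ℝ) * (2 * u * L) ≤ M * u * (v / 2) := by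
      have : (0 : ℝ) ≤ M * u := by positivity
      nlinarith
    linarith) g hg
  have hVp := V_pos z
  have h2 : ‖(VV z : ℂ) * II g v τ‖ ≤ VV z * (8 / |τ|) := by
    rw [norm_mul, Complex.norm_real, Real.norm_eq_abs, abs_of_pos hVp]
    exact mul_le_mul_of_nonneg_left (II_bound hg v τ hτ4) hVp.le
  have h3 : ‖SR z g v τ‖ ≤ ‖SR z g v τ - (VV z : ℂ) * II g v τ‖ + ‖(VV z : ℂ) * II g v τ‖ := by
    have := norm_add_le (SR z g v τ - (VV z : ℂ) * II g v τ) ((VV z : ℂ) * II g v τ)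
    rwa [sub_add_cancel] at this
  have h4 : K0 * b * (C * Real.exp (-(η * v))) * Real.log z ^ 2 ≤ (1 / 2 : ℝ) ^ b * VV z := by
    have h5 := hL0 L (by linarith)
    have h6 : Real.exp (-(η * v)) ≤ Real.exp (-(η * L)) := Real.exp_le_exp.2 (by nlinarith)
    have h7 : c1 / L ≤ VV z := by
      rw [div_le_iff₀ (by linarith), hL]
      exact (hcz z hz).1
    rw [← hL]
    calc K0 * b * (C * Real.exp (-(η * v))) * L ^ 2 ≤ K0 * b * (C * Real.exp (-(η * L))) * L ^ 2 := by gcongr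
      _ ≤ (1 / 2 : ℝ) ^ b * (c1 / L) := h5
      _ ≤ (1 / 2 : ℝ) ^ b * VV z := by gcongr
  have h5 : VV z * (8 / |τ| + 3 * (1 / 2 : ℝ) ^ b) = VV z * (8 / |τ|) + (2 * (1 / 2 : ℝ) ^ b * VV z + (1 / 2 : ℝ) ^ b * VV z) := by ring
  rw [h5]
  linarith

end Pool.Agent.Y851.HZ
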